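import Mathlib

/-!
# Close pairs of representations: the finite inequalities

Core of the results on close representations in sets of positive lower quadratic density
(a robust form of the method of Erdős for infinite Sidon sets).
-/

set_option autoImplicit false

namespace Pool.Agent.V8H23.CloseCore

open Finset

/-- the harmonic sum -/
noncomputable def H (L : ℕ) : ℝ := ∑ j ∈ range L, 1 / ((j : ℝ) + 1)

lemma H_nonneg (L : ℕ) : 0 ≤ H L := Finset.sum_nonneg fun _ _ => by positivity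

lemma log_le_H (L : ℕ) : Real.log (L + 1) ≤ H L := by
  induction L with
  | zero => simp [H]
  | succ n ih =>
    have h1 : H (n + 1) = H n + 1 / ((n : ℝ) + 1) := by
      unfold H
      rw [Finset.sum_range_succ]
    rw [h1]
    push_cast
    have hn : (0 : ℝ) < (n : ℝ) + 1 := by positivity
    have h2 : Real.log ((n : ℝ) + 1 + 1) = Real.log ((n : ℝ) + 1) + Real.log (1 + 1 / ((n : ℝ) + 1)) := by
      rw [← Real.log_mul hn.ne' (by positivity)]
      congr 1
      field_simp
    have h3 : Real.log (1 + 1 / ((n : ℝ) + 1)) ≤ 1 / ((n : ℝ) + 1) := by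
      have := Real.log_le_sub_one_of_pos (show (0 : ℝ) < 1 + 1 / ((n : ℝ) + 1) by positivity)
      linarith
    linarith

lemma weight (j : ℕ) : 1 / (4 * ((j : ℝ) + 1)) ≤
    (1 / Real.sqrt ((j : ℝ) + 1) - 1 / Real.sqrt ((j : ℝ) + 2)) * Real.sqrt ((j : ℝ) + 1) := by
  set x : ℝ := (j : ℝ) + 1 with hx
  have hx1 : 1 ≤ x := by rw [hx]; linarith [Nat.cast_nonneg (α := ℝ) j]
  have e : (j : ℝ) + 2 = x + 1 := by rw [hx]; ring
  rw [e]
  have hs : 0 < Real.sqrt x := Real.sqrt_pos.2 (by linarith)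
  have hs1 : 0 < Real.sqrt (x + 1) := Real.sqrt_pos.2 (by linarith)
  have e2 : (1 / Real.sqrt x - 1 / Real.sqrt (x + 1)) * Real.sqrt x =
      1 - Real.sqrt x / Real.sqrt (x + 1) := by
    field_simp
  rw [e2]
  have h1 : Real.sqrt x / Real.sqrt (x + 1) ≤ 1 - 1 / (2 * (x + 1)) := by
    rw [← Real.sqrt_div' _ (by linarith)]
    rw [show x / (x + 1) = 1 - 1 / (x + 1) by field_simp; ring]
    rw [Real.sqrt_le_iff]
    have h2 : 1 / (x + 1) ≤ 1 / 2 := by
      rw [div_le_div_iff₀ (by linarith) (by norm_num)]; linarith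
    have h3 : 0 ≤ 1 / (x + 1) := by positivity
    have e3 : 1 / (2 * (x + 1)) = (1 / (x + 1)) / 2 := by field_simp
    rw [e3]
    constructor
    · linarith
    · nlinarith [sq_nonneg (1 / (x + 1))]
  have h4 : 1 / (4 * x) ≤ 1 / (2 * (x + 1)) := by
    rw [div_le_div_iff₀ (by linarith) (by linarith)]; linarith
  linarith

/-- summation by parts and Cauchy's inequality -/
lemma block_lower (f : ℕ → ℝ) (L : ℕ) (s : ℝ) (hs : 0 ≤ s) (hf : ∀ l, 0 ≤ f l)
    (h : ∀ j < L, s * Real.sqrt ((j : ℝ) + 1) ≤ ∑ l ∈ range (j + 1), f l) :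
    s ^ 2 / 16 * H L ≤ ∑ l ∈ range L, f l ^ 2 := by
  have key : ∀ n ≤ L, (∑ j ∈ range n, s / 4 * (1 / ((j : ℝ) + 1))) +
      1 / Real.sqrt ((n : ℝ) + 1) * ∑ l ∈ range n, f l ≤
      ∑ l ∈ range n, f l * (1 / Real.sqrt ((l : ℝ) + 1)) := by
    intro n
    induction n with
    | zero => intro _; simp
    | succ n ih =>
      intro hn
      have h1 := ih (by omega)
      have h2 := h n (by omega)
      have h3 := weight n
      rw [Finset.sum_range_succ, Finset.sum_range_succ (f := fun l => f l * (1 / Real.sqrt ((l : ℝ) + 1)))]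
      set F := ∑ l ∈ range (n + 1), f l with hF
      have h4 : F = (∑ l ∈ range n, f l) + f n := by rw [hF, Finset.sum_range_succ]
      have e1 : ((n + 1 : ℕ) : ℝ) + 1 = (n : ℝ) + 2 := by push_cast; ring
      rw [e1]
      have hw : 0 ≤ 1 / Real.sqrt ((n : ℝ) + 1) - 1 / Real.sqrt ((n : ℝ) + 2) := by
        rw [sub_nonneg]
        apply one_div_le_one_div_of_le (Real.sqrt_pos.2 (by positivity))
        exact Real.sqrt_le_sqrt (by linarith)
      have h5 : s * (1 / (4 * ((n : ℝ) + 1))) ≤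
          (1 / Real.sqrt ((n : ℝ) + 1) - 1 / Real.sqrt ((n : ℝ) + 2)) * F := by
        calc s * (1 / (4 * ((n : ℝ) + 1)))
            ≤ s * ((1 / Real.sqrt ((n : ℝ) + 1) - 1 / Real.sqrt ((n : ℝ) + 2)) *
              Real.sqrt ((n : ℝ) + 1)) := mul_le_mul_of_nonneg_left h3 hs
          _ = (1 / Real.sqrt ((n : ℝ) + 1) - 1 / Real.sqrt ((n : ℝ) + 2)) *
              (s * Real.sqrt ((n : ℝ) + 1)) := by ring
          _ ≤ _ := mul_le_mul_of_nonneg_left h2 hw
      have e2 : s * (1 / (4 * ((n : ℝ) + 1))) = s / 4 * (1 / ((n : ℝ) + 1)) := by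
        field_simp
      rw [e2] at h5
      have h6 : ∑ l ∈ range n, f l = F - f n := by linarith
      rw [h6] at h1
      have e3 : 1 / Real.sqrt ((n : ℝ) + 1) * (F - f n) =
        1 / Real.sqrt ((n : ℝ) + 1) * F - f n * (1 / Real.sqrt ((n : ℝ) + 1)) := by ring
      rw [e3] at h1
      have e4 : (1 / Real.sqrt ((n : ℝ) + 1) - 1 / Real.sqrt ((n : ℝ) + 2)) * F =
        1 / Real.sqrt ((n : ℝ) + 1) * F - 1 / Real.sqrt ((n : ℝ) + 2) * F := by ring
      rw [e4] at h5
      linarith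
  have h1 := key L le_rfl
  have h2 : s / 4 * H L ≤ ∑ l ∈ range L, f l * (1 / Real.sqrt ((l : ℝ) + 1)) := by
    unfold H
    rw [Finset.mul_sum]
    refine le_trans ?_ h1
    have : 0 ≤ 1 / Real.sqrt ((L : ℝ) + 1) * ∑ l ∈ range L, f l :=
      mul_nonneg (by positivity) (Finset.sum_nonneg fun l _ => hf l)
    linarith
  have h3 : (∑ l ∈ range L, f l * (1 / Real.sqrt ((l : ℝ) + 1))) ^ 2 ≤
      (∑ l ∈ range L, f l ^ 2) * H L := by
    refine (Finset.sum_mul_sq_le_sq_mul_sq (range L) f (fun l => 1 / Real.sqrt ((l : ℝ) + 1))).trans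
      (le_of_eq ?_)
    congr 1
    unfold H
    refine Finset.sum_congr rfl fun j _ => ?_
    rw [div_pow, one_pow, Real.sq_sqrt (by positivity)]
  have hH := H_nonneg L
  rcases eq_or_lt_of_le hH with h0 | h0
  · rw [← h0, mul_zero]
    exact Finset.sum_nonneg fun _ _ => sq_nonneg _
  · have h4 : (s / 4 * H L) ^ 2 ≤ (∑ l ∈ range L, f l ^ 2) * H L :=
      (pow_le_pow_left₀ (by positivity) h2 2).trans h3
    have h5 : (s / 4 * H L) ^ 2 = (s ^ 2 / 16 * H L) * H L := by ring
    rw [h5] at h4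
    exact le_of_mul_le_mul_right h4 h0

/-- the number of elements of `T` in the block `[l D, (l + 1) D)` -/
def blk (T : Finset ℕ) (D l : ℕ) : ℕ := (T.filter (fun a => a / D = l)).card

/-- the number of pairs in `T` with difference `d` -/
def dl (T : Finset ℕ) (d : ℕ) : ℕ := (T.filter (fun a => a + d ∈ T)).card

/-- quadruples `(a, b, a + d, b + d)`, `0 < d < D`, `a ≠ b` -/
def quad (T : Finset ℕ) (D : ℕ) : Finset (ℕ × ℕ × ℕ) :=
  (T ×ˢ T ×ˢ Ico 1 D).filter
    (fun t => t.1 ≠ t.2.1 ∧ t.1 + t.2.2 ∈ T ∧ t.2.1 + t.2.2 ∈ T)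

/-- pairs in `T` with positive difference below `D` -/
def pr (T : Finset ℕ) (D : ℕ) : ℕ := ∑ d ∈ Ico 1 D, dl T d

lemma blk_sq (T : Finset ℕ) (D L : ℕ) (hD : 0 < D) :
    ∑ l ∈ range L, blk T D l ^ 2 ≤ T.card + 2 * pr T D := by
  classical
  have h1 : ∑ l ∈ range L, blk T D l ^ 2 ≤ ((T ×ˢ T).filter (fun p => p.1 / D = p.2 / D)).card := by
    have h2 : ∀ l ∈ range L, blk T D l ^ 2 =
        (((T ×ˢ T).filter (fun p => p.1 / D = l ∧ p.2 / D = l))).card := by
      intro l _
      rw [sq]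
      unfold blk
      rw [← Finset.card_product]
      congr 1
      ext p
      simp only [mem_product, mem_filter]
      tauto
    rw [Finset.sum_congr rfl h2, ← Finset.card_biUnion]
    · apply Finset.card_le_card
      intro p hp
      simp only [mem_biUnion, mem_filter, mem_range] at hp ⊢
      obtain ⟨l, _, h3, h4, h5⟩ := hp
      exact ⟨h3, h4.trans h5.symm⟩
    · intro l _ l' _ hll
      simp only [Function.onFun]
      rw [Finset.disjoint_left]
      intro p hp hp'
      simp only [mem_filter] at hp hp'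
      exact hll (hp.2.1.symm.trans hp'.2.1)
  refine h1.trans ?_
  have h3 : ((T ×ˢ T).filter (fun p => p.1 / D = p.2 / D)) ⊆
      ((T ×ˢ T).filter (fun p => p.1 = p.2)) ∪
      (((T ×ˢ T).filter (fun p => p.1 < p.2 ∧ p.1 / D = p.2 / D)) ∪
      ((T ×ˢ T).filter (fun p => p.2 < p.1 ∧ p.1 / D = p.2 / D))) := by
    intro p hp
    simp only [mem_union, mem_filter] at hp ⊢
    rcases lt_trichotomy p.1 p.2 with h | h | h
    · right; left; exact ⟨hp.1, h, hp.2⟩
    · left; exact ⟨hp.1, h⟩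
    · right; right; exact ⟨hp.1, h, hp.2⟩
  refine (Finset.card_le_card h3).trans ?_
  refine (Finset.card_union_le _ _).trans ?_
  have hdiag : ((T ×ˢ T).filter (fun p => p.1 = p.2)).card ≤ T.card := by
    apply Finset.card_le_card_of_injOn (fun p => p.1)
    · intro p hp
      simp only [coe_filter, mem_product, Set.mem_ofPred_eq] at hp
      exact hp.1.1
    · intro p hp q hq hpq
      simp only [coe_filter, mem_product, Set.mem_ofPred_eq] at hp hq
      simp only at hpq
      ext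
      · exact hpq
      · rw [← hp.2, ← hq.2]; exact hpq
  have hlt : ((T ×ˢ T).filter (fun p => p.1 < p.2 ∧ p.1 / D = p.2 / D)).card ≤ pr T D := by
    have h4 : pr T D = ((Ico 1 D).sigma (fun d => T.filter (fun a => a + d ∈ T))).card := by
      rw [Finset.card_sigma]; rfl
    rw [h4]
    apply Finset.card_le_card_of_injOn (fun p => (⟨p.2 - p.1, p.1⟩ : (_ : ℕ) × ℕ))
    · intro p hp
      simp only [coe_filter, mem_product, Set.mem_ofPred_eq] at hp
      obtain ⟨⟨ha, hb⟩, hlt, hdiv⟩ := hp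
      simp only [coe_sigma, Set.mem_sigma_iff, mem_coe, mem_Ico, mem_filter]
      have hsub : p.1 + (p.2 - p.1) = p.2 := by omega
      refine ⟨⟨by omega, ?_⟩, ha, by rw [hsub]; exact hb⟩
      have e1 := Nat.div_add_mod p.1 D
      have e2 := Nat.div_add_mod p.2 D
      have e3 := Nat.mod_lt p.2 hD
      rw [hdiv] at e1
      omega
    · intro p hp q hq hpq
      simp only [coe_filter, mem_product, Set.mem_ofPred_eq] at hp hq
      simp only [Sigma.mk.injEq, heq_eq_eq] at hpq
      ext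
      · exact hpq.2
      · omega
  have hgt : ((T ×ˢ T).filter (fun p => p.2 < p.1 ∧ p.1 / D = p.2 / D)).card =
      ((T ×ˢ T).filter (fun p => p.1 < p.2 ∧ p.1 / D = p.2 / D)).card := by
    apply Finset.card_bij (fun p _ => (p.2, p.1))
    · intro p hp
      simp only [mem_filter, mem_product] at hp ⊢
      exact ⟨⟨hp.1.2, hp.1.1⟩, hp.2.1, hp.2.2.symm⟩
    · intro p _ q _ hpq
      simp only [Prod.mk.injEq] at hpq
      ext
      · exact hpq.2
      · exact hpq.1
    · intro p hp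
      simp only [mem_filter, mem_product] at hp
      refine ⟨(p.2, p.1), ?_, rfl⟩
      simp only [mem_filter, mem_product]
      exact ⟨⟨hp.1.2, hp.1.1⟩, hp.2.1, hp.2.2.symm⟩
  have := Finset.card_union_le ((T ×ˢ T).filter (fun p => p.1 < p.2 ∧ p.1 / D = p.2 / D))
    ((T ×ˢ T).filter (fun p => p.2 < p.1 ∧ p.1 / D = p.2 / D))
  omega

lemma sum_dl_sq (T : Finset ℕ) (D : ℕ) :
    ∑ d ∈ Ico 1 D, dl T d ^ 2 ≤ (quad T D).card + pr T D := by
  classical
  have h1 : ∀ d ∈ Ico 1 D, dl T d ^ 2 ≤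
      ((T ×ˢ T).filter (fun p => p.1 ≠ p.2 ∧ p.1 + d ∈ T ∧ p.2 + d ∈ T)).card + dl T d := by
    intro d _
    rw [sq]
    unfold dl
    rw [← Finset.card_product]
    have h2 : (T.filter (fun a => a + d ∈ T)) ×ˢ (T.filter (fun a => a + d ∈ T)) ⊆
        ((T ×ˢ T).filter (fun p => p.1 ≠ p.2 ∧ p.1 + d ∈ T ∧ p.2 + d ∈ T)) ∪
        ((T.filter (fun a => a + d ∈ T)).image (fun a => (a, a))) := by
      intro p hp
      simp only [mem_product, mem_filter, mem_union, mem_image] at hp ⊢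
      by_cases h : p.1 = p.2
      · right
        exact ⟨p.1, hp.1, by ext <;> simp [h]⟩
      · left
        exact ⟨⟨hp.1.1, hp.2.1⟩, h, hp.1.2, hp.2.2⟩
    refine (Finset.card_le_card h2).trans ((Finset.card_union_le _ _).trans ?_)
    exact Nat.add_le_add_left Finset.card_image_le _
  refine (Finset.sum_le_sum h1).trans ?_
  rw [Finset.sum_add_distrib]
  refine Nat.add_le_add_right ?_ _
  rw [← Finset.card_sigma (Ico 1 D)
    (fun d => (T ×ˢ T).filter (fun p => p.1 ≠ p.2 ∧ p.1 + d ∈ T ∧ p.2 + d ∈ T))]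
  apply Finset.card_le_card_of_injOn (fun x => (x.2.1, x.2.2, x.1))
  · intro x hx
    simp only [coe_sigma, Set.mem_sigma_iff, mem_coe, mem_filter, mem_product] at hx
    simp only [quad, coe_filter, mem_product, Set.mem_ofPred_eq]
    exact ⟨⟨hx.2.1.1, hx.2.1.2, hx.1⟩, hx.2.2⟩
  · rintro ⟨d, a, b⟩ _ ⟨d', a', b'⟩ _ h
    simp only [Prod.mk.injEq] at h
    obtain ⟨rfl, rfl, rfl⟩ := h
    rfl

lemma pr_sq (T : Finset ℕ) (D : ℕ) : pr T D ^ 2 ≤ D * ((quad T D).card + pr T D) := by
  have h1 : (pr T D) ^ 2 ≤ (Ico 1 D).card * ∑ d ∈ Ico 1 D, dl T d ^ 2 :=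
    sq_sum_le_card_mul_sum_sq
  refine h1.trans (Nat.mul_le_mul ?_ (sum_dl_sq T D))
  rw [Nat.card_Ico]
  omega

/-- the number of elements of a finite set below a bound, as a sum over blocks -/
lemma sum_blk (S : Finset ℕ) (D j : ℕ) (hD : 0 < D) :
    ∑ l ∈ range j, blk S D l = (S.filter (fun a => a < j * D)).card := by
  classical
  unfold blk
  rw [← Finset.card_biUnion]
  · congr 1
    ext a
    simp only [mem_biUnion, mem_range, mem_filter]
    constructor
    · rintro ⟨l, hl, ha, h⟩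
      exact ⟨ha, by rw [← h] at hl; exact (Nat.div_lt_iff_lt_mul hD).1 hl⟩
    · rintro ⟨ha, h⟩
      exact ⟨a / D, (Nat.div_lt_iff_lt_mul hD).2 h, ha, rfl⟩
  · intro l _ l' _ hll
    simp only [Function.onFun]
    rw [Finset.disjoint_left]
    intro p hp hp'
    simp only [mem_filter] at hp hp'
    exact hll (hp.2.symm.trans hp'.2)

section classes

variable {m : ℕ} (T : Fin m → Finset ℕ) (S : Finset ℕ)

/-- the total number of close pairs -/
def P (D : ℕ) : ℕ := ∑ i, pr (T i) D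

/-- the total number of elements -/
def tot : ℕ := ∑ i, (T i).card

lemma sum_blk_sq_le (D L : ℕ) (hD : 0 < D) :
    ∑ l ∈ range L, ∑ i, blk (T i) D l ^ 2 ≤ tot T + 2 * P T D := by
  rw [Finset.sum_comm]
  refine (Finset.sum_le_sum fun i _ => blk_sq (T i) D L hD).trans ?_
  unfold tot P
  rw [Finset.sum_add_distrib, Finset.mul_sum]

lemma blk_union (hS : ∀ a ∈ S, ∃ i, a ∈ T i) (D l : ℕ) : blk S D l ≤ ∑ i, blk (T i) D l := by
  classical
  unfold blk
  have : S.filter (fun a => a / D = l) ⊆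
      Finset.univ.biUnion (fun i => (T i).filter (fun a => a / D = l)) := by
    intro a ha
    simp only [mem_filter, mem_biUnion, mem_univ, true_and] at ha ⊢
    obtain ⟨i, hi⟩ := hS a ha.1
    exact ⟨i, hi, ha.2⟩
  exact (Finset.card_le_card this).trans Finset.card_biUnion_le

/-- many scales -/
lemma lower_scales (hS : ∀ a ∈ S, ∃ i, a ∈ T i) (D L : ℕ) (hD : 0 < D) (s : ℝ) (hs : 0 ≤ s)
    (h : ∀ j < L, s * Real.sqrt ((j : ℝ) + 1) ≤ ((S.filter (fun a => a < (j + 1) * D)).card : ℝ)) :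
    s ^ 2 / 16 * H L ≤ m * (tot T + 2 * P T D : ℕ) := by
  have h1 := block_lower (fun l => (blk S D l : ℝ)) L s hs (fun _ => Nat.cast_nonneg _) (by
    intro j hj
    refine (h j hj).trans (le_of_eq ?_)
    rw [← sum_blk S D (j + 1) hD]
    push_cast
    rfl)
  refine h1.trans ?_
  have h2 : ∀ l ∈ range L, ((blk S D l : ℝ)) ^ 2 ≤ (m : ℝ) * ((∑ i, blk (T i) D l ^ 2 : ℕ) : ℝ) := by
    intro l _
    have h3 := blk_union T S hS D l
    have h4 : (blk S D l) ^ 2 ≤ m * ∑ i, blk (T i) D l ^ 2 := by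
      calc (blk S D l) ^ 2 ≤ (∑ i, blk (T i) D l) ^ 2 := Nat.pow_le_pow_left h3 2
        _ ≤ (Finset.univ : Finset (Fin m)).card * ∑ i, blk (T i) D l ^ 2 :=
            sq_sum_le_card_mul_sum_sq
        _ = m * ∑ i, blk (T i) D l ^ 2 := by rw [Finset.card_univ, Fintype.card_fin]
    exact_mod_cast h4
  refine (Finset.sum_le_sum h2).trans ?_
  rw [← Finset.mul_sum, ← Nat.cast_sum]
  refine mul_le_mul_of_nonneg_left ?_ (Nat.cast_nonneg _)
  exact_mod_cast sum_blk_sq_le T D L hD

/-- the dense case -/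
lemma lower_dense (D L : ℕ) (hD : 0 < D) (hT : ∀ i, ∀ a ∈ T i, a < L * D) :
    tot T ^ 2 ≤ m * L * (tot T + 2 * P T D) := by
  have h1 : tot T = ∑ x : Fin m × Fin L, blk (T x.1) D x.2 := by
    rw [Fintype.sum_prod_type]
    unfold tot
    refine Finset.sum_congr rfl fun i _ => ?_
    have h2 := sum_blk (T i) D L hD
    rw [Finset.filter_true_of_mem (hT i)] at h2
    rw [← h2, Finset.sum_range]
  calc tot T ^ 2 ≤ (Finset.univ : Finset (Fin m × Fin L)).card *
        ∑ x : Fin m × Fin L, blk (T x.1) D x.2 ^ 2 := by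
        rw [h1]; exact sq_sum_le_card_mul_sum_sq
    _ = m * L * ∑ l ∈ range L, ∑ i, blk (T i) D l ^ 2 := by
        rw [Finset.card_univ, Fintype.card_prod, Fintype.card_fin, Fintype.card_fin,
          Fintype.sum_prod_type, Finset.sum_comm, Finset.sum_range]
    _ ≤ _ := Nat.mul_le_mul_left _ (sum_blk_sq_le T D L hD)

/-- if there are many close pairs then one of the classes has many of them -/
lemma exists_class (D W : ℕ) (hD : 0 < D) (hm : 0 < m) (hP : m * (W * D) ≤ P T D) :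
    ∃ i, W * D ≤ pr (T i) D := by
  by_contra hcon
  push Not at hcon
  have : P T D < ∑ _i : Fin m, W * D :=
    Finset.sum_lt_sum_of_nonempty ⟨⟨0, hm⟩, Finset.mem_univ _⟩ fun i _ => hcon i
  simp at this
  omega

end classes

/-- many quadruples from many close pairs -/
lemma quad_lower (T : Finset ℕ) (D W : ℕ) (hD : 0 < D) (hW : 2 ≤ W) (h : W * D ≤ pr T D) :
    2 * D ≤ (quad T D).card := by
  have h1 := pr_sq T D
  by_contra hcon
  push Not at hcon
  have h2 : pr T D ^ 2 < D * (2 * D + pr T D) := lt_of_le_of_lt h1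
    (Nat.mul_lt_mul_of_pos_left (by omega) hD)
  have h3 : 2 * D ≤ pr T D := le_trans (Nat.mul_le_mul_right D hW) h
  nlinarith [Nat.zero_le D]

/-- many popular differences -/
lemma popular_lower (T : Finset ℕ) (D M : ℕ) (h : (M + 1) * D ≤ pr T D) :
    D ≤ ∑ d ∈ (Ico 1 D).filter (fun d => M ≤ dl T d), dl T d := by
  have h1 : pr T D = ∑ d ∈ (Ico 1 D).filter (fun d => M ≤ dl T d), dl T d +
      ∑ d ∈ (Ico 1 D).filter (fun d => ¬ M ≤ dl T d), dl T d :=
    (Finset.sum_filter_add_sum_filter_not _ _ _).symm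
  have h2 : ∑ d ∈ (Ico 1 D).filter (fun d => ¬ M ≤ dl T d), dl T d ≤ M * D := by
    calc ∑ d ∈ (Ico 1 D).filter (fun d => ¬ M ≤ dl T d), dl T d
        ≤ ∑ d ∈ (Ico 1 D).filter (fun d => ¬ M ≤ dl T d), M := by
          refine Finset.sum_le_sum fun d hd => ?_
          have := (Finset.mem_filter.1 hd).2
          omega
      _ = ((Ico 1 D).filter (fun d => ¬ M ≤ dl T d)).card * M := by
          rw [Finset.sum_const, smul_eq_mul]
      _ ≤ D * M := by
          refine Nat.mul_le_mul_right _ ((Finset.card_filter_le _ _).trans ?_)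
          rw [Nat.card_Ico]; omega
      _ = M * D := mul_comm _ _
  have h3 : (M + 1) * D = M * D + D := by ring
  omega

end Pool.Agent.V8H23.CloseCore
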