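import Mathlib
import Pool.Agent.V8H23.CloseCore

/-!
# Close representations in sets of positive lower quadratic density
-/

set_option autoImplicit false

namespace Pool.Agent.V8H23.CloseET

open Finset Filter
open Pool.Agent.V8H23.CloseCore

/-- `r_A(n)`: the number of ordered pairs of elements of `A` with sum `n` -/
noncomputable def rep (A : Set ℕ) (n : ℕ) : ℕ :=
  {p : ℕ × ℕ | p.1 ∈ A ∧ p.2 ∈ A ∧ p.1 + p.2 = n}.ncard

/-- the number of elements of `A` below `x` -/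
noncomputable def cnt (A : Set ℕ) (x : ℕ) : ℕ := (A ∩ Set.Iio x).ncard

/-- the number of pairs of elements of `A` below `N` with difference `d` -/
noncomputable def diff (A : Set ℕ) (N d : ℕ) : ℕ := {a : ℕ | a ∈ A ∧ a + d ∈ A ∧ a + d < N}.ncard

/-- `n` has two different representations `a + b = a' + b'` with `0 < a' - a ≤ y` -/
def Close (A : Set ℕ) (y : ℝ) (n : ℕ) : Prop :=
  ∃ a ∈ A, ∃ b ∈ A, ∃ a' ∈ A, ∃ b' ∈ A, a + b = n ∧ a' + b' = n ∧ a < a' ∧ (a' : ℝ) ≤ a + y ∧ a' ≠ b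

/-- `0 < d ≤ y` and `d` is the difference of at least `M` pairs of elements of `A` below `N` -/
def Popular (A : Set ℕ) (M N : ℕ) (y : ℝ) (d : ℕ) : Prop := 0 < d ∧ (d : ℝ) ≤ y ∧ M ≤ diff A N d

/-- elements of `A` below `x`, as a finite set -/
noncomputable def tr (A : Set ℕ) (x : ℕ) : Finset ℕ := by
  classical exact (range x).filter (fun a => a ∈ A)

lemma mem_tr {A : Set ℕ} {x a : ℕ} : a ∈ tr A x ↔ a < x ∧ a ∈ A := by
  classical
  unfold tr
  simp

lemma card_tr (A : Set ℕ) (x : ℕ) : (tr A x).card = cnt A x := by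
  unfold cnt
  rw [← Set.ncard_coe_finset]
  congr 1
  ext a
  simp only [mem_coe, mem_tr, Set.mem_inter_iff, Set.mem_Iio]
  tauto

lemma rep_finite (A : Set ℕ) (n : ℕ) : {p : ℕ × ℕ | p.1 ∈ A ∧ p.2 ∈ A ∧ p.1 + p.2 = n}.Finite := by
  refine Set.Finite.subset (Finset.finite_toSet (antidiagonal n)) ?_
  intro p hp
  simpa using hp.2.2

/-- quadruples and the squares of the representation function -/
lemma card_le_sum_rep (A : Set ℕ) (Q : Finset (ℕ × ℕ × ℕ)) (E : Finset ℕ)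
    (h : ∀ t ∈ Q, t.1 ∈ A ∧ t.2.1 ∈ A ∧ t.1 + t.2.2 ∈ A ∧ t.2.1 + t.2.2 ∈ A ∧
      t.1 + t.2.1 + t.2.2 ∈ E) :
    Q.card ≤ ∑ n ∈ E, rep A n ^ 2 := by
  classical
  have h1 : ∑ n ∈ E, rep A n ^ 2 =
      (E.sigma (fun n => (rep_finite A n).toFinset ×ˢ (rep_finite A n).toFinset)).card := by
    rw [Finset.card_sigma]
    refine Finset.sum_congr rfl fun n _ => ?_
    rw [Finset.card_product, sq]
    unfold rep
    rw [Set.ncard_eq_toFinset_card _ (rep_finite A n)]
  rw [h1]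
  apply Finset.card_le_card_of_injOn
    (fun t => (⟨t.1 + t.2.1 + t.2.2, (t.1, t.2.1 + t.2.2), (t.1 + t.2.2, t.2.1)⟩ :
      (_ : ℕ) × (ℕ × ℕ) × (ℕ × ℕ)))
  · intro t ht
    obtain ⟨h1, h2, h3, h4, h5⟩ := h t ht
    simp only [coe_sigma, Set.mem_sigma_iff, mem_coe, mem_product, Set.Finite.mem_toFinset,
      Set.mem_ofPred_eq]
    exact ⟨h5, ⟨h1, h4, by ring⟩, h3, h2, by ring⟩
  · rintro ⟨a, b, d⟩ _ ⟨a', b', d'⟩ _ h
    simp only [Sigma.mk.injEq, heq_eq_eq, Prod.mk.injEq] at h ⊢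
    omega

/-- growth with constant `c` -/
def Grow (A : Set ℕ) (c : ℝ) : Prop := ∀ᶠ x : ℕ in atTop, c * x ≤ (cnt A x : ℝ) ^ 2

/-- the finite form at one height -/
lemma at_height {m : ℕ} {A : Set ℕ} {B : Fin m → Set ℕ} {c : ℝ} (hc : 0 < c) (W L x₀ : ℕ)
    (hA : ∀ x : ℕ, x₀ ≤ x → c * x ≤ (cnt A x : ℝ) ^ 2) (hcov : A ⊆ ⋃ i, B i) (hL : 0 < L)
    (hH : 16 * ((2 * W + 1) * (m : ℝ) ^ 2) ≤ c * H L) (M : ℕ)
    (hx₀ : x₀ ≤ M / L) (hM : 2 * (2 * W + 1) * L ≤ M / L) (hm : 0 < m) :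
    ∃ i, W * (M / L) ≤ pr (tr (B i) M) (M / L) := by
  set D : ℕ := M / L with hD
  have hD0 : 0 < D := by
    have : 0 < 2 * (2 * W + 1) * L := by positivity
    omega
  have hLD : L * D ≤ M := Nat.mul_div_le M L
  have hML : M < 2 * L * D := by
    have h1 := Nat.div_add_mod M L
    have h2 := Nat.mod_lt M hL
    have h3 : L ≤ L * D := Nat.le_mul_of_pos_right L hD0
    rw [← hD] at h1
    have h4 : 2 * L * D = L * D + L * D := by ring
    omega
  set T : Fin m → Finset ℕ := fun i => tr (B i) M with hT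
  apply exists_class T D W hD0 hm
  rcases le_or_gt (tot T) (m * D) with htot | htot
  · -- the sparse case
    have h1 := lower_scales T (tr A M) (by
      intro a ha
      rw [mem_tr] at ha
      obtain ⟨i, hi⟩ := Set.mem_iUnion.1 (hcov ha.2)
      exact ⟨i, by rw [hT]; exact mem_tr.2 ⟨ha.1, hi⟩⟩) D L hD0 (Real.sqrt (c * D))
      (Real.sqrt_nonneg _) (by
      intro j hj
      have h2 : (tr A M).filter (fun a => a < (j + 1) * D) = tr A ((j + 1) * D) := by
        ext a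
        simp only [mem_filter, mem_tr]
        have h3 : (j + 1) * D ≤ L * D := Nat.mul_le_mul_right D (by omega)
        constructor
        · rintro ⟨⟨_, h5⟩, h6⟩; exact ⟨h6, h5⟩
        · rintro ⟨h5, h6⟩; exact ⟨⟨by omega, h6⟩, h5⟩
      rw [h2, card_tr]
      have h4 := hA ((j + 1) * D) (hx₀.trans (Nat.le_mul_of_pos_left D (by omega)))
      rw [← Real.sqrt_mul (by positivity)]
      refine (Real.sqrt_le_sqrt ?_).trans (le_of_eq (Real.sqrt_sq (Nat.cast_nonneg _)))
      refine le_trans (le_of_eq ?_) h4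
      push_cast
      ring)
    rw [Real.sq_sqrt (by positivity)] at h1
    have h5 : (D : ℝ) * ((2 * W + 1) * (m : ℝ) ^ 2) ≤ c * D / 16 * H L := by
      have : (D : ℝ) * (16 * ((2 * W + 1) * (m : ℝ) ^ 2)) ≤ D * (c * H L) :=
        mul_le_mul_of_nonneg_left hH (Nat.cast_nonneg _)
      linarith
    have h6 : (D : ℝ) * ((2 * W + 1) * (m : ℝ) ^ 2) ≤ m * (tot T + 2 * P T D : ℕ) := h5.trans h1
    have h7 : D * ((2 * W + 1) * m ^ 2) ≤ m * (tot T + 2 * P T D) := by exact_mod_cast h6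
    have h8 : D * ((2 * W + 1) * m ^ 2) = m * (D * ((2 * W + 1) * m)) := by ring
    rw [h8] at h7
    have h9 := Nat.le_of_mul_le_mul_left h7 hm
    have h10 : D * ((2 * W + 1) * m) = 2 * (m * (W * D)) + m * D := by ring
    omega
  · -- the dense case
    have h1 := lower_dense T D (2 * L) hD0 (by
      intro i a ha
      rw [hT] at ha
      exact lt_trans (mem_tr.1 ha).1 hML)
    by_contra hcon
    push Not at hcon
    have h2 : m * (2 * L) * (tot T + 2 * P T D) ≤ m * (2 * L) * ((2 * W + 1) * tot T) := by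
      refine Nat.mul_le_mul_left _ ?_
      have : 2 * (m * (W * D)) = 2 * W * (m * D) := by ring
      have h3 : 2 * W * (m * D) ≤ 2 * W * tot T := Nat.mul_le_mul_left _ htot.le
      have h4 : (2 * W + 1) * tot T = 2 * W * tot T + tot T := by ring
      omega
    have h3 : tot T * tot T ≤ (m * (2 * L) * (2 * W + 1)) * tot T := by
      calc tot T * tot T = tot T ^ 2 := by ring
        _ ≤ _ := h1
        _ ≤ _ := h2
        _ = _ := by ring
    have h4 : tot T ≤ m * (2 * L) * (2 * W + 1) :=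
      Nat.le_of_mul_le_mul_right h3 (by omega)
    have h5 : m * (2 * L) * (2 * W + 1) ≤ m * D := by
      calc m * (2 * L) * (2 * W + 1) = m * (2 * (2 * W + 1) * L) := by ring
        _ ≤ m * D := Nat.mul_le_mul_left _ hM
    omega

lemma pos_of_grow {m : ℕ} {A : Set ℕ} {B : Fin m → Set ℕ} {c : ℝ} (hc : 0 < c) (hA : Grow A c)
    (hcov : A ⊆ ⋃ i, B i) : 0 < m := by
  rcases Nat.eq_zero_or_pos m with h | h
  · exfalso
    subst h
    obtain ⟨x, h1, h2⟩ := (hA.and (eventually_ge_atTop 1)).exists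
    have h3 : A = ∅ := by
      apply Set.subset_empty_iff.1
      refine hcov.trans ?_
      simp
    have h4 : cnt A x = 0 := by
      unfold cnt
      rw [h3]
      simp
    rw [h4] at h1
    have h5 : (1 : ℝ) ≤ x := by exact_mod_cast h2
    norm_num at h1
    nlinarith
  · exact h

lemma exists_scale {c : ℝ} (hc : 0 < c) {ε : ℝ} (hε : 0 < ε) (m W : ℕ) :
    ∃ L : ℕ, 0 < L ∧ 1 ≤ ε * L ∧ 16 * ((2 * W + 1) * (m : ℝ) ^ 2) ≤ c * H L := by
  set y : ℝ := 16 * ((2 * W + 1) * (m : ℝ) ^ 2) / c with hy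
  refine ⟨⌈Real.exp y⌉₊ + ⌈1 / ε⌉₊ + 1, by positivity, ?_, ?_⟩
  · have h1 := Nat.le_ceil (1 / ε)
    have h2 : 1 / ε ≤ ((⌈Real.exp y⌉₊ + ⌈1 / ε⌉₊ + 1 : ℕ) : ℝ) := by
      push_cast
      have : (0 : ℝ) ≤ ⌈Real.exp y⌉₊ := Nat.cast_nonneg _
      linarith
    have h3 : ε * (1 / ε) = 1 := by field_simp
    calc 1 = ε * (1 / ε) := h3.symm
      _ ≤ _ := mul_le_mul_of_nonneg_left h2 hε.le
  · have h1 := Nat.le_ceil (Real.exp y)
    have h2 := log_le_H (⌈Real.exp y⌉₊ + ⌈1 / ε⌉₊ + 1)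
    have h3 : y ≤ Real.log (((⌈Real.exp y⌉₊ + ⌈1 / ε⌉₊ + 1 : ℕ) : ℝ) + 1) := by
      rw [Real.le_log_iff_exp_le (by positivity)]
      push_cast
      have : (0 : ℝ) ≤ ⌈1 / ε⌉₊ := Nat.cast_nonneg _
      linarith
    have h4 : c * y = 16 * ((2 * W + 1) * (m : ℝ) ^ 2) := by rw [hy]; field_simp
    rw [← h4]
    exact mul_le_mul_of_nonneg_left (h3.trans h2) hc.le

lemma dl_le_diff (B : Set ℕ) (M N d : ℕ) (h : M ≤ N) : dl (tr B M) d ≤ diff B N d := by
  classical
  unfold dl diff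
  rw [← Set.ncard_coe_finset]
  apply Set.ncard_le_ncard
  · intro a ha
    simp only [coe_filter, mem_tr, Set.mem_ofPred_eq] at ha ⊢
    exact ⟨ha.1.2, ha.2.2, by omega⟩
  · refine Set.Finite.subset (Set.finite_Iio N) ?_
    intro a ha
    simp only [Set.mem_ofPred_eq] at ha
    simp only [Set.mem_Iio]
    omega

open Classical in
/-- the general theorem -/
theorem general (c ε : ℝ) (m M : ℕ) (hc : 0 < c) (hε : 0 < ε) : ∃ δ : ℝ, 0 < δ ∧
    ∀ (A : Set ℕ) (B : Fin m → Set ℕ), Grow A c → A ⊆ ⋃ i, B i →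
    ∀ᶠ N : ℕ in atTop, ∃ i,
      δ * N ≤ ∑ d ∈ (range N).filter (Popular (B i) M N (ε * N)),
        (diff (B i) N d : ℝ) ∧
      δ * N ≤ ∑ n ∈ (range N).filter (Close (B i) (ε * N)), (rep (B i) n : ℝ) ^ 2 := by
  obtain ⟨L, hL, hεL, hH⟩ := exists_scale hc hε m (M + 2)
  refine ⟨1 / (4 * L), by positivity, ?_⟩
  intro A B hA hcov
  have hm := pos_of_grow hc hA hcov
  obtain ⟨x₀, hx₀⟩ := eventually_atTop.1 hA
  filter_upwards [eventually_ge_atTop (2 * L * (x₀ + 2 * (2 * (M + 2) + 1) * L + 1)),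
    eventually_ge_atTop (4 * L)] with N hN hN4
  have hD : N / 2 / L = N / (2 * L) := Nat.div_div_eq_div_mul N 2 L
  have hDbig : x₀ + 2 * (2 * (M + 2) + 1) * L + 1 ≤ N / 2 / L := by
    rw [hD, Nat.le_div_iff_mul_le (by positivity)]
    linarith
  obtain ⟨i, hi⟩ := at_height (B := B) hc (M + 2) L x₀ hx₀ hcov hL hH (N / 2) (by omega)
    (by omega) hm
  set D : ℕ := N / 2 / L with hDdef
  have hD0 : 0 < D := by omega
  set T : Finset ℕ := tr (B i) (N / 2) with hT
  have hDN : D ≤ N := (Nat.div_le_self _ _).trans (Nat.div_le_self _ _)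
  have hDε : (D : ℝ) ≤ ε * N := by
    have h1 : L * D ≤ N := (Nat.mul_div_le (N / 2) L).trans (Nat.div_le_self _ _)
    have h2 : (L : ℝ) * D ≤ N := by exact_mod_cast h1
    calc (D : ℝ) ≤ (ε * L) * D := le_mul_of_one_le_left (Nat.cast_nonneg _) hεL
      _ = ε * (L * D) := by ring
      _ ≤ ε * N := mul_le_mul_of_nonneg_left h2 hε.le
  have hDlow : 1 / (4 * L) * (N : ℝ) ≤ D := by
    have h1 : N < 2 * L * (D + 1) := by
      rw [hD]
      exact Nat.lt_mul_div_succ N (by positivity)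
    have h2 : (N : ℝ) < 2 * L * (D + 1) := by exact_mod_cast h1
    have h3 : (4 : ℝ) * L ≤ N := by exact_mod_cast hN4
    have hL' : (0 : ℝ) < L := by exact_mod_cast hL
    rw [div_mul_eq_mul_div, one_mul, div_le_iff₀ (by positivity)]
    nlinarith
  refine ⟨i, hDlow.trans ?_, hDlow.trans ?_⟩
  · have h1 := popular_lower T D M (le_trans (Nat.mul_le_mul_right D (by omega)) hi)
    have h2 : ∑ d ∈ (Ico 1 D).filter (fun d => M ≤ dl T d), dl T d ≤
        ∑ d ∈ (range N).filter (Popular (B i) M N (ε * N)),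
          diff (B i) N d := by
      calc ∑ d ∈ (Ico 1 D).filter (fun d => M ≤ dl T d), dl T d
          ≤ ∑ d ∈ (Ico 1 D).filter (fun d => M ≤ dl T d), diff (B i) N d :=
            Finset.sum_le_sum fun d _ => dl_le_diff (B i) (N / 2) N d (Nat.div_le_self _ _)
        _ ≤ _ := by
            apply Finset.sum_le_sum_of_subset
            intro d hd
            simp only [mem_filter, mem_Ico, mem_range, Popular] at hd ⊢
            have h3 : (d : ℝ) ≤ D := by exact_mod_cast hd.1.2.le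
            exact ⟨by omega, by omega, h3.trans hDε,
              hd.2.trans (dl_le_diff (B i) (N / 2) N d (Nat.div_le_self _ _))⟩
    exact_mod_cast h1.trans h2
  · have h1 := quad_lower T D (M + 2) hD0 (by omega) hi
    have h2 := card_le_sum_rep (B i) (quad T D) ((range N).filter (Close (B i) (ε * N))) (by
      rintro ⟨a, b, d⟩ ht
      simp only [quad, mem_filter, mem_product, mem_Ico] at ht
      obtain ⟨⟨ha, hb, hd1, hd2⟩, hab, had, hbd⟩ := ht
      rw [hT, mem_tr] at ha hb had hbd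
      refine ⟨ha.2, hb.2, had.2, hbd.2, ?_⟩
      simp only [mem_filter, mem_range]
      have h3 : (d : ℝ) ≤ D := by exact_mod_cast hd2.le
      refine ⟨by omega, a, ha.2, b + d, hbd.2, a + d, had.2, b, hb.2, by ring, by ring, by omega,
        ?_, by omega⟩
      push_cast
      linarith)
    have h3 : D ≤ ∑ n ∈ (range N).filter (Close (B i) (ε * N)), rep (B i) n ^ 2 := by omega
    exact_mod_cast h3

lemma sum_diff_sq (B : Set ℕ) (N : ℕ) :
    ∑ d ∈ range N, diff B N d ^ 2 ≤ ∑ n ∈ range (2 * N), rep B n ^ 2 := by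
  classical
  have h1 : ∀ d, diff B N d = ((range N).filter (fun a => a ∈ B ∧ a + d ∈ B ∧ a + d < N)).card := by
    intro d
    unfold diff
    rw [← Set.ncard_coe_finset]
    congr 1
    ext a
    simp only [Set.mem_ofPred_eq, coe_filter, mem_range]
    constructor
    · intro h; exact ⟨by omega, h⟩
    · intro h; exact h.2
  have h2 : ∑ d ∈ range N, diff B N d ^ 2 =
      ((range N).sigma (fun d => ((range N).filter (fun a => a ∈ B ∧ a + d ∈ B ∧ a + d < N)) ×ˢ
        ((range N).filter (fun a => a ∈ B ∧ a + d ∈ B ∧ a + d < N)))).card := by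
    rw [Finset.card_sigma]
    refine Finset.sum_congr rfl fun d _ => ?_
    rw [Finset.card_product, h1, sq]
  rw [h2]
  have h3 := card_le_sum_rep B (((range N).sigma (fun d => ((range N).filter
    (fun a => a ∈ B ∧ a + d ∈ B ∧ a + d < N)) ×ˢ
        ((range N).filter (fun a => a ∈ B ∧ a + d ∈ B ∧ a + d < N)))).image
    (fun x => (x.2.1, x.2.2, x.1))) (range (2 * N)) (by
    intro t ht
    simp only [mem_image, mem_sigma, mem_product, mem_filter, mem_range] at ht
    obtain ⟨⟨d, a, b⟩, h, rfl⟩ := ht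
    simp only at h ⊢
    refine ⟨h.2.1.2.1, h.2.2.2.1, h.2.1.2.2.1, h.2.2.2.2.1, ?_⟩
    rw [mem_range]
    omega)
  rwa [Finset.card_image_of_injective] at h3
  rintro ⟨d, a, b⟩ ⟨d', a', b'⟩ h
  simp only [Prod.mk.injEq] at h
  obtain ⟨rfl, rfl, rfl⟩ := h
  rfl

open Classical in
/-- the theorem for sets with a bounded representation function -/
theorem bounded (c ε : ℝ) (m M K : ℕ) (hc : 0 < c) (hε : 0 < ε) : ∃ δ : ℝ, 0 < δ ∧
    ∀ (A : Set ℕ) (B : Fin m → Set ℕ), Grow A c → A ⊆ ⋃ i, B i → (∀ i n, rep (B i) n ≤ K) →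
    ∀ᶠ N : ℕ in atTop, ∃ i,
      δ * N ≤ (((range N).filter
        (Popular (B i) M N (ε * N))).card : ℝ) ∧
      δ * N ≤ (((range N).filter (Close (B i) (ε * N))).card : ℝ) := by
  obtain ⟨δ, hδ, h⟩ := general c ε m M hc hε
  refine ⟨min (δ ^ 2 / (2 * (K + 1) ^ 2)) (δ / (K + 1) ^ 2), by positivity, ?_⟩
  intro A B hA hcov hK
  filter_upwards [h A B hA hcov, eventually_gt_atTop 0] with N hN hN0
  obtain ⟨i, h1, h2⟩ := hN
  have hN0' : (0 : ℝ) < N := by exact_mod_cast hN0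
  refine ⟨i, ?_, ?_⟩
  · refine (mul_le_mul_of_nonneg_right (min_le_left _ _) (Nat.cast_nonneg _)).trans ?_
    set F := (range N).filter (Popular (B i) M N (ε * N)) with hF
    have h3 : (δ * N) ^ 2 ≤ (∑ d ∈ F, (diff (B i) N d : ℝ)) ^ 2 :=
      pow_le_pow_left₀ (by positivity) h1 2
    have h4 : (∑ d ∈ F, (diff (B i) N d : ℝ)) ^ 2 ≤ F.card * ∑ d ∈ F, (diff (B i) N d : ℝ) ^ 2 :=
      sq_sum_le_card_mul_sum_sq
    have h5 : ∑ d ∈ F, (diff (B i) N d : ℝ) ^ 2 ≤ 2 * N * (K + 1) ^ 2 := by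
      have h6 : ∑ d ∈ F, diff (B i) N d ^ 2 ≤ ∑ n ∈ range (2 * N), rep (B i) n ^ 2 :=
        (Finset.sum_le_sum_of_subset (Finset.filter_subset _ _)).trans (sum_diff_sq (B i) N)
      have h7 : ∑ n ∈ range (2 * N), rep (B i) n ^ 2 ≤ ∑ n ∈ range (2 * N), (K + 1) ^ 2 :=
        Finset.sum_le_sum fun n _ => Nat.pow_le_pow_left ((hK i n).trans (Nat.le_succ _)) 2
      rw [Finset.sum_const, card_range, smul_eq_mul] at h7
      exact_mod_cast h6.trans h7
    have h8 : (δ * N) ^ 2 ≤ F.card * (2 * N * (K + 1) ^ 2) :=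
      (h3.trans h4).trans (mul_le_mul_of_nonneg_left h5 (Nat.cast_nonneg _))
    rw [div_mul_eq_mul_div, div_le_iff₀ (by positivity)]
    have h9 : N * (δ ^ 2 * N) ≤ (N : ℝ) * ((F.card : ℝ) * (2 * (K + 1) ^ 2)) := by nlinarith
    exact le_of_mul_le_mul_left h9 hN0'
  · refine (mul_le_mul_of_nonneg_right (min_le_right _ _) (Nat.cast_nonneg _)).trans ?_
    rw [div_mul_eq_mul_div, div_le_iff₀ (by positivity)]
    refine h2.trans ?_
    calc ∑ n ∈ (range N).filter (Close (B i) (ε * N)), (rep (B i) n : ℝ) ^ 2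
        ≤ ∑ n ∈ (range N).filter (Close (B i) (ε * N)), ((K : ℝ) + 1) ^ 2 := by
          refine Finset.sum_le_sum fun n _ => pow_le_pow_left₀ (Nat.cast_nonneg _) ?_ 2
          have : (rep (B i) n : ℝ) ≤ K := by exact_mod_cast hK i n
          linarith
      _ = _ := by rw [Finset.sum_const, nsmul_eq_mul]

lemma cnt_eq_count (A : Set ℕ) [DecidablePred (· ∈ A)] (x : ℕ) : cnt A x = Nat.count (· ∈ A) x := by
  unfold cnt
  rw [Nat.count_eq_card_filter_range, ← Set.ncard_coe_finset]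
  congr 1
  ext a
  simp only [Set.mem_inter_iff, Set.mem_Iio, coe_filter, mem_range, Set.mem_ofPred_eq]
  tauto

lemma cnt_mono (A : Set ℕ) {x y : ℕ} (h : x ≤ y) : cnt A x ≤ cnt A y := by
  unfold cnt
  apply Set.ncard_le_ncard
  · intro a ha
    exact ⟨ha.1, lt_of_lt_of_le ha.2 h⟩
  · exact (Set.finite_Iio y).subset Set.inter_subset_right

/-- growth of bases -/
lemma grow_basis {A : Set ℕ} (h : ∀ᶠ n : ℕ in atTop, 1 ≤ rep A n) : Grow A (1 / 2) := by
  classical
  obtain ⟨n₀, hn₀⟩ := eventually_atTop.1 h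
  filter_upwards [eventually_ge_atTop (2 * n₀)] with x hx
  have h1 : (Ico n₀ x).card ≤ ((tr A x) ×ˢ (tr A x)).card := by
    apply Finset.card_le_card_of_surjOn (fun p => p.1 + p.2)
    intro n hn
    simp only [coe_Ico, Set.mem_Ico] at hn
    have h2 := hn₀ n hn.1
    unfold rep at h2
    obtain ⟨p, hp⟩ := Set.nonempty_of_ncard_ne_zero (by omega : {p : ℕ × ℕ | p.1 ∈ A ∧ p.2 ∈ A ∧ p.1 + p.2 = n}.ncard ≠ 0)
    simp only [Set.mem_ofPred_eq] at hp
    refine ⟨p, ?_, hp.2.2⟩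
    simp only [coe_product, Set.mem_prod, mem_coe, mem_tr]
    exact ⟨⟨by omega, hp.1⟩, by omega, hp.2.1⟩
  rw [Finset.card_product, card_tr, Nat.card_Ico] at h1
  have h2 : ((x - n₀ : ℕ) : ℝ) ≤ (cnt A x : ℝ) ^ 2 := by
    rw [sq]; exact_mod_cast h1
  have h3 : ((x - n₀ : ℕ) : ℝ) = x - n₀ := by
    push_cast [Nat.cast_sub (by omega : n₀ ≤ x)]; ring
  have h4 : (2 : ℝ) * n₀ ≤ x := by exact_mod_cast hx
  linarith

/-- growth of sets with `a_n ≤ C n²` -/
lemma grow_quad {A : Set ℕ} {C : ℝ} (hA : A.Infinite)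
    (h : ∀ n : ℕ, 1 ≤ n → (Nat.nth (· ∈ A) (n - 1) : ℝ) ≤ C * (n : ℝ) ^ 2) :
    ∃ c : ℝ, 0 < c ∧ c = 1 / (4 * (|C| + 1)) ∧ Grow A c := by
  classical
  refine ⟨_, by positivity, rfl, ?_⟩
  obtain ⟨a₀, ha₀⟩ := hA.nonempty
  filter_upwards [eventually_ge_atTop (a₀ + 1)] with x hx
  have h1 : x ≤ Nat.nth (· ∈ A) (Nat.count (· ∈ A) x) :=
    Nat.le_nth_count (p := (· ∈ A)) hA x
  have h2 := h (Nat.count (· ∈ A) x + 1) (by omega)
  rw [Nat.add_sub_cancel, ← cnt_eq_count] at h2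
  rw [← cnt_eq_count] at h1
  have h3 : (1 : ℕ) ≤ cnt A x := by
    unfold cnt
    exact (Set.ncard_pos ((Set.finite_Iio x).subset Set.inter_subset_right)).2
      ⟨a₀, ha₀, by simp only [Set.mem_Iio]; omega⟩
  have h4 : (x : ℝ) ≤ C * ((cnt A x : ℝ) + 1) ^ 2 := by
    have : (x : ℝ) ≤ (Nat.nth (· ∈ A) (cnt A x) : ℝ) := by exact_mod_cast h1
    push_cast at h2
    linarith
  have h5 : (1 : ℝ) ≤ cnt A x := by exact_mod_cast h3
  have h6 : C * ((cnt A x : ℝ) + 1) ^ 2 ≤ (|C| + 1) * (4 * (cnt A x : ℝ) ^ 2) := by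
    apply mul_le_mul _ _ (by positivity) (by positivity)
    · linarith [le_abs_self C]
    · nlinarith
  rw [one_div, inv_mul_le_iff₀ (by positivity)]
  calc (x : ℝ) ≤ _ := h4
    _ ≤ _ := h6
    _ = _ := by ring

lemma rep_mono {A B : Set ℕ} (h : B ⊆ A) (n : ℕ) : rep B n ≤ rep A n := by
  unfold rep
  apply Set.ncard_le_ncard
  · rintro p ⟨h1, h2, h3⟩
    exact ⟨h h1, h h2, h3⟩
  · exact rep_finite A n

/-- two different representations give at least four ordered ones, or `n` is twice an element -/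
lemma rep_of_close {A : Set ℕ} {y : ℝ} {n : ℕ} (h : Close A y n) :
    4 ≤ rep A n ∨ ∃ a ∈ A, 2 * a = n := by
  classical
  obtain ⟨a, ha, b, hb, a', ha', b', hb', h1, h2, h3, _, h5⟩ := h
  by_cases hab : a = b
  · right; exact ⟨a, ha, by omega⟩
  · by_cases hab' : a' = b'
    · right; exact ⟨a', ha', by omega⟩
    · left
      have h6 : (({(a, b), (b, a), (a', b'), (b', a')} : Finset (ℕ × ℕ)) : Set (ℕ × ℕ)) ⊆
          {p : ℕ × ℕ | p.1 ∈ A ∧ p.2 ∈ A ∧ p.1 + p.2 = n} := by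
        intro p hp
        simp only [coe_insert, coe_singleton, Set.mem_insert_iff, Set.mem_singleton_iff] at hp
        simp only [Set.mem_ofPred_eq]
        rcases hp with rfl | rfl | rfl | rfl
        · exact ⟨ha, hb, h1⟩
        · exact ⟨hb, ha, by omega⟩
        · exact ⟨ha', hb', h2⟩
        · exact ⟨hb', ha', by omega⟩
      have h7 := Set.ncard_le_ncard h6 (rep_finite A n)
      rw [Set.ncard_coe_finset] at h7
      have h8 : ({(a, b), (b, a), (a', b'), (b', a')} : Finset (ℕ × ℕ)).card = 4 := by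
        rw [Finset.card_insert_of_notMem, Finset.card_insert_of_notMem, Finset.card_pair]
        · simp only [ne_eq, Prod.mk.injEq]; omega
        · simp only [mem_insert, mem_singleton, Prod.mk.injEq]; omega
        · simp only [mem_insert, mem_singleton, Prod.mk.injEq]; omega
      unfold rep
      omega

/-- few elements if the representation function is bounded -/
lemma cnt_sq_le {A : Set ℕ} {K : ℕ} (hK : ∀ n, rep A n ≤ K) (N : ℕ) :
    (cnt A N) ^ 2 ≤ K * (2 * N) := by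
  classical
  have h2 : ((tr A N) ×ˢ (tr A N)).card ≤ ((range (2 * N)).sigma
      (fun n => (rep_finite A n).toFinset)).card := by
    apply Finset.card_le_card_of_injOn (fun p => (⟨p.1 + p.2, p⟩ : (_ : ℕ) × ℕ × ℕ))
    · intro p hp
      simp only [coe_product, Set.mem_prod, mem_coe, mem_tr] at hp
      simp only [coe_sigma, Set.mem_sigma_iff, mem_coe, mem_range, Set.Finite.mem_toFinset,
        Set.mem_ofPred_eq]
      exact ⟨by omega, hp.1.2, hp.2.2, trivial⟩
    · intro p _ q _ h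
      simp only [Sigma.mk.injEq, heq_eq_eq] at h
      exact h.2
  rw [Finset.card_product, card_tr, Finset.card_sigma] at h2
  calc (cnt A N) ^ 2 = cnt A N * cnt A N := sq _
    _ ≤ _ := h2
    _ ≤ ∑ n ∈ range (2 * N), K := by
        refine Finset.sum_le_sum fun n _ => ?_
        rw [← Set.ncard_eq_toFinset_card _ (rep_finite A n)]
        exact hK n
    _ = K * (2 * N) := by rw [Finset.sum_const, card_range, smul_eq_mul, mul_comm]

/-- the hypotheses of the two questions -/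
def Hyp (A : Set ℕ) : Prop := (∀ᶠ n : ℕ in atTop, 1 ≤ rep A n) ∨
  (A.Infinite ∧ ∃ C : ℝ, ∀ n : ℕ, 1 ≤ n → (Nat.nth (· ∈ A) (n - 1) : ℝ) ≤ C * (n : ℝ) ^ 2)

lemma grow_of_hyp {A : Set ℕ} (h : Hyp A) : ∃ c : ℝ, 0 < c ∧ Grow A c := by
  rcases h with h | ⟨h1, C, h2⟩
  · exact ⟨1 / 2, by norm_num, grow_basis h⟩
  · obtain ⟨c, hc, _, h⟩ := grow_quad h1 h2
    exact ⟨c, hc, h⟩

open Classical in
/-- Erdős–Turán for finite unions -/
theorem unbounded {m : ℕ} {A : Set ℕ} {B : Fin m → Set ℕ} (hA : Hyp A) (hAB : A = ⋃ i, B i)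
    (h : (∃ (M : ℕ) (ε : ℝ), 0 < ε ∧ ∀ η : ℝ, 0 < η → ∃ᶠ N : ℕ in atTop, ∀ i,
        (((range N).filter (Popular (B i) M N (ε * N))).card : ℝ) ≤ η * N) ∨
      (∃ ε : ℝ, 0 < ε ∧ ∀ η : ℝ, 0 < η → ∃ᶠ N : ℕ in atTop, ∀ i,
        (((range N).filter (Close (B i) (ε * N))).card : ℝ) ≤ η * N) ∨
      (∀ η : ℝ, 0 < η → ∃ᶠ N : ℕ in atTop, ∀ i,
        (((range N).filter (fun n => 4 ≤ rep (B i) n)).card : ℝ) ≤ η * N)) :
    ∀ K : ℕ, ∃ n, K < rep A n := by
  by_contra hcon
  push Not at hcon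
  obtain ⟨K, hK⟩ := hcon
  have hKi : ∀ i n, rep (B i) n ≤ K := fun i n =>
    (rep_mono (by rw [hAB]; exact Set.subset_iUnion B i) n).trans (hK n)
  obtain ⟨c, hc, hg⟩ := grow_of_hyp hA
  rcases h with ⟨M, ε, hε, h⟩ | ⟨ε, hε, h⟩ | h
  · obtain ⟨δ, hδ, h1⟩ := bounded c ε m M K hc hε
    obtain ⟨N, h2, ⟨i, h3, _⟩, h4⟩ := ((h (δ / 2) (by positivity)).and_eventually
      ((h1 A B hg hAB.le hKi).and (eventually_gt_atTop 0))).exists
    have h5 := h2 i
    have h6 : (0 : ℝ) < N := by exact_mod_cast h4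
    nlinarith
  · obtain ⟨δ, hδ, h1⟩ := bounded c ε m 0 K hc hε
    obtain ⟨N, h2, ⟨i, _, h3⟩, h4⟩ := ((h (δ / 2) (by positivity)).and_eventually
      ((h1 A B hg hAB.le hKi).and (eventually_gt_atTop 0))).exists
    have h5 := h2 i
    have h6 : (0 : ℝ) < N := by exact_mod_cast h4
    nlinarith
  · obtain ⟨δ, hδ, h1⟩ := bounded c 1 m 0 K hc one_pos
    have hbig : ∀ᶠ N : ℕ in atTop, (cnt A N : ℝ) ≤ δ / 4 * N := by
      obtain ⟨X, hX⟩ := exists_nat_gt (2 * K * 16 / δ ^ 2)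
      filter_upwards [eventually_gt_atTop X] with N hN
      have h2 : ((cnt A N : ℝ)) ^ 2 ≤ K * (2 * N) := by exact_mod_cast cnt_sq_le hK N
      have h3 : (X : ℝ) < N := by exact_mod_cast hN
      have h4 : 2 * K * 16 / δ ^ 2 < N := hX.trans h3
      rw [div_lt_iff₀ (by positivity)] at h4
      have h5 : (K : ℝ) * (2 * N) ≤ (δ / 4 * N) ^ 2 := by
        have h6 : (0 : ℝ) ≤ N := Nat.cast_nonneg _
        nlinarith
      exact le_of_sq_le_sq (h2.trans h5) (by positivity)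
    obtain ⟨N, h2, ⟨i, _, h3⟩, h4, h4'⟩ := ((h (δ / 4) (by positivity)).and_eventually
      ((h1 A B hg hAB.le hKi).and ((eventually_gt_atTop 0).and hbig))).exists
    have h5 := h2 i
    have h6 : (0 : ℝ) < N := by exact_mod_cast h4
    have h7 : ((range N).filter (Close (B i) (1 * N))).card ≤
        ((range N).filter (fun n => 4 ≤ rep (B i) n)).card + cnt A N := by
      rw [← card_tr]
      have h8 : (range N).filter (Close (B i) (1 * N)) ⊆
          ((range N).filter (fun n => 4 ≤ rep (B i) n)) ∪ (tr A N).image (fun a => 2 * a) := by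
        intro n hn
        simp only [mem_filter, mem_range, mem_union, mem_image] at hn ⊢
        rcases rep_of_close hn.2 with h9 | ⟨a, h9, h10⟩
        · left; exact ⟨hn.1, h9⟩
        · right
          refine ⟨a, mem_tr.2 ⟨by omega, ?_⟩, h10⟩
          rw [hAB]
          exact Set.mem_iUnion.2 ⟨i, h9⟩
      refine (Finset.card_le_card h8).trans ((Finset.card_union_le _ _).trans ?_)
      exact Nat.add_le_add_left Finset.card_image_le _
    have h8 : (((range N).filter (Close (B i) (1 * N))).card : ℝ) ≤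
        (((range N).filter (fun n => 4 ≤ rep (B i) n)).card : ℝ) + cnt A N := by exact_mod_cast h7
    nlinarith

/-- coverings by sets with a bounded number of representations of differences -/
theorem covering (c : ℝ) (hc : 0 < c) : ∃ c' : ℝ, 0 < c' ∧ ∀ A : Set ℕ, Grow A c →
    ∀ᶠ N : ℕ in atTop, ∀ (m g : ℕ) (B : Fin m → Set ℕ), 1 ≤ g → A ∩ Set.Iio N ⊆ ⋃ i, B i →
      (∀ i d, 0 < d → diff (B i) N d ≤ g) → c' * Real.log N ≤ g * (m : ℝ) ^ 2 := by
  classical
  refine ⟨c / 256, by positivity, ?_⟩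
  intro A hA
  obtain ⟨x₀, hx₀⟩ := eventually_atTop.1 hA
  filter_upwards [eventually_ge_atTop (x₀ ^ 2 + 256)] with N hN m g B hg hcov hdiff
  have hN256 : 256 ≤ N := by have := Nat.zero_le (x₀ ^ 2); omega
  set s : ℕ := Nat.sqrt N + 1 with hs
  set D : ℕ := 2 * s with hD
  set L : ℕ := N / D with hL
  have hs1 : 1 ≤ Nat.sqrt N := Nat.le_sqrt.2 (by omega)
  have hD0 : 0 < D := by omega
  have hsN : N < s * s := Nat.lt_succ_sqrt N
  have hx₀s : x₀ ≤ s := by
    have : x₀ ≤ Nat.sqrt N := Nat.le_sqrt'.2 (by omega)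
    omega
  have hsq : Nat.sqrt N * Nat.sqrt N ≤ N := Nat.sqrt_le N
  have hDsq : D * D ≤ 16 * N := by
    have : s ≤ 2 * Nat.sqrt N := by omega
    have h2 : s * s ≤ (2 * Nat.sqrt N) * (2 * Nat.sqrt N) := Nat.mul_le_mul this this
    have h3 : D * D = 4 * (s * s) := by rw [hD]; ring
    have h4 : (2 * Nat.sqrt N) * (2 * Nat.sqrt N) = 4 * (Nat.sqrt N * Nat.sqrt N) := by ring
    omega
  set T : Fin m → Finset ℕ := fun i => tr (B i) N with hT
  have hpr : ∀ i, pr (T i) D ≤ g * D := by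
    intro i
    unfold pr
    calc ∑ d ∈ Ico 1 D, dl (T i) d ≤ ∑ d ∈ Ico 1 D, g := by
          refine Finset.sum_le_sum fun d hd => ?_
          exact (dl_le_diff (B i) N N d le_rfl).trans (hdiff i d (by
            have := (mem_Ico.1 hd).1; omega))
      _ = (D - 1) * g := by rw [Finset.sum_const, Nat.card_Ico, smul_eq_mul]
      _ ≤ D * g := Nat.mul_le_mul_right _ (by omega)
      _ = g * D := mul_comm _ _
  have hcard : ∀ i, (T i).card ≤ 2 * g * D := by
    intro i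
    have h1 := lower_dense (m := 1) (fun _ => T i) D s hD0 (by
      intro _ a ha
      have h2 := (mem_tr.1 ha).1
      have h3 : s * s ≤ s * D := Nat.mul_le_mul_left _ (by omega)
      omega)
    simp only [tot, P, Finset.univ_unique, Finset.sum_singleton, one_mul] at h1
    by_contra hcon
    push Not at hcon
    have h2 : s * ((T i).card + 2 * pr (T i) D) ≤ s * (2 * (T i).card) := by
      refine Nat.mul_le_mul_left _ ?_
      have h3 := hpr i
      have h4 : 2 * g * D = 2 * (g * D) := by ring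
      omega
    have h3 : (T i).card * (T i).card ≤ D * (T i).card := by
      calc (T i).card * (T i).card = (T i).card ^ 2 := by ring
        _ ≤ _ := h1
        _ ≤ _ := h2
        _ = D * (T i).card := by rw [hD]; ring
    have h4 : (T i).card ≤ D := Nat.le_of_mul_le_mul_right h3 (by omega)
    have h5 : D ≤ 2 * g * D := Nat.le_mul_of_pos_left D (by omega)
    omega
  have h1 := lower_scales T (tr A N) (by
      intro a ha
      rw [mem_tr] at ha
      obtain ⟨i, hi⟩ := Set.mem_iUnion.1 (hcov ⟨ha.2, ha.1⟩)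
      exact ⟨i, by rw [hT]; exact mem_tr.2 ⟨ha.1, hi⟩⟩) D L hD0 (Real.sqrt (c * D))
      (Real.sqrt_nonneg _) (by
      intro j hj
      have h2 : (tr A N).filter (fun a => a < (j + 1) * D) = tr A ((j + 1) * D) := by
        ext a
        simp only [mem_filter, mem_tr]
        have h3 : (j + 1) * D ≤ L * D := Nat.mul_le_mul_right D (by omega)
        have h4 : L * D ≤ N := Nat.div_mul_le_self N D
        constructor
        · rintro ⟨⟨_, h5⟩, h6⟩; exact ⟨h6, h5⟩
        · rintro ⟨h5, h6⟩; exact ⟨⟨by omega, h6⟩, h5⟩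
      rw [h2, card_tr]
      have h4 := hx₀ ((j + 1) * D) (by
        have : D ≤ (j + 1) * D := Nat.le_mul_of_pos_left D (by omega)
        omega)
      rw [← Real.sqrt_mul (by positivity)]
      refine (Real.sqrt_le_sqrt ?_).trans (le_of_eq (Real.sqrt_sq (Nat.cast_nonneg _)))
      refine le_trans (le_of_eq ?_) h4
      push_cast
      ring)
  rw [Real.sq_sqrt (by positivity)] at h1
  have h2 : tot T ≤ m * (2 * g * D) := by
    unfold tot
    calc ∑ i, (T i).card ≤ ∑ _i : Fin m, 2 * g * D := Finset.sum_le_sum fun i _ => hcard i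
      _ = _ := by simp
  have h3 : P T D ≤ m * (g * D) := by
    unfold P
    calc ∑ i, pr (T i) D ≤ ∑ _i : Fin m, g * D := Finset.sum_le_sum fun i _ => hpr i
      _ = _ := by simp
  have h4 : m * (tot T + 2 * P T D) ≤ 4 * g * m ^ 2 * D := by
    calc m * (tot T + 2 * P T D) ≤ m * (m * (2 * g * D) + 2 * (m * (g * D))) :=
          Nat.mul_le_mul_left _ (by omega)
      _ = 4 * g * m ^ 2 * D := by ring
  have h5 : c * D / 16 * H L ≤ 4 * g * (m : ℝ) ^ 2 * D := by
    refine h1.trans ?_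
    exact_mod_cast h4
  have hD' : (0 : ℝ) < D := by exact_mod_cast hD0
  have h6 : c / 64 * H L ≤ g * (m : ℝ) ^ 2 := by
    have : (c / 64 * H L) * D ≤ (g * (m : ℝ) ^ 2) * D := by nlinarith
    exact le_of_mul_le_mul_right this hD'
  have h7 := log_le_H L
  have h8 : N < (L + 1) ^ 4 := by
    have h9 : N < (L + 1) * D := by
      rw [hL, mul_comm]; exact Nat.lt_mul_div_succ N hD0
    have h10 : N * N < (16 * (L + 1) ^ 2) * N := by
      calc N * N < ((L + 1) * D) * ((L + 1) * D) := Nat.mul_lt_mul'' h9 h9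
        _ = (L + 1) ^ 2 * (D * D) := by ring
        _ ≤ (L + 1) ^ 2 * (16 * N) := Nat.mul_le_mul_left _ hDsq
        _ = _ := by ring
    have h11 : N < 16 * (L + 1) ^ 2 := Nat.lt_of_mul_lt_mul_right h10
    have h12 : 256 * N < 256 * (L + 1) ^ 4 := by
      calc 256 * N ≤ N * N := Nat.mul_le_mul_right _ hN256
        _ < (16 * (L + 1) ^ 2) * (16 * (L + 1) ^ 2) := Nat.mul_lt_mul'' h11 h11
        _ = _ := by ring
    omega
  have h9 : Real.log N ≤ 4 * Real.log ((L : ℝ) + 1) := by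
    have h10 : (N : ℝ) ≤ ((L : ℝ) + 1) ^ 4 := by exact_mod_cast h8.le
    calc Real.log N ≤ Real.log (((L : ℝ) + 1) ^ 4) :=
          Real.log_le_log (by exact_mod_cast (by omega : 0 < N)) h10
      _ = _ := by rw [Real.log_pow]; norm_num
  have h10 : c / 256 * Real.log N ≤ c / 64 * H L := by
    calc c / 256 * Real.log N ≤ c / 256 * (4 * Real.log ((L : ℝ) + 1)) :=
          mul_le_mul_of_nonneg_left h9 (by positivity)
      _ = c / 64 * Real.log ((L : ℝ) + 1) := by ring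
      _ ≤ _ := mul_le_mul_of_nonneg_left h7 (by positivity)
  exact h10.trans h6

end Pool.Agent.V8H23.CloseET
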