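import Mathlib

/-!
# P-recursive integer sequences of polynomial growth

`quasi_poly`: a P-recursive sequence of integers with polynomial growth is, from some index on, given
by polynomials on the residue classes of some modulus.
-/

set_option autoImplicit false

namespace Pool.Agent.V8H23.Holo

open Finset Polynomial

/-- the shift -/
def sh (R : Type) [CommRing R] : Module.End R (ℕ → R) where
  toFun u := fun n => u (n + 1)
  map_add' _ _ := rfl
  map_smul' _ _ := rfl

/-- a polynomial in the shift -/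
noncomputable def act {R : Type} [CommRing R] (l : R[X]) (u : ℕ → R) : ℕ → R :=
  aeval (sh R) l u

lemma sh_pow {R : Type} [CommRing R] (u : ℕ → R) (i n : ℕ) : ((sh R) ^ i) u n = u (n + i) := by
  induction i generalizing n with
  | zero => simp
  | succ i ih =>
    rw [pow_succ', Module.End.mul_apply]
    show ((sh R) ^ i) u (n + 1) = _
    rw [ih]
    congr 1
    omega

lemma act_apply {R : Type} [CommRing R] (l : R[X]) (u : ℕ → R) {d : ℕ} (hd : l.natDegree ≤ d)
    (n : ℕ) : act l u n = ∑ i ∈ range (d + 1), l.coeff i * u (n + i) := by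
  rw [act, aeval_eq_sum_range' (Nat.lt_succ_of_le hd)]
  rw [LinearMap.sum_apply, Finset.sum_apply]
  refine Finset.sum_congr rfl fun i _ => ?_
  rw [LinearMap.smul_apply, Pi.smul_apply, sh_pow, smul_eq_mul]

lemma act_mul {R : Type} [CommRing R] (l m : R[X]) (u : ℕ → R) :
    act (l * m) u = act l (act m u) := by
  simp [act, map_mul, Module.End.mul_apply]

lemma act_add {R : Type} [CommRing R] (l m : R[X]) (u : ℕ → R) :
    act (l + m) u = act l u + act m u := by
  simp [act, map_add]

lemma act_zero {R : Type} [CommRing R] (l : R[X]) : act l (0 : ℕ → R) = 0 := by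
  simp [act]

/-- vanishing from some index on -/
def EZ {R : Type} [CommRing R] (u : ℕ → R) : Prop := ∃ N, ∀ n, N ≤ n → u n = 0

lemma act_ez {R : Type} [CommRing R] (l : R[X]) {u : ℕ → R} (hu : EZ u) : EZ (act l u) := by
  obtain ⟨N, hN⟩ := hu
  refine ⟨N, fun n hn => ?_⟩
  rw [act_apply l u le_rfl]
  exact Finset.sum_eq_zero fun i _ => by rw [hN _ (by omega), mul_zero]

/-- P-recursive sequences of integers -/
def PRec (u : ℕ → ℤ) : Prop :=
  ∃ (d N : ℕ) (P : ℕ → ℤ[X]), (∃ i ≤ d, P i ≠ 0) ∧
    ∀ n, N ≤ n → ∑ i ∈ range (d + 1), (P i).eval (n : ℤ) * u (n + i) = 0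

/-- the last coefficient may be taken to be nonzero -/
lemma PRec.last {u : ℕ → ℤ} (h : PRec u) : ∃ (d N : ℕ) (P : ℕ → ℤ[X]), P d ≠ 0 ∧
    ∀ n, N ≤ n → ∑ i ∈ range (d + 1), (P i).eval (n : ℤ) * u (n + i) = 0 := by
  classical
  obtain ⟨d, N, P, ⟨i, hi, hPi⟩, h⟩ := h
  set e := Nat.findGreatest (fun j => P j ≠ 0) d with he
  have h1 : P e ≠ 0 := Nat.findGreatest_spec (P := fun j => P j ≠ 0) hi hPi
  have h2 : e ≤ d := Nat.findGreatest_le d
  refine ⟨e, N, P, h1, fun n hn => ?_⟩
  rw [← h n hn]
  apply Finset.sum_subset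
  · intro j hj
    rw [Finset.mem_range] at hj ⊢
    omega
  · intro j hj1 hj2
    rw [Finset.mem_range] at hj1 hj2
    have h3 : P j = 0 := by
      by_contra hne
      exact Nat.findGreatest_is_greatest (P := fun j => P j ≠ 0) (by omega : e < j)
        (by omega : j ≤ d) hne
    rw [h3, eval_zero, zero_mul]

/-- common denominators -/
lemma common_denominator {u : ℕ → ℤ} {d N : ℕ} {P : ℕ → ℤ[X]} (hd : P d ≠ 0)
    (h : ∀ n, N ≤ n → ∑ i ∈ range (d + 1), (P i).eval (n : ℤ) * u (n + i) = 0) (M : ℕ) :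
    ∃ (Q : ℤ[X]) (A : ℕ → ℕ → ℤ[X]), Q ≠ 0 ∧ ∀ m < M, ∀ n, N ≤ n →
      Q.eval (n : ℤ) * u (n + m) = ∑ j ∈ range d, (A m j).eval (n : ℤ) * u (n + j) := by
  classical
  induction M with
  | zero => exact ⟨1, fun _ _ => 0, one_ne_zero, fun m hm => absurd hm (Nat.not_lt_zero m)⟩
  | succ M ih =>
    obtain ⟨Q, A, hQ, hA⟩ := ih
    by_cases hM : M < d
    · refine ⟨Q, fun m j => if m = M then (if j = M then Q else 0) else A m j, hQ, ?_⟩
      intro m hm n hn
      by_cases hmM : m = M
      · subst hmM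
        simp only [if_true]
        rw [Finset.sum_eq_single m]
        · simp
        · intro j _ hj
          simp [hj]
        · intro hm2
          exact absurd (Finset.mem_range.2 hM) hm2
      · simp only [if_neg hmM]
        exact hA m (by omega) n hn
    · set e := M - d with he
      have hMe : M = e + d := by omega
      have hcomp : ∀ (i : ℕ) (n : ℕ), ((P i).comp (X + C (e : ℤ))).eval (n : ℤ) =
          (P i).eval ((n + e : ℕ) : ℤ) := by
        intro i n
        rw [eval_comp]
        simp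
      have hPd : (P d).comp (X + C (e : ℤ)) ≠ 0 := by
        intro h0
        rw [comp_eq_zero_iff] at h0
        rcases h0 with h0 | ⟨_, h0⟩
        · exact hd h0
        · have := congrArg (fun p : ℤ[X] => p.coeff 1) h0
          simp at this
      refine ⟨Q * (P d).comp (X + C (e : ℤ)), fun m j => if m = M then
        - ∑ i ∈ range d, (P i).comp (X + C (e : ℤ)) * A (e + i) j else
        A m j * (P d).comp (X + C (e : ℤ)), mul_ne_zero hQ hPd, ?_⟩
      intro m hm n hn
      by_cases hmM : m = M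
      · subst hmM
        simp only [if_true]
        have h1 := h (n + e) (by omega)
        rw [Finset.sum_range_succ] at h1
        have h2 : (P d).eval ((n + e : ℕ) : ℤ) * u (n + m) =
            - ∑ i ∈ range d, (P i).eval ((n + e : ℕ) : ℤ) * u (n + e + i) := by
          rw [hMe, ← add_assoc]
          linarith
        calc (Q * (P d).comp (X + C (e : ℤ))).eval (n : ℤ) * u (n + m)
            = Q.eval (n : ℤ) * ((P d).eval ((n + e : ℕ) : ℤ) * u (n + m)) := by
              rw [eval_mul, hcomp]; ring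
          _ = - ∑ i ∈ range d, (P i).eval ((n + e : ℕ) : ℤ) *
                (Q.eval (n : ℤ) * u (n + (e + i))) := by
              rw [h2, mul_neg, Finset.mul_sum]
              congr 1
              refine Finset.sum_congr rfl fun i _ => ?_
              rw [add_assoc n e i]; ring
          _ = - ∑ i ∈ range d, (P i).eval ((n + e : ℕ) : ℤ) *
                ∑ j ∈ range d, (A (e + i) j).eval (n : ℤ) * u (n + j) := by
              congr 1
              refine Finset.sum_congr rfl fun i hi => ?_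
              rw [Finset.mem_range] at hi
              rw [hA (e + i) (by omega) n hn]
          _ = _ := by
              rw [← Finset.sum_neg_distrib]
              simp only [eval_neg, eval_finsetSum, eval_mul, hcomp, Finset.mul_sum,
                Finset.sum_mul, neg_mul, Finset.sum_neg_distrib]
              rw [Finset.sum_comm]
              simp only [mul_assoc]
      · simp only [if_neg hmM]
        rw [eval_mul]
        have h1 := hA m (by omega) n hn
        calc Q.eval (n : ℤ) * ((P d).comp (X + C (e : ℤ))).eval (n : ℤ) * u (n + m)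
            = ((P d).comp (X + C (e : ℤ))).eval (n : ℤ) * (Q.eval (n : ℤ) * u (n + m)) := by ring
          _ = _ := by
              rw [h1, Finset.mul_sum]
              refine Finset.sum_congr rfl fun j _ => ?_
              rw [eval_mul]; ring

/-- the P-recursive sequences are stable under polynomials in the shift -/
lemma PRec.act {u : ℕ → ℤ} (hu : PRec u) (l : ℤ[X]) : PRec (act l u) := by
  classical
  obtain ⟨d, N, P, hd, h⟩ := hu.last
  set D := l.natDegree with hD
  obtain ⟨Q, A, hQ, hA⟩ := common_denominator hd h (d + D + 1)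
  -- a linear dependence between the rows
  let B : Matrix (Fin (d + 1)) (Fin (d + 1)) ℤ[X] := fun j t =>
    if (t : ℕ) < d then ∑ i ∈ range (D + 1), C (l.coeff i) * A (i + j) t else 0
  have hdet : B.det = 0 := by
    apply Matrix.det_eq_zero_of_column_eq_zero (Fin.last d)
    intro j
    simp [B]
  obtain ⟨r, hr0, hr⟩ := Matrix.exists_vecMul_eq_zero_iff.2 hdet
  obtain ⟨j₀, hj₀⟩ : ∃ j, r j ≠ 0 := by
    by_contra hcon
    push Not at hcon
    exact hr0 (funext hcon)
  refine ⟨d, N, fun j => if hj : j < d + 1 then r ⟨j, hj⟩ * Q else 0, ⟨j₀, by omega, ?_⟩, ?_⟩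
  · simp only [Fin.is_lt, dif_pos, Fin.eta]
    exact mul_ne_zero hj₀ hQ
  · intro n hn
    -- the values of the transformed sequence
    have h1 : ∀ j : Fin (d + 1), Q.eval (n : ℤ) * (Holo.act l u) (n + j) =
        ∑ t ∈ range d, (∑ i ∈ range (D + 1), C (l.coeff i) * A (i + j) t).eval (n : ℤ) *
          u (n + t) := by
      intro j
      rw [act_apply l u le_rfl, Finset.mul_sum]
      have h2 : ∀ i ∈ range (D + 1), Q.eval (n : ℤ) * (l.coeff i * u (n + j + i)) =
          ∑ t ∈ range d, l.coeff i * ((A (i + j) t).eval (n : ℤ) * u (n + t)) := by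
        intro i hi
        rw [Finset.mem_range] at hi
        have h3 := hA (i + j) (by omega) n hn
        rw [← Finset.mul_sum, ← h3]
        have h4 : n + (j : ℕ) + i = n + (i + j) := by omega
        rw [h4]; ring
      rw [Finset.sum_congr rfl h2, Finset.sum_comm]
      refine Finset.sum_congr rfl fun t _ => ?_
      rw [eval_finsetSum, Finset.sum_mul]
      refine Finset.sum_congr rfl fun i _ => ?_
      rw [eval_mul, eval_C]; ring
    have h2 : ∑ j : Fin (d + 1), (r j).eval (n : ℤ) *
        (Q.eval (n : ℤ) * (Holo.act l u) (n + j)) = 0 := by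
      simp only [h1]
      have h3 : ∀ t ∈ range d, ∑ j : Fin (d + 1), (r j).eval (n : ℤ) *
          (∑ i ∈ range (D + 1), C (l.coeff i) * A (i + j) t).eval (n : ℤ) = 0 := by
        intro t ht
        rw [Finset.mem_range] at ht
        have h4 := congrFun hr (⟨t, by omega⟩ : Fin (d + 1))
        rw [Matrix.vecMul, dotProduct] at h4
        have h5 := congrArg (fun p : ℤ[X] => p.eval (n : ℤ)) h4
        simp only [B, if_pos ht, eval_finsetSum, eval_mul, Pi.zero_apply, eval_zero] at h5 ⊢
        exact h5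
      calc ∑ j : Fin (d + 1), (r j).eval (n : ℤ) * ∑ t ∈ range d,
            (∑ i ∈ range (D + 1), C (l.coeff i) * A (i + j) t).eval (n : ℤ) * u (n + t)
          = ∑ t ∈ range d, (∑ j : Fin (d + 1), (r j).eval (n : ℤ) *
              (∑ i ∈ range (D + 1), C (l.coeff i) * A (i + j) t).eval (n : ℤ)) * u (n + t) := by
            simp only [Finset.mul_sum]
            rw [Finset.sum_comm]
            refine Finset.sum_congr rfl fun t _ => ?_
            rw [Finset.sum_mul]
            refine Finset.sum_congr rfl fun j _ => ?_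
            ring
        _ = 0 := Finset.sum_eq_zero fun t ht => by rw [h3 t ht, zero_mul]
    rw [Finset.sum_range]
    rw [← h2]
    refine Finset.sum_congr rfl fun j _ => ?_
    simp only [Fin.is_lt, dif_pos, Fin.eta, eval_mul]
    ring

/-- growth at most `n ^ k` -/
def Gr (k : ℕ) (u : ℕ → ℤ) : Prop := ∃ C : ℤ, ∀ n : ℕ, |u n| ≤ C * ((n : ℤ) + 1) ^ k

lemma Gr.act {k : ℕ} {u : ℕ → ℤ} (hu : Gr k u) (l : ℤ[X]) : Gr k (act l u) := by
  obtain ⟨C, hC⟩ := hu
  have hC0 : 0 ≤ C := by
    have := (abs_nonneg _).trans (hC 0)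
    simpa using this
  set D := l.natDegree with hD
  refine ⟨(∑ i ∈ range (D + 1), |l.coeff i|) * (C * ((D : ℤ) + 1) ^ k), fun n => ?_⟩
  rw [act_apply l u le_rfl]
  refine (Finset.abs_sum_le_sum_abs _ _).trans ?_
  rw [Finset.sum_mul, Finset.sum_mul]
  refine Finset.sum_le_sum fun i hi => ?_
  rw [Finset.mem_range] at hi
  rw [abs_mul]
  have h1 : ((n : ℤ) + i + 1) ≤ ((D : ℤ) + 1) * ((n : ℤ) + 1) := by
    have h2 : (i : ℤ) ≤ D := by exact_mod_cast (by omega : i ≤ D)
    have h3 : (0 : ℤ) ≤ D * n := by positivity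
    nlinarith
  have h2 : ((n : ℤ) + i + 1) ^ k ≤ (((D : ℤ) + 1) * ((n : ℤ) + 1)) ^ k :=
    pow_le_pow_left₀ (by positivity) h1 k
  calc |l.coeff i| * |u (n + i)| ≤ |l.coeff i| * (C * (((n + i : ℕ) : ℤ) + 1) ^ k) :=
        mul_le_mul_of_nonneg_left (hC _) (abs_nonneg _)
    _ = |l.coeff i| * (C * ((n : ℤ) + i + 1) ^ k) := by push_cast; ring
    _ ≤ |l.coeff i| * (C * (((D : ℤ) + 1) * ((n : ℤ) + 1)) ^ k) := by
        exact mul_le_mul_of_nonneg_left (mul_le_mul_of_nonneg_left h2 hC0) (abs_nonneg _)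
    _ = |l.coeff i| * (C * ((D : ℤ) + 1) ^ k) * ((n : ℤ) + 1) ^ k := by rw [mul_pow]; ring

/-- the relation between the leading coefficients -/
lemma leading {k : ℕ} {u : ℕ → ℤ} (hu : PRec u) (hg : Gr k u) :
    ∃ (l : ℤ[X]) (K : ℤ) (N : ℕ), l ≠ 0 ∧ 0 ≤ K ∧ 1 ≤ N ∧
      ∀ n : ℕ, N ≤ n → (n : ℤ) * |act l u n| ≤ K * ((n : ℤ) + 1) ^ k := by
  classical
  obtain ⟨d, N, P, ⟨i₀, hi₀, hP⟩, h⟩ := hu
  obtain ⟨C₀, hC⟩ := hg
  have hC0 : 0 ≤ C₀ := by
    have := (abs_nonneg _).trans (hC 0)
    simpa using this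
  -- the maximal degree is attained
  obtain ⟨i₁, hi₁, hmax⟩ := Finset.exists_max_image ((range (d + 1)).filter fun i => P i ≠ 0)
    (fun i => (P i).natDegree) ⟨i₀, Finset.mem_filter.2 ⟨Finset.mem_range.2 (by omega), hP⟩⟩
  rw [Finset.mem_filter, Finset.mem_range] at hi₁
  set D := (P i₁).natDegree with hD
  have hdeg : ∀ i ≤ d, (P i).natDegree ≤ D := by
    intro i hi
    by_cases h0 : P i = 0
    · rw [h0]; simp
    · exact hmax i (Finset.mem_filter.2 ⟨Finset.mem_range.2 (by omega), h0⟩)
  set l : ℤ[X] := ∑ i ∈ range (d + 1), C ((P i).coeff D) * X ^ i with hl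
  have hlc : ∀ i ≤ d, l.coeff i = (P i).coeff D := by
    intro i hi
    rw [hl, finsetSum_coeff]
    simp only [coeff_C_mul_X_pow]
    rw [Finset.sum_ite_eq (range (d + 1)) i, if_pos (Finset.mem_range.2 (by omega))]
  have hld : l.natDegree ≤ d := by
    rw [natDegree_le_iff_coeff_eq_zero]
    intro j hj
    rw [hl, finsetSum_coeff]
    refine Finset.sum_eq_zero fun i hi => ?_
    rw [Finset.mem_range] at hi
    rw [coeff_C_mul_X_pow, if_neg (by omega)]
  set K : ℤ := ∑ i ∈ range (d + 1), ∑ j ∈ range D, |(P i).coeff j| with hK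
  have hK0 : 0 ≤ K := Finset.sum_nonneg fun i _ => Finset.sum_nonneg fun j _ => abs_nonneg _
  refine ⟨l, K * (C₀ * ((d : ℤ) + 1) ^ k), N + 1, ?_, by positivity, by omega, ?_⟩
  · intro h0
    have h1 := hlc i₁ (by omega)
    rw [h0, coeff_zero] at h1
    exact hi₁.2 (leadingCoeff_eq_zero.1 h1.symm)
  · intro n hn
    have hn1 : (1 : ℤ) ≤ n := by exact_mod_cast (by omega : 1 ≤ n)
    have h1 : act l u n * (n : ℤ) ^ D =
        - ∑ i ∈ range (d + 1), ∑ j ∈ range D, (P i).coeff j * (n : ℤ) ^ j * u (n + i) := by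
      have h2 := h n (by omega)
      have h3 : ∀ i ∈ range (d + 1), (P i).eval (n : ℤ) * u (n + i) =
          ∑ j ∈ range D, (P i).coeff j * (n : ℤ) ^ j * u (n + i) +
            l.coeff i * u (n + i) * (n : ℤ) ^ D := by
        intro i hi
        rw [Finset.mem_range] at hi
        rw [eval_eq_sum_range' (Nat.lt_succ_of_le (hdeg i (by omega))), Finset.sum_range_succ,
          add_mul, Finset.sum_mul, hlc i (by omega)]
        ring
      rw [Finset.sum_congr rfl h3, Finset.sum_add_distrib, ← Finset.sum_mul] at h2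
      rw [act_apply l u hld]
      linarith
    set T : ℤ := C₀ * ((d : ℤ) + 1) ^ k * ((n : ℤ) + 1) ^ k with hT
    have hT0 : 0 ≤ T := by positivity
    have hus : ∀ i ∈ range (d + 1), |u (n + i)| ≤ T := by
      intro i hi
      rw [Finset.mem_range] at hi
      refine (hC (n + i)).trans ?_
      have h1 : ((n : ℤ) + i + 1) ≤ ((d : ℤ) + 1) * ((n : ℤ) + 1) := by
        have h2 : (i : ℤ) ≤ d := by exact_mod_cast (by omega : i ≤ d)
        have h3 : (0 : ℤ) ≤ d * n := by positivity
        nlinarith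
      have h2 : ((n : ℤ) + i + 1) ^ k ≤ (((d : ℤ) + 1) * ((n : ℤ) + 1)) ^ k :=
        pow_le_pow_left₀ (by positivity) h1 k
      calc C₀ * (((n + i : ℕ) : ℤ) + 1) ^ k = C₀ * ((n : ℤ) + i + 1) ^ k := by push_cast; ring
        _ ≤ C₀ * (((d : ℤ) + 1) * ((n : ℤ) + 1)) ^ k := mul_le_mul_of_nonneg_left h2 hC0
        _ = T := by rw [hT, mul_pow]; ring
    have h2 : (n : ℤ) * (|act l u n| * (n : ℤ) ^ D) ≤ (n : ℤ) ^ D * (K * T) := by
      have h3 : |act l u n| * (n : ℤ) ^ D = |act l u n * (n : ℤ) ^ D| := by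
        rw [abs_mul, abs_of_nonneg (by positivity : (0 : ℤ) ≤ (n : ℤ) ^ D)]
      rw [h3, h1, abs_neg]
      have h4 : |∑ i ∈ range (d + 1), ∑ j ∈ range D, (P i).coeff j * (n : ℤ) ^ j * u (n + i)| ≤
          ∑ i ∈ range (d + 1), ∑ j ∈ range D, |(P i).coeff j| * (n : ℤ) ^ j * T := by
        refine (Finset.abs_sum_le_sum_abs _ _).trans (Finset.sum_le_sum fun i hi => ?_)
        refine (Finset.abs_sum_le_sum_abs _ _).trans (Finset.sum_le_sum fun j hj => ?_)
        rw [abs_mul, abs_mul, abs_of_nonneg (by positivity : (0 : ℤ) ≤ (n : ℤ) ^ j)]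
        exact mul_le_mul_of_nonneg_left (hus i hi) (by positivity)
      calc (n : ℤ) * |∑ i ∈ range (d + 1), ∑ j ∈ range D,
            (P i).coeff j * (n : ℤ) ^ j * u (n + i)|
          ≤ (n : ℤ) * ∑ i ∈ range (d + 1), ∑ j ∈ range D, |(P i).coeff j| * (n : ℤ) ^ j * T :=
            mul_le_mul_of_nonneg_left h4 (by positivity)
        _ ≤ ∑ i ∈ range (d + 1), ∑ j ∈ range D, |(P i).coeff j| * (n : ℤ) ^ D * T := by
            rw [Finset.mul_sum]
            refine Finset.sum_le_sum fun i hi => ?_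
            rw [Finset.mul_sum]
            refine Finset.sum_le_sum fun j hj => ?_
            rw [Finset.mem_range] at hj
            have h6 : (n : ℤ) ^ (j + 1) ≤ (n : ℤ) ^ D := pow_le_pow_right₀ hn1 (by omega)
            calc (n : ℤ) * (|(P i).coeff j| * (n : ℤ) ^ j * T)
                = |(P i).coeff j| * (n : ℤ) ^ (j + 1) * T := by ring
              _ ≤ |(P i).coeff j| * (n : ℤ) ^ D * T :=
                mul_le_mul_of_nonneg_right (mul_le_mul_of_nonneg_left h6 (abs_nonneg _)) hT0
        _ = (n : ℤ) ^ D * (K * T) := by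
            rw [hK, Finset.sum_mul, Finset.mul_sum]
            refine Finset.sum_congr rfl fun i _ => ?_
            rw [Finset.sum_mul, Finset.mul_sum]
            refine Finset.sum_congr rfl fun j _ => ?_
            ring
    have hpos : (0 : ℤ) < (n : ℤ) ^ D := by positivity
    have h3 : (n : ℤ) ^ D * ((n : ℤ) * |act l u n|) ≤ (n : ℤ) ^ D * (K * T) := by
      calc (n : ℤ) ^ D * ((n : ℤ) * |act l u n|) = (n : ℤ) * (|act l u n| * (n : ℤ) ^ D) := by ring
        _ ≤ _ := h2
    have h4 := le_of_mul_le_mul_left h3 hpos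
    calc (n : ℤ) * |act l u n| ≤ K * T := h4
      _ = _ := by rw [hT]; ring

/-- a P-recursive sequence of integers with polynomial growth satisfies a recurrence with constant
coefficients -/
lemma constant (k : ℕ) : ∀ u : ℕ → ℤ, PRec u → Gr k u → ∃ l : ℤ[X], l ≠ 0 ∧ EZ (act l u) := by
  induction k with
  | zero =>
    intro u hu hg
    obtain ⟨l, K, N, hl, hK, hN, h⟩ := leading hu hg
    refine ⟨l, hl, N + K.toNat + 1, fun n hn => ?_⟩
    have h1 := h n (by omega)
    rw [pow_zero, mul_one] at h1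
    by_contra hne
    have h2 : 1 ≤ |act l u n| := Int.one_le_abs hne
    have h3 : (n : ℤ) ≤ K := by nlinarith [(by positivity : (0 : ℤ) ≤ n)]
    have h4 : (K.toNat : ℤ) = K := Int.toNat_of_nonneg hK
    omega
  | succ k ih =>
    intro u hu hg
    obtain ⟨l, K, N, hl, hK, hN, h⟩ := leading hu hg
    have h1 : Gr k (act l u) := by
      refine ⟨2 * K + ∑ n ∈ range N, |act l u n|, fun n => ?_⟩
      have hS : 0 ≤ ∑ n ∈ range N, |act l u n| := Finset.sum_nonneg fun _ _ => abs_nonneg _
      have hpow : (1 : ℤ) ≤ ((n : ℤ) + 1) ^ k := one_le_pow₀ (by omega)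
      rcases lt_or_ge n N with hn | hn
      · have h2 : |act l u n| ≤ ∑ n ∈ range N, |act l u n| :=
          Finset.single_le_sum (f := fun n => |act l u n|) (fun _ _ => abs_nonneg _)
            (Finset.mem_range.2 hn)
        nlinarith
      · have h2 := h n hn
        have hn1 : (1 : ℤ) ≤ n := by exact_mod_cast (by omega : 1 ≤ n)
        have h3 : (n : ℤ) * |act l u n| ≤ (n : ℤ) * (2 * K * ((n : ℤ) + 1) ^ k) := by
          refine h2.trans ?_
          have h4 : K * ((n : ℤ) + 1) ^ (k + 1) = K * ((n : ℤ) + 1) ^ k * ((n : ℤ) + 1) := by ring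
          rw [h4]
          have h5 : 0 ≤ K * ((n : ℤ) + 1) ^ k := by positivity
          nlinarith
        have h4 := le_of_mul_le_mul_left h3 (by omega)
        nlinarith
    obtain ⟨m, hm, hmu⟩ := ih (act l u) (hu.act l) h1
    refine ⟨m * l, mul_ne_zero hm hl, ?_⟩
    rw [act_mul]
    exact hmu

end Pool.Agent.V8H23.Holo
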