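import Mathlib
import Pool.Agent.V8H23.Holo

/-!
# Integer sequences with linear recurrences and polynomial growth

They are given by polynomials on the residue classes of some modulus.
-/

set_option autoImplicit false

namespace Pool.Agent.V8H23.Holo

open Finset Polynomial

lemma act_map {R S : Type} [CommRing R] [CommRing S] (φ : R →+* S) (l : R[X]) (u : ℕ → R) :
    act (l.map φ) (fun n => φ (u n)) = fun n => φ (act l u n) := by
  funext n
  rw [act_apply (l.map φ) _ (natDegree_map_le), act_apply l u le_rfl, map_sum]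
  refine Finset.sum_congr rfl fun i _ => ?_
  rw [coeff_map, map_mul]

lemma act_comm {R : Type} [CommRing R] (l m : R[X]) (u : ℕ → R) :
    act l (act m u) = act m (act l u) := by
  rw [← act_mul, mul_comm, act_mul]

/-- a solution of a recurrence which begins with zeros vanishes -/
lemma eq_zero_of_initial {R : Type} [CommRing R] [IsDomain R] {l : R[X]} (hl : l ≠ 0)
    {z : ℕ → R} (hz : act l z = 0) (h0 : ∀ j < l.natDegree, z j = 0) : z = 0 := by
  funext n
  induction n using Nat.strong_induction_on with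
  | _ n ih =>
    by_cases hn : n < l.natDegree
    · exact h0 n hn
    · have h1 := congrFun hz (n - l.natDegree)
      rw [act_apply l z le_rfl, Finset.sum_range_succ, Finset.sum_eq_zero, zero_add] at h1
      · have h2 : n - l.natDegree + l.natDegree = n := by omega
        rw [h2, Pi.zero_apply] at h1
        exact (mul_eq_zero.1 h1).resolve_left (by
          rw [coeff_natDegree]; exact leadingCoeff_ne_zero.2 hl)
      · intro i hi
        rw [Finset.mem_range] at hi
        rw [ih (n - l.natDegree + i) (by omega), Pi.zero_apply, mul_zero]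

/-- a sequence of integers with a linear recurrence satisfies a monic one -/
lemma exists_monic {U : ℕ → ℤ} {l : ℤ[X]} (hl : l ≠ 0) (h : act l U = 0) :
    ∃ q : ℤ[X], q.Monic ∧ act q U = 0 := by
  classical
  set d := l.natDegree with hd
  let v : ℕ → (Fin d → ℤ) := fun i j => U (j + i)
  let M : ℕ →o Submodule ℤ (Fin d → ℤ) :=
    { toFun := fun n => Submodule.span ℤ (Set.range fun i : Fin n => v i)
      monotone' := by
        intro a b hab
        apply Submodule.span_mono
        rintro _ ⟨i, rfl⟩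
        exact ⟨⟨i, by omega⟩, rfl⟩ }
  obtain ⟨n, hn⟩ := monotone_stabilizes_iff_noetherian.2
    (inferInstance : IsNoetherian ℤ (Fin d → ℤ)) M
  have h1 : v n ∈ M n := by
    rw [hn (n + 1) (by omega)]
    exact Submodule.subset_span ⟨⟨n, by omega⟩, rfl⟩
  obtain ⟨c, hc⟩ := (Submodule.mem_span_range_iff_exists_fun ℤ).1 h1
  set b : ℤ[X] := ∑ i : Fin n, C (c i) * X ^ (i : ℕ) with hb
  have hbdeg : b.degree < n := by
    rw [hb]
    exact degree_sum_fin_lt c
  refine ⟨X ^ n - b, monic_X_pow_sub hbdeg, ?_⟩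
  apply eq_zero_of_initial hl
  · rw [act_comm, h, act_zero]
  · intro j hj
    have h2 := congrFun hc ⟨j, hj⟩
    rw [Finset.sum_apply] at h2
    have h3 : act (X ^ n) U j = U (j + n) := by
      simp only [act, map_pow, aeval_X]
      exact sh_pow U n j
    have h4 : act b U j = ∑ i : Fin n, c i * U (j + i) := by
      rw [hb]
      simp only [act, map_sum, map_mul, aeval_C, map_pow, aeval_X]
      rw [LinearMap.sum_apply, Finset.sum_apply]
      refine Finset.sum_congr rfl fun i _ => ?_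
      rw [Module.End.mul_apply, Module.algebraMap_end_apply, Pi.smul_apply, sh_pow, smul_eq_mul]
    have h5 : act (X ^ n - b) U j = act (X ^ n) U j - act b U j := by
      simp [act, map_sub]
    rw [h5, h3, h4]
    simp only [v, Pi.smul_apply, smul_eq_mul] at h2
    rw [h2]; ring

/-- a nonzero complex polynomial in the shift which annihilates a rational sequence yields a
rational one of the same degree -/
lemma descend {U : ℕ → ℚ} {h : ℂ[X]} (hm : h.Monic)
    (hU : act h (fun n => (U n : ℂ)) = 0) :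
    ∃ g : ℚ[X], g ≠ 0 ∧ g.natDegree ≤ h.natDegree ∧ act g U = 0 := by
  classical
  obtain ⟨φ, hφ⟩ : ∃ φ : Module.Dual ℚ ℂ, φ (1 : ℂ) ≠ 0 := by
    by_contra hcon
    push Not at hcon
    exact one_ne_zero ((Module.forall_dual_apply_eq_zero_iff ℚ (1 : ℂ)).1 hcon)
  set g : ℚ[X] := ∑ i ∈ range (h.natDegree + 1), C (φ (h.coeff i)) * X ^ i with hg
  have hgc : ∀ i ≤ h.natDegree, g.coeff i = φ (h.coeff i) := by
    intro i hi
    rw [hg, finsetSum_coeff]
    simp only [coeff_C_mul_X_pow]
    rw [Finset.sum_ite_eq (range (h.natDegree + 1)) i, if_pos (Finset.mem_range.2 (by omega))]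
  have hgd : g.natDegree ≤ h.natDegree := by
    rw [natDegree_le_iff_coeff_eq_zero]
    intro j hj
    rw [hg, finsetSum_coeff]
    refine Finset.sum_eq_zero fun i hi => ?_
    rw [Finset.mem_range] at hi
    rw [coeff_C_mul_X_pow, if_neg (by omega)]
  refine ⟨g, ?_, hgd, ?_⟩
  · intro h0
    have h1 := hgc h.natDegree le_rfl
    rw [h0, coeff_zero, hm.coeff_natDegree] at h1
    exact hφ h1.symm
  · funext n
    have h1 := congrArg φ (congrFun hU n)
    rw [act_apply h _ le_rfl, Pi.zero_apply, map_zero, map_sum] at h1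
    rw [act_apply g U hgd, Pi.zero_apply, ← h1]
    refine Finset.sum_congr rfl fun i hi => ?_
    rw [Finset.mem_range] at hi
    rw [hgc i (by omega)]
    have h2 : h.coeff i * ((U (n + i) : ℚ) : ℂ) = (U (n + i)) • h.coeff i := by
      rw [Algebra.smul_def, mul_comm]
      rfl
    rw [h2, map_smul, smul_eq_mul, mul_comm]

/-- a root of the minimal polynomial has modulus at most one -/
lemma root_le_one {U : ℕ → ℚ} {k : ℕ} (hg : ∃ C : ℝ, ∀ n : ℕ, |(U n : ℝ)| ≤ C * ((n : ℝ) + 1) ^ k)
    {g : ℚ[X]} (hgm : g.Monic) (hgU : act g U = 0)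
    (hmin : ∀ p : ℚ[X], p ≠ 0 → act p U = 0 → g.natDegree ≤ p.natDegree) {α : ℂ}
    (hα : (g.map (algebraMap ℚ ℂ)).IsRoot α) : ‖α‖ ≤ 1 := by
  classical
  by_contra hcon
  rw [not_le] at hcon
  obtain ⟨h, hh⟩ := dvd_iff_isRoot.2 hα
  have hUC : act (g.map (algebraMap ℚ ℂ)) (fun n => (U n : ℂ)) = 0 := by
    have h1 := act_map (algebraMap ℚ ℂ) g U
    rw [hgU] at h1
    funext n
    have h2 := congrFun h1 n
    simpa using h2
  have hmonic : h.Monic := by
    have h1 : (g.map (algebraMap ℚ ℂ)).Monic := hgm.map _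
    rw [hh] at h1
    exact (monic_X_sub_C α).of_mul_monic_left h1
  have hdeg : h.natDegree + 1 = g.natDegree := by
    have h1 : (g.map (algebraMap ℚ ℂ)).natDegree = g.natDegree := natDegree_map _
    rw [hh, (monic_X_sub_C α).natDegree_mul hmonic, natDegree_X_sub_C] at h1
    omega
  set w := act h (fun n => (U n : ℂ)) with hw
  have hw1 : act (X - C α) w = 0 := by rw [hw, ← act_mul, ← hh, hUC]
  have hw2 : ∀ n, w n = α ^ n * w 0 := by
    intro n
    induction n with
    | zero => simp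
    | succ n ih =>
      have h1 := congrFun hw1 n
      have h2 : act (X - C α) w n = w (n + 1) - α * w n := by
        simp only [act, map_sub, aeval_X, aeval_C]
        rw [LinearMap.sub_apply, Pi.sub_apply, Module.algebraMap_end_apply, Pi.smul_apply,
          smul_eq_mul]
        rfl
      rw [h2, Pi.zero_apply] at h1
      rw [pow_succ]
      have h3 : w (n + 1) = α * w n := by linear_combination h1
      rw [h3, ih]; ring
  -- growth
  obtain ⟨K, hK⟩ := hg
  have hK0 : 0 ≤ K := by
    have := (abs_nonneg _).trans (hK 0)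
    simpa using this
  set D := h.natDegree with hD
  set K' : ℝ := (∑ i ∈ range (D + 1), ‖h.coeff i‖) * (K * ((D : ℝ) + 1) ^ k) with hK'
  have hw3 : ∀ n, ‖w n‖ ≤ K' * ((n : ℝ) + 1) ^ k := by
    intro n
    rw [hw, act_apply h _ le_rfl]
    refine (norm_sum_le _ _).trans ?_
    rw [hK', Finset.sum_mul, Finset.sum_mul]
    refine Finset.sum_le_sum fun i hi => ?_
    rw [Finset.mem_range] at hi
    rw [norm_mul]
    have h0 : ‖((U (n + i) : ℚ) : ℂ)‖ = |((U (n + i) : ℚ) : ℝ)| := by
      have : ((U (n + i) : ℚ) : ℂ) = (((U (n + i) : ℚ) : ℝ) : ℂ) := by push_cast; rfl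
      rw [this, Complex.norm_real, Real.norm_eq_abs]
    have h1 : ((n : ℝ) + i + 1) ≤ ((D : ℝ) + 1) * ((n : ℝ) + 1) := by
      have h2 : (i : ℝ) ≤ D := by exact_mod_cast (by omega : i ≤ D)
      have h3 : (0 : ℝ) ≤ D * n := by positivity
      nlinarith
    have h2 : ((n : ℝ) + i + 1) ^ k ≤ (((D : ℝ) + 1) * ((n : ℝ) + 1)) ^ k :=
      pow_le_pow_left₀ (by positivity) h1 k
    calc ‖h.coeff i‖ * ‖((U (n + i) : ℚ) : ℂ)‖
        ≤ ‖h.coeff i‖ * (K * (((n + i : ℕ) : ℝ) + 1) ^ k) := by
          rw [h0]; exact mul_le_mul_of_nonneg_left (hK _) (norm_nonneg _)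
      _ = ‖h.coeff i‖ * (K * ((n : ℝ) + i + 1) ^ k) := by push_cast; ring
      _ ≤ ‖h.coeff i‖ * (K * (((D : ℝ) + 1) * ((n : ℝ) + 1)) ^ k) :=
          mul_le_mul_of_nonneg_left (mul_le_mul_of_nonneg_left h2 hK0) (norm_nonneg _)
      _ = ‖h.coeff i‖ * (K * ((D : ℝ) + 1) ^ k) * ((n : ℝ) + 1) ^ k := by rw [mul_pow]; ring
  have hw0 : w 0 = 0 := by
    by_contra hne
    have hpos : 0 < ‖w 0‖ := norm_pos_iff.2 hne
    -- exponential growth beats polynomial growth
    have h1 : Filter.Tendsto (fun n : ℕ => ((n : ℝ) ^ k) / ‖α‖ ^ n) Filter.atTop (nhds 0) :=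
      tendsto_pow_const_div_const_pow_of_one_lt k hcon
    have h2 := h1.const_mul (2 ^ k * K')
    rw [mul_zero] at h2
    obtain ⟨n₀, hn₀⟩ := Filter.eventually_atTop.1 (h2.eventually_lt_const hpos)
    set n := max n₀ 1 with hn
    have hn1 : (1 : ℝ) ≤ n := by exact_mod_cast (le_max_right n₀ 1)
    have h3 := hn₀ n (le_max_left _ _)
    have h4 := hw3 n
    rw [hw2 n, norm_mul, norm_pow] at h4
    have h5 : 0 < ‖α‖ ^ n := pow_pos (by linarith) n
    have hK'0 : 0 ≤ K' := by positivity
    have h6 : ((n : ℝ) + 1) ^ k ≤ 2 ^ k * (n : ℝ) ^ k := by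
      rw [← mul_pow]
      exact pow_le_pow_left₀ (by positivity) (by linarith) k
    have h7 : ‖w 0‖ * ‖α‖ ^ n ≤ 2 ^ k * K' * (n : ℝ) ^ k := by
      calc ‖w 0‖ * ‖α‖ ^ n = ‖α‖ ^ n * ‖w 0‖ := mul_comm _ _
        _ ≤ K' * ((n : ℝ) + 1) ^ k := h4
        _ ≤ K' * (2 ^ k * (n : ℝ) ^ k) := mul_le_mul_of_nonneg_left h6 hK'0
        _ = _ := by ring
    have h8 : ‖w 0‖ ≤ 2 ^ k * K' * ((n : ℝ) ^ k / ‖α‖ ^ n) := by
      rw [← mul_div_assoc, le_div_iff₀ h5]
      exact h7
    linarith
  have hw4 : act h (fun n => (U n : ℂ)) = 0 := by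
    funext n
    show w n = 0
    rw [hw2 n, hw0, mul_zero]
  obtain ⟨p, hp0, hpd, hp⟩ := descend hmonic hw4
  have := hmin p hp0 hp
  omega

lemma act_shift {R : Type} [CommRing R] (l : R[X]) (u : ℕ → R) (c n : ℕ) :
    act l (fun n => u (n + c)) n = act l u (n + c) := by
  rw [act_apply l _ le_rfl, act_apply l _ le_rfl]
  refine Finset.sum_congr rfl fun i _ => ?_
  congr 2
  omega

/-- a linear recurrence and polynomial growth: the roots are roots of unity -/
lemma unity_annihilator {u : ℕ → ℤ} {k : ℕ} (hg : Gr k u) {l : ℤ[X]} (hl : l ≠ 0)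
    (h : EZ (act l u)) :
    ∃ (L s N : ℕ), 1 ≤ L ∧ ∀ n, N ≤ n → act ((X ^ L - 1) ^ s) u n = 0 := by
  classical
  obtain ⟨N, hN⟩ := h
  set U : ℕ → ℤ := fun n => u (n + N) with hU
  have hlU : act l U = 0 := by
    funext n
    rw [hU, act_shift]
    exact hN _ (by omega)
  obtain ⟨q, hqm, hqU⟩ := exists_monic hl hlU
  set V : ℕ → ℚ := fun n => (U n : ℚ) with hV
  have hqV : act (q.map (algebraMap ℤ ℚ)) V = 0 := by
    have h1 := act_map (algebraMap ℤ ℚ) q U
    rw [hqU] at h1
    funext n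
    have h2 := congrFun h1 n
    simpa using h2
  -- the minimal polynomial
  have hex : ∃ d : ℕ, ∃ p : ℚ[X], p ≠ 0 ∧ p.natDegree = d ∧ act p V = 0 :=
    ⟨_, _, (hqm.map (algebraMap ℤ ℚ)).ne_zero, rfl, hqV⟩
  obtain ⟨p, hp0, hpd, hpV⟩ := Nat.find_spec hex
  have hpmin : ∀ r : ℚ[X], r ≠ 0 → act r V = 0 → p.natDegree ≤ r.natDegree := by
    intro r hr hrV
    rw [hpd]
    exact Nat.find_min' hex ⟨r, hr, rfl, hrV⟩
  set g : ℚ[X] := C (p.leadingCoeff)⁻¹ * p with hgdef
  have hlc : p.leadingCoeff ≠ 0 := leadingCoeff_ne_zero.2 hp0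
  have hgm : g.Monic := by
    rw [hgdef, Monic.def, leadingCoeff_mul, leadingCoeff_C, inv_mul_cancel₀ hlc]
  have hgd : g.natDegree = p.natDegree := by
    rw [hgdef, natDegree_C_mul (inv_ne_zero hlc)]
  have hgV : act g V = 0 := by rw [hgdef, act_mul, hpV, act_zero]
  have hgmin : ∀ r : ℚ[X], r ≠ 0 → act r V = 0 → g.natDegree ≤ r.natDegree := by
    intro r hr hrV
    rw [hgd]; exact hpmin r hr hrV
  have hdvd : g ∣ q.map (algebraMap ℤ ℚ) := by
    rw [← modByMonic_eq_zero_iff_dvd hgm]
    by_contra hne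
    have h1 : act (q.map (algebraMap ℤ ℚ) %ₘ g) V = 0 := by
      have h2 := modByMonic_add_div (q.map (algebraMap ℤ ℚ)) g
      have h3 := congrArg (fun r : ℚ[X] => act r V) h2
      simp only [act_add] at h3
      rw [hqV, mul_comm, act_mul, hgV, act_zero, add_zero] at h3
      exact h3
    have h2 := hgmin _ hne h1
    have h3 : (q.map (algebraMap ℤ ℚ) %ₘ g).natDegree < g.natDegree := by
      apply natDegree_modByMonic_lt _ hgm
      intro h4
      rw [h4] at hne
      exact hne (modByMonic_one _)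
    omega
  obtain ⟨g', hg'⟩ := IsIntegrallyClosed.eq_map_mul_C_of_dvd ℚ hqm hdvd
  rw [hgm.leadingCoeff, C_1, mul_one] at hg'
  have hg'm : g'.Monic := by
    have h1 : (g'.map (algebraMap ℤ ℚ)).Monic := by rw [hg']; exact hgm
    exact monic_of_injective (algebraMap ℤ ℚ).injective_int h1
  have hmapC : g'.map (Int.castRingHom ℂ) = g.map (algebraMap ℚ ℂ) := by
    rw [← hg', Polynomial.map_map]
    congr 1
  -- all complex roots have modulus at most one
  have hgrV : ∃ C : ℝ, ∀ n : ℕ, |(V n : ℝ)| ≤ C * ((n : ℝ) + 1) ^ k := by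
    obtain ⟨K, hK⟩ := hg
    refine ⟨K * ((N : ℝ) + 1) ^ k, fun n => ?_⟩
    have hK0 : 0 ≤ K := by
      have := (abs_nonneg _).trans (hK 0)
      simpa using this
    have h1 : ((n : ℤ) + N + 1) ≤ ((N : ℤ) + 1) * ((n : ℤ) + 1) := by
      have h3 : (0 : ℤ) ≤ N * n := by positivity
      nlinarith
    have h2 : ((n : ℤ) + N + 1) ^ k ≤ (((N : ℤ) + 1) * ((n : ℤ) + 1)) ^ k :=
      pow_le_pow_left₀ (by positivity) h1 k
    have h3 : |U n| ≤ K * ((N : ℤ) + 1) ^ k * ((n : ℤ) + 1) ^ k := by
      calc |U n| ≤ K * (((n + N : ℕ) : ℤ) + 1) ^ k := hK (n + N)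
        _ = K * ((n : ℤ) + N + 1) ^ k := by push_cast; ring
        _ ≤ K * (((N : ℤ) + 1) * ((n : ℤ) + 1)) ^ k := mul_le_mul_of_nonneg_left h2 hK0
        _ = _ := by rw [mul_pow]; ring
    have h4 : |((U n : ℤ) : ℝ)| ≤ ((K * ((N : ℤ) + 1) ^ k * ((n : ℤ) + 1) ^ k : ℤ) : ℝ) := by
      exact_mod_cast h3
    rw [hV]
    push_cast at h4 ⊢
    exact h4
  have hroot : ∀ α : ℂ, (g'.map (Int.castRingHom ℂ)).IsRoot α → ‖α‖ ≤ 1 := by
    intro α hα
    rw [hmapC] at hα
    exact root_le_one hgrV hgm hgV hgmin hα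
  have hmahler : (g'.map (Int.castRingHom ℂ)).mahlerMeasure = 1 := by
    rw [mahlerMeasure_eq_leadingCoeff_mul_prod_roots, (hg'm.map _).leadingCoeff, norm_one, one_mul]
    apply Multiset.prod_eq_one
    intro x hx
    rw [Multiset.mem_map] at hx
    obtain ⟨α, hα, rfl⟩ := hx
    exact max_eq_left (hroot α (isRoot_of_mem_roots hα))
  have hunity : ∀ α ∈ (g'.map (Int.castRingHom ℂ)).roots, α ≠ 0 → ∃ n, 0 < n ∧ α ^ n = 1 := by
    intro α hα hα0
    exact pow_eq_one_of_mahlerMeasure_eq_one hmahler hα0 hα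
  choose! ν hν using hunity
  set G := g'.map (Int.castRingHom ℂ) with hG
  have hGm : G.Monic := hg'm.map _
  let ν0 : ℂ → ℕ := fun α => if α ∈ G.roots ∧ α ≠ 0 then ν α else 1
  have hν0 : ∀ α, 0 < ν0 α := by
    intro α
    simp only [ν0]
    split_ifs with h1
    · exact (hν α h1.1 h1.2).1
    · exact Nat.one_pos
  set L : ℕ := ∏ α ∈ G.roots.toFinset, ν0 α with hL
  have hL1 : 1 ≤ L := Finset.prod_pos fun α _ => hν0 α
  have hone : ∀ α ∈ G.roots, α ≠ 0 → α ^ L = 1 := by
    intro α hα hα0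
    obtain ⟨w, hw⟩ : ν0 α ∣ L := Finset.dvd_prod_of_mem _ (Multiset.mem_toFinset.2 hα)
    have h1 : ν0 α = ν α := if_pos ⟨hα, hα0⟩
    rw [hw, pow_mul, h1, (hν α hα hα0).2, one_pow]
  set W : ℂ[X] := X * (X ^ L - 1) with hW
  have hfac : ∀ α ∈ G.roots, (X - C α) ∣ W := by
    intro α hα
    by_cases hα0 : α = 0
    · rw [hα0, C_0, sub_zero]; exact dvd_mul_right _ _
    · refine Dvd.dvd.mul_left ?_ _
      rw [dvd_iff_isRoot, IsRoot.def, eval_sub, eval_pow, eval_X, eval_one, hone α hα hα0, sub_self]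
  have hprod : ∀ m : Multiset ℂ, (∀ α ∈ m, (X - C α) ∣ W) →
      (m.map (fun α => X - C α)).prod ∣ W ^ m.card := by
    intro m
    induction m using Multiset.induction_on with
    | empty => intro _; simp
    | cons a m ih =>
      intro hm
      rw [Multiset.map_cons, Multiset.prod_cons, Multiset.card_cons, pow_succ']
      exact mul_dvd_mul (hm a (Multiset.mem_cons_self a m))
        (ih fun α hα => hm α (Multiset.mem_cons_of_mem hα))
  have hGW : G ∣ W ^ G.roots.card := by
    have h1 := (IsAlgClosed.splits G).eq_prod_roots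
    rw [hGm.leadingCoeff, C_1, one_mul] at h1
    conv_lhs => rw [h1]
    exact hprod G.roots hfac
  set s := G.roots.card with hs
  -- back to the integers
  have hGV : act G (fun n => ((V n : ℚ) : ℂ)) = 0 := by
    have h1 := act_map (algebraMap ℚ ℂ) g V
    rw [hgV, ← hmapC] at h1
    funext n
    have h2 := congrFun h1 n
    simpa using h2
  have hWV : act (W ^ s) (fun n => ((V n : ℚ) : ℂ)) = 0 := by
    obtain ⟨r, hr⟩ := hGW
    rw [hr, mul_comm, act_mul, hGV, act_zero]
  have hWU : act ((X * (X ^ L - 1)) ^ s) U = 0 := by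
    have h1 := act_map (Int.castRingHom ℂ) ((X * (X ^ L - 1)) ^ s) U
    have h2 : ((X * (X ^ L - 1)) ^ s : ℤ[X]).map (Int.castRingHom ℂ) = W ^ s := by
      rw [hW]
      simp
    rw [h2] at h1
    have h3 : (fun n => (Int.castRingHom ℂ) (U n)) = fun n => ((V n : ℚ) : ℂ) := by
      funext n
      simp [hV]
    rw [h3, hWV] at h1
    funext n
    have h4 := congrFun h1 n
    simpa using h4.symm
  refine ⟨L, s, N + s, hL1, fun n hn => ?_⟩
  have h1 := congrFun hWU (n - N - s)
  rw [mul_pow, mul_comm, act_mul] at h1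
  have h2 : act (X ^ s) U = fun n => u (n + (s + N)) := by
    funext m
    simp only [act, map_pow, aeval_X]
    rw [sh_pow, hU]
    simp only
    congr 1
    omega
  rw [h2, act_shift, Pi.zero_apply] at h1
  have h3 : n - N - s + (s + N) = n := by omega
  rwa [h3] at h1

/-- **P-recursive sequences of integers with polynomial growth.** -/
theorem exists_poly {u : ℕ → ℤ} {k : ℕ} (hu : PRec u) (hg : Gr k u) :
    ∃ (L N s : ℕ) (p : ℕ → ℝ[X]), 1 ≤ L ∧ (∀ j, (p j).natDegree ≤ s) ∧
      ∀ j t : ℕ, ((u (N + j + L * t) : ℤ) : ℝ) = (p j).eval (t : ℝ) := by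
  classical
  obtain ⟨l, hl, hlu⟩ := constant k u hu hg
  obtain ⟨L, s, N, hL, h⟩ := unity_annihilator hg hl hlu
  -- iterated differences
  have hdiff : ∀ (s : ℕ) (v : ℕ → ℤ), act ((X ^ L - 1) ^ s) v = (fwdDiff L)^[s] v := by
    intro s
    induction s with
    | zero => intro v; simp [act]
    | succ s ih =>
      intro v
      rw [pow_succ, act_mul, Function.iterate_succ_apply, ← ih]
      congr 1
      funext n
      simp only [act, map_sub, map_pow, aeval_X, map_one, fwdDiff]
      rw [LinearMap.sub_apply, Pi.sub_apply, sh_pow]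
      rfl
  have hzero : ∀ (i : ℕ) (n : ℕ), s ≤ i → N ≤ n → (fwdDiff L)^[i] u n = 0 := by
    intro i
    induction i with
    | zero =>
      intro n hi hn
      have h1 := h n hn
      have hs : s = 0 := by omega
      rw [hdiff, hs] at h1
      exact h1
    | succ i ih =>
      intro n hi hn
      rcases Nat.lt_or_ge i s with h1 | h1
      · have hs : s = i + 1 := by omega
        have h2 := h n hn
        rw [hdiff, hs] at h2
        exact h2
      · rw [Function.iterate_succ_apply', fwdDiff, ih _ h1 (by omega), ih _ h1 hn, sub_zero]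
  refine ⟨L, N, s, fun j => ∑ i ∈ range s,
    C ((((fwdDiff L)^[i] u (N + j) : ℤ) : ℝ) / (i.factorial : ℝ)) * descPochhammer ℝ i, hL, ?_, ?_⟩
  · intro j
    refine natDegree_sum_le_of_forall_le _ _ fun i hi => ?_
    rw [Finset.mem_range] at hi
    refine (natDegree_C_mul_le _ _).trans ?_
    rw [descPochhammer_natDegree]
    omega
  · intro j t
    have h1 := shift_eq_sum_fwdDiff_iter L u t (N + j)
    have h2 : N + j + L * t = N + j + t • L := by rw [smul_eq_mul, mul_comm]
    rw [h2, h1]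
    have h3 : ∑ i ∈ range (t + 1), t.choose i • (fwdDiff L)^[i] u (N + j) =
        ∑ i ∈ range s, t.choose i • (fwdDiff L)^[i] u (N + j) := by
      rcases le_total s (t + 1) with hst | hst
      · symm
        apply Finset.sum_subset
        · intro i hi
          rw [Finset.mem_range] at hi ⊢
          omega
        · intro i _ hi
          rw [Finset.mem_range, not_lt] at hi
          rw [hzero i (N + j) hi (by omega), smul_zero]
      · apply Finset.sum_subset
        · intro i hi
          rw [Finset.mem_range] at hi ⊢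
          omega
        · intro i _ hi
          rw [Finset.mem_range, not_lt] at hi
          rw [Nat.choose_eq_zero_of_lt (by omega), zero_smul]
    rw [h3]
    push_cast
    rw [eval_finsetSum]
    refine Finset.sum_congr rfl fun i _ => ?_
    rw [eval_mul, eval_C, descPochhammer_eval_eq_descFactorial, Nat.descFactorial_eq_factorial_mul_choose]
    have h4 : (i.factorial : ℝ) ≠ 0 := by exact_mod_cast Nat.factorial_ne_zero i
    push_cast
    rw [nsmul_eq_mul]
    field_simp
    push_cast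
    ring

end Pool.Agent.V8H23.Holo
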