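import Mathlib

/-!
# Christol's theorem for power series over `ZMod p`

`cart p r g` is the power series with coefficients `g_(p n + r)`.

* `exists_kernel`: an algebraic power series over `ZMod p` lies in a finite set of power series
  which is closed under all operators `cart p r`.
* `algebraic_of_kernel`: a member of a finite set of power series which is closed under the
  operators `cart p r`, `r < p`, is algebraic.
-/

set_option autoImplicit false

namespace Pool.Agent.V8H23.Christol

open Finset

/-- the power series with coefficients `g_(p n + r)` -/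
noncomputable def cart (p r : ℕ) (g : PowerSeries (ZMod p)) : PowerSeries (ZMod p) :=
  PowerSeries.mk fun n => PowerSeries.coeff (p * n + r) g

/-- the polynomial with coefficients `b_(p n + r)` -/
noncomputable def cartP (p r : ℕ) (b : Polynomial (ZMod p)) : Polynomial (ZMod p) :=
  ∑ n ∈ range (b.natDegree + 1), Polynomial.monomial n (b.coeff (p * n + r))

lemma coeff_cart (p r : ℕ) (g : PowerSeries (ZMod p)) (n : ℕ) :
    PowerSeries.coeff n (cart p r g) = PowerSeries.coeff (p * n + r) g := by
  simp [cart]

lemma cart_add (p r : ℕ) (g h : PowerSeries (ZMod p)) :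
    cart p r (g + h) = cart p r g + cart p r h := by
  ext n; simp [coeff_cart]

lemma cart_zero (p r : ℕ) : cart p r 0 = 0 := by
  ext n; simp [coeff_cart]

lemma cart_sum {ι : Type*} (p r : ℕ) (s : Finset ι) (g : ι → PowerSeries (ZMod p)) :
    cart p r (∑ i ∈ s, g i) = ∑ i ∈ s, cart p r (g i) := by
  classical
  induction s using Finset.induction_on with
  | empty => simp [cart_zero]
  | insert a s ha ih => rw [sum_insert ha, sum_insert ha, cart_add, ih]

variable {p : ℕ} [hp : Fact p.Prime]

lemma coeff_cartP (r : ℕ) (b : Polynomial (ZMod p)) (n : ℕ) :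
    (cartP p r b).coeff n = b.coeff (p * n + r) := by
  classical
  rw [cartP, Polynomial.finsetSum_coeff]
  simp only [Polynomial.coeff_monomial]
  rw [Finset.sum_ite_eq' (range (b.natDegree + 1)) n]
  split_ifs with h
  · rfl
  · rw [Finset.mem_range, not_lt] at h
    symm
    apply Polynomial.coeff_eq_zero_of_natDegree_lt
    have := hp.out.two_le
    nlinarith

lemma coe_cartP (r : ℕ) (b : Polynomial (ZMod p)) :
    ((cartP p r b : Polynomial (ZMod p)) : PowerSeries (ZMod p)) = cart p r b := by
  ext n
  rw [Polynomial.coeff_coe, coeff_cartP, coeff_cart, Polynomial.coeff_coe]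

lemma natDegree_cartP (r : ℕ) (b : Polynomial (ZMod p)) {N : ℕ} (h : b.natDegree ≤ 2 * N) :
    (cartP p r b).natDegree ≤ N := by
  rw [Polynomial.natDegree_le_iff_coeff_eq_zero]
  intro n hn
  rw [coeff_cartP]
  apply Polynomial.coeff_eq_zero_of_natDegree_lt
  have := hp.out.two_le
  nlinarith

instance : CharP (PowerSeries (ZMod p)) p :=
  charP_of_injective_algebraMap (algebraMap (ZMod p) (PowerSeries (ZMod p))).injective p

/-- the coefficients of a `p`-th power -/
lemma coeff_pow_p (h : PowerSeries (ZMod p)) (n : ℕ) :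
    PowerSeries.coeff n (h ^ p) = if p ∣ n then PowerSeries.coeff (n / p) h else 0 := by
  set a : Polynomial (ZMod p) := PowerSeries.trunc (n + 1) h with ha
  obtain ⟨k, hk⟩ : (PowerSeries.X : PowerSeries (ZMod p)) ^ (n + 1) ∣ h - (a : PowerSeries (ZMod p)) := by
    rw [PowerSeries.X_pow_dvd_iff]
    intro m hm
    rw [map_sub, Polynomial.coeff_coe, ha, PowerSeries.coeff_trunc, if_pos hm, sub_self]
  have h1 : h = (a : PowerSeries (ZMod p)) + PowerSeries.X ^ (n + 1) * k := by
    rw [← hk]; ring
  have h2 : h ^ p = (((a ^ p : Polynomial (ZMod p))) : PowerSeries (ZMod p)) +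
      PowerSeries.X ^ ((n + 1) * p) * k ^ p := by
    rw [h1, add_pow_char, Polynomial.coe_pow, mul_pow, ← pow_mul]
  rw [h2, map_add, Polynomial.coeff_coe, PowerSeries.coeff_X_pow_mul', if_neg, add_zero,
    ← ZMod.expand_card, Polynomial.coeff_expand hp.out.pos]
  · split_ifs with h3
    · rw [ha, PowerSeries.coeff_trunc, if_pos]
      have := Nat.div_le_self n p
      omega
    · rfl
  · have := hp.out.two_le
    nlinarith

lemma cart_mul_pow {r : ℕ} (hr : r < p) (g h : PowerSeries (ZMod p)) :
    cart p r (g * h ^ p) = cart p r g * h := by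
  classical
  ext n
  rw [coeff_cart, PowerSeries.coeff_mul, PowerSeries.coeff_mul]
  simp only [coeff_cart, coeff_pow_p]
  have hp0 := hp.out.pos
  symm
  apply Finset.sum_bij_ne_zero (fun (x : ℕ × ℕ) _ _ => ((p * x.1 + r, p * x.2) : ℕ × ℕ))
  · intro x hx _
    rw [Finset.HasAntidiagonal.mem_antidiagonal] at hx ⊢
    simp only
    rw [← hx]; ring
  · intro x _ _ y _ _ hxy
    simp only [Prod.mk.injEq, add_left_inj] at hxy
    exact Prod.ext (Nat.eq_of_mul_eq_mul_left hp0 hxy.1) (Nat.eq_of_mul_eq_mul_left hp0 hxy.2)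
  · intro y hy hy2
    rw [Finset.HasAntidiagonal.mem_antidiagonal] at hy
    by_cases hd : p ∣ y.2
    · obtain ⟨j, hj⟩ := hd
      have h1 : j ≤ n := by
        by_contra hjn
        have : p * (n + 1) ≤ p * j := Nat.mul_le_mul_left p (by omega)
        rw [hj] at hy
        have h3 : p * (n + 1) = p * n + p := by ring
        omega
      have h2 : y.1 = p * (n - j) + r := by
        have h3 : p * (n - j) + p * j = p * n := by rw [← mul_add, Nat.sub_add_cancel h1]
        rw [hj] at hy
        omega
      refine ⟨(n - j, j), ?_, ?_, ?_⟩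
      · rw [Finset.HasAntidiagonal.mem_antidiagonal]; exact Nat.sub_add_cancel h1
      · rw [if_pos (by rw [hj]; exact dvd_mul_right _ _), h2, hj, Nat.mul_div_cancel_left _ hp0] at hy2
        exact hy2
      · exact Prod.ext h2.symm hj.symm
    · rw [if_neg hd, mul_zero] at hy2
      exact absurd rfl hy2
  · intro x _ _
    simp [Nat.mul_div_cancel_left _ hp0]

/-- a power series is determined by its sections -/
lemma eq_sum_cart (g : PowerSeries (ZMod p)) :
    g = ∑ r ∈ range p, PowerSeries.X ^ r * cart p r g ^ p := by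
  classical
  have hp0 := hp.out.pos
  ext n
  rw [map_sum, Finset.sum_eq_single (n % p)]
  · rw [PowerSeries.coeff_X_pow_mul', if_pos (Nat.mod_le n p), coeff_pow_p,
      if_pos (Nat.dvd_sub_mod n), coeff_cart]
    congr 2
    have h1 := Nat.div_add_mod n p
    have h2 : (n - n % p) / p = n / p := by
      have : n - n % p = p * (n / p) := by omega
      rw [this, Nat.mul_div_cancel_left _ hp0]
    rw [h2]; exact h1.symm
  · intro r hr hrn
    rw [Finset.mem_range] at hr
    rw [PowerSeries.coeff_X_pow_mul']
    split_ifs with h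
    · rw [coeff_pow_p, if_neg]
      rintro ⟨k, hk⟩
      apply hrn
      have : n = r + p * k := by omega
      rw [this, Nat.add_mul_mod_self_left, Nat.mod_eq_of_lt hr]
    · rfl
  · intro h
    exact absurd (Finset.mem_range.2 (Nat.mod_lt n hp0)) h

/-- an algebraic power series satisfies an additive equation -/
lemma exists_relation {f : PowerSeries (ZMod p)} (hf : IsAlgebraic (Polynomial (ZMod p)) f) :
    ∃ (s : ℕ) (c : ℕ → Polynomial (ZMod p)), (∃ i ∈ range (s + 1), c i ≠ 0) ∧
      ∑ i ∈ range (s + 1), (c i : PowerSeries (ZMod p)) * f ^ p ^ i = 0 := by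
  classical
  obtain ⟨y, hy, hint⟩ := hf.exists_integral_multiple
  set g := y • f with hg
  have hL : ¬ LinearIndependent (Polynomial (ZMod p)) (fun i : ℕ => g ^ p ^ i) := by
    intro hli
    obtain ⟨w, hw⟩ := hint.fg_adjoin_singleton
    have : Finite ℕ := by
      refine hli.finite_of_le_span_finite _ (w : Set (PowerSeries (ZMod p))) ?_
      rintro _ ⟨i, rfl⟩
      have h1 : g ^ p ^ i ∈ Algebra.adjoin (Polynomial (ZMod p)) {g} :=
        Subalgebra.pow_mem _ (Algebra.subset_adjoin (Set.mem_singleton g)) _
      have h2 : g ^ p ^ i ∈ Subalgebra.toSubmodule (Algebra.adjoin (Polynomial (ZMod p)) {g}) := h1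
      rw [← hw] at h2
      exact h2
    exact not_finite ℕ
  rw [linearIndependent_iff'] at hL
  push Not at hL
  obtain ⟨t, c, hc, i, hi, hci⟩ := hL
  refine ⟨t.sup id, fun i => if i ∈ t then c i * y ^ p ^ i else 0, ⟨i, ?_, ?_⟩, ?_⟩
  · rw [Finset.mem_range, Nat.lt_succ_iff]
    exact Finset.le_sup (f := id) hi
  · simp only [if_pos hi]; exact mul_ne_zero hci (pow_ne_zero _ hy)
  · rw [← hc]
    symm
    apply Finset.sum_subset_zero_on_sdiff
    · intro j hj
      rw [Finset.mem_range, Nat.lt_succ_iff]
      exact Finset.le_sup (f := id) hj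
    · intro j hj
      rw [Finset.mem_sdiff] at hj
      simp [if_neg hj.2]
    · intro j hj
      simp only [if_pos hj]
      rw [hg, smul_pow, smul_smul, Algebra.smul_def]
      rfl

/-- the relation may be taken with a nonzero coefficient of the first power -/
lemma exists_relation' {f : PowerSeries (ZMod p)} (hf : IsAlgebraic (Polynomial (ZMod p)) f) :
    ∃ (s : ℕ) (c : ℕ → Polynomial (ZMod p)), 1 ≤ s ∧ c 0 ≠ 0 ∧
      ∑ i ∈ range (s + 1), (c i : PowerSeries (ZMod p)) * f ^ p ^ i = 0 := by
  classical
  obtain ⟨s, hs⟩ : ∃ s : ℕ, ∃ c : ℕ → Polynomial (ZMod p), (∃ i ∈ range (s + 1), c i ≠ 0) ∧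
      ∑ i ∈ range (s + 1), (c i : PowerSeries (ZMod p)) * f ^ p ^ i = 0 := exists_relation hf
  induction s with
  | zero =>
    obtain ⟨c, ⟨i, hi, hci⟩, hc⟩ := hs
    have hi0 : i = 0 := by rw [Finset.mem_range] at hi; omega
    subst hi0
    refine ⟨1, fun i => if i = 0 then c 0 else 0, le_rfl, by simpa using hci, ?_⟩
    rw [Finset.sum_range_succ]
    simpa using hc
  | succ s ih =>
    obtain ⟨c, ⟨i, hi, hci⟩, hc⟩ := hs
    by_cases h0 : c 0 = 0
    · apply ih
      have hi1 : 1 ≤ i := by
        rcases Nat.eq_zero_or_pos i with h | h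
        · rw [h] at hci; exact absurd h0 hci
        · exact h
      -- a section of `c i` which does not vanish
      obtain ⟨r, hr, hri⟩ : ∃ r < p, cartP p r (c i) ≠ 0 := by
        by_contra hcon
        push Not at hcon
        apply hci
        ext n
        have h1 := hcon (n % p) (Nat.mod_lt n hp.out.pos)
        have h2 := congrArg (fun b : Polynomial (ZMod p) => b.coeff (n / p)) h1
        simp only [coeff_cartP, Polynomial.coeff_zero, Nat.div_add_mod] at h2
        rw [h2, Polynomial.coeff_zero]
      refine ⟨fun j => cartP p r (c (j + 1)), ⟨i - 1, ?_, ?_⟩, ?_⟩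
      · rw [Finset.mem_range] at hi ⊢; omega
      · simp only [Nat.sub_add_cancel hi1]; exact hri
      · rw [Finset.sum_range_succ'] at hc
        simp only [h0, Polynomial.coe_zero, zero_mul, add_zero] at hc
        have h1 := congrArg (cart p r) hc
        rw [cart_sum, cart_zero] at h1
        rw [← h1]
        apply Finset.sum_congr rfl
        intro j _
        rw [pow_succ, pow_mul, cart_mul_pow hr, coe_cartP]
    · exact ⟨s + 1, c, by omega, h0, hc⟩

/-- the candidates for the kernel -/
def Ker (s N : ℕ) (c₀ : Polynomial (ZMod p)) (f : PowerSeries (ZMod p)) :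
    Set (PowerSeries (ZMod p)) :=
  {h | ∃ b : ℕ → Polynomial (ZMod p), (∀ j, (b j).natDegree ≤ N) ∧
    (c₀ : PowerSeries (ZMod p)) ^ p ^ s * h = ∑ j ∈ range (s + 1),
      (b j : PowerSeries (ZMod p)) * (c₀ : PowerSeries (ZMod p)) ^ (p ^ s - p ^ j) * f ^ p ^ j}

lemma ker_finite (s N : ℕ) {c₀ : Polynomial (ZMod p)} (hc₀ : c₀ ≠ 0) (f : PowerSeries (ZMod p)) :
    (Ker s N c₀ f).Finite := by
  classical
  let Φ : (Fin (s + 1) → Fin (N + 1) → ZMod p) → PowerSeries (ZMod p) := fun w =>
    ∑ j : Fin (s + 1), ((∑ n : Fin (N + 1), Polynomial.monomial (n : ℕ) (w j n) :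
      Polynomial (ZMod p)) : PowerSeries (ZMod p)) *
      (c₀ : PowerSeries (ZMod p)) ^ (p ^ s - p ^ (j : ℕ)) * f ^ p ^ (j : ℕ)
  have hc : (c₀ : PowerSeries (ZMod p)) ^ p ^ s ≠ 0 := by
    apply pow_ne_zero
    rwa [Ne, Polynomial.coe_eq_zero_iff]
  have h1 : (Set.range Φ).Finite := Set.finite_range Φ
  have h2 : Set.InjOn (fun h : PowerSeries (ZMod p) => (c₀ : PowerSeries (ZMod p)) ^ p ^ s * h)
      ((fun h : PowerSeries (ZMod p) => (c₀ : PowerSeries (ZMod p)) ^ p ^ s * h) ⁻¹'
        (Set.range Φ)) := by
    intro a _ b _ hab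
    exact mul_left_cancel₀ hc hab
  refine (h1.preimage h2).subset ?_
  rintro h ⟨b, hb, hh⟩
  refine ⟨fun j n => (b j).coeff n, ?_⟩
  simp only [Φ]
  rw [hh, Finset.sum_range]
  apply Finset.sum_congr rfl
  intro j _
  congr 3
  rw [Finset.sum_fin_eq_sum_range]
  conv_rhs => rw [(b j).as_sum_range' (N + 1) (Nat.lt_succ_of_le (hb j))]
  apply Finset.sum_congr rfl
  intro n hn
  rw [Finset.mem_range] at hn
  rw [dif_pos hn]

/-- **Christol's theorem**: an algebraic power series over `ZMod p` lies in a finite set of power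
series which is closed under the operators `cart p r`. -/
theorem exists_kernel {f : PowerSeries (ZMod p)} (hf : IsAlgebraic (Polynomial (ZMod p)) f) :
    ∃ S : Set (PowerSeries (ZMod p)), S.Finite ∧ f ∈ S ∧ ∀ h ∈ S, ∀ r < p, cart p r h ∈ S := by
  classical
  obtain ⟨s, c, hs, hc0, hc⟩ := exists_relation' hf
  have hp2 := hp.out.two_le
  set M := (range (s + 1)).sup (fun j => (c j * c 0 ^ (p ^ j - 2)).natDegree) with hM
  set N := M + (c 0).natDegree with hN
  refine ⟨Ker s N (c 0) f, ker_finite s N hc0 f, ?_, ?_⟩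
  · refine ⟨fun j => if j = 0 then c 0 else 0, ?_, ?_⟩
    · intro j
      beta_reduce
      split_ifs
      · omega
      · simp
    · rw [Finset.sum_range_succ', Finset.sum_eq_zero]
      · simp only [if_true, pow_zero, pow_one, zero_add]
        rw [← pow_succ', Nat.sub_add_cancel (Nat.one_le_pow _ _ (by omega))]
      · intro j _
        simp
  · rintro h ⟨b, hb, hh⟩ r hr
    -- eliminate the first power
    have hps : 2 ≤ p ^ s := by
      calc 2 ≤ p := hp2
        _ = p ^ 1 := (pow_one p).symm
        _ ≤ p ^ s := Nat.pow_le_pow_right (by omega) hs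
    have h1 : (c 0 : PowerSeries (ZMod p)) * f =
        - ∑ j ∈ range s, (c (j + 1) : PowerSeries (ZMod p)) * f ^ p ^ (j + 1) := by
      rw [Finset.sum_range_succ'] at hc
      simp only [pow_zero, pow_one] at hc
      rw [eq_neg_iff_add_eq_zero, add_comm]; exact hc
    have h2 : (c 0 : PowerSeries (ZMod p)) ^ p ^ s * h = ∑ j ∈ range s,
        ((b (j + 1) - b 0 * (c (j + 1) * c 0 ^ (p ^ (j + 1) - 2)) : Polynomial (ZMod p)) :
          PowerSeries (ZMod p)) *
        ((c 0 : PowerSeries (ZMod p)) ^ (p ^ (s - 1) - p ^ j) * f ^ p ^ j) ^ p := by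
      rw [hh, Finset.sum_range_succ']
      have h3 : (b 0 : PowerSeries (ZMod p)) * (c 0 : PowerSeries (ZMod p)) ^ (p ^ s - p ^ 0) *
          f ^ p ^ 0 = ∑ j ∈ range s, - ((b 0 : PowerSeries (ZMod p)) *
            (c 0 : PowerSeries (ZMod p)) ^ (p ^ s - 2) *
            ((c (j + 1) : PowerSeries (ZMod p)) * f ^ p ^ (j + 1))) := by
        rw [Finset.sum_neg_distrib, ← Finset.mul_sum, ← mul_neg, ← h1]
        have h4 : p ^ s - p ^ 0 = (p ^ s - 2) + 1 := by rw [pow_zero]; omega
        rw [h4, pow_succ, pow_zero, pow_one]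
        ring
      rw [h3, ← Finset.sum_add_distrib]
      apply Finset.sum_congr rfl
      intro j hj
      rw [Finset.mem_range] at hj
      have h5 : p ^ j ≤ p ^ (s - 1) := Nat.pow_le_pow_right (by omega) (by omega)
      have h6 : p ^ s = p ^ (s - 1) * p := by
        rw [← pow_succ, Nat.sub_add_cancel hs]
      have h7 : (p ^ (s - 1) - p ^ j) * p = p ^ s - p ^ (j + 1) := by
        rw [Nat.sub_mul, ← h6, pow_succ]
      have h8 : 2 ≤ p ^ (j + 1) := by
        calc 2 ≤ p := hp2
          _ = p ^ 1 := (pow_one p).symm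
          _ ≤ p ^ (j + 1) := Nat.pow_le_pow_right (by omega) (by omega)
      have h9 : p ^ (j + 1) ≤ p ^ s := Nat.pow_le_pow_right (by omega) (by omega)
      have h10 : p ^ s - 2 = (p ^ (j + 1) - 2) + (p ^ s - p ^ (j + 1)) := by omega
      rw [mul_pow, ← pow_mul, ← pow_mul, h7, ← pow_succ, h10, pow_add, Polynomial.coe_sub,
        Polynomial.coe_mul, Polynomial.coe_mul, Polynomial.coe_pow]
      ring
    refine ⟨fun j => if j < s then
      cartP p r (b (j + 1) - b 0 * (c (j + 1) * c 0 ^ (p ^ (j + 1) - 2))) else 0, ?_, ?_⟩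
    · intro j
      beta_reduce
      by_cases hj : j < s
      · rw [if_pos hj]
        apply natDegree_cartP
        have h3 : (c (j + 1) * c 0 ^ (p ^ (j + 1) - 2)).natDegree ≤ M :=
          Finset.le_sup (f := fun j => (c j * c 0 ^ (p ^ j - 2)).natDegree)
            (Finset.mem_range.2 (by omega))
        have h4 := hb (j + 1)
        have h5 := hb 0
        have h6 := Polynomial.natDegree_mul_le (p := b 0)
          (q := c (j + 1) * c 0 ^ (p ^ (j + 1) - 2))
        refine (Polynomial.natDegree_sub_le _ _).trans (max_le ?_ ?_)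
        · omega
        · omega
      · rw [if_neg hj]; simp
    · have h3 := congrArg (cart p r) h2
      rw [cart_sum] at h3
      simp only [cart_mul_pow hr, ← coe_cartP] at h3
      have h4 : (c 0 : PowerSeries (ZMod p)) ^ p ^ s * h =
          h * ((c 0 : PowerSeries (ZMod p)) ^ p ^ (s - 1)) ^ p := by
        rw [← pow_mul, ← pow_succ, Nat.sub_add_cancel hs, mul_comm]
      rw [h4, cart_mul_pow hr] at h3
      have h5 : p ^ (s - 1) ≤ p ^ s := Nat.pow_le_pow_right (by omega) (by omega)
      have h6 : (c 0 : PowerSeries (ZMod p)) ^ p ^ s * cart p r h =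
          (c 0 : PowerSeries (ZMod p)) ^ (p ^ s - p ^ (s - 1)) *
            (cart p r h * (c 0 : PowerSeries (ZMod p)) ^ p ^ (s - 1)) := by
        have : p ^ s = (p ^ s - p ^ (s - 1)) + p ^ (s - 1) := (Nat.sub_add_cancel h5).symm
        conv_lhs => rw [this, pow_add]
        ring
      rw [h6, h3, Finset.sum_range_succ]
      beta_reduce
      rw [if_neg (lt_irrefl s), Polynomial.coe_zero, zero_mul,
        zero_mul, add_zero, Finset.mul_sum]
      apply Finset.sum_congr rfl
      intro j hj
      rw [Finset.mem_range] at hj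
      rw [if_pos hj]
      have h7 : p ^ j ≤ p ^ (s - 1) := Nat.pow_le_pow_right (by omega) (by omega)
      have h8 : p ^ s - p ^ j = (p ^ s - p ^ (s - 1)) + (p ^ (s - 1) - p ^ j) := by omega
      rw [h8, pow_add]
      ring

/-- **Christol's theorem**, the converse: a member of a finite set of power series which is closed
under the operators `cart p r`, `r < p`, is algebraic. -/
theorem algebraic_of_kernel {S : Set (PowerSeries (ZMod p))} (hS : S.Finite)
    (hcl : ∀ h ∈ S, ∀ r < p, cart p r h ∈ S) {f : PowerSeries (ZMod p)} (hf : f ∈ S) :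
    IsAlgebraic (Polynomial (ZMod p)) f := by
  classical
  -- all members are combinations of `p ^ m`-th powers
  have h1 : ∀ m : ℕ, ∀ h ∈ S, h ∈ Submodule.span (Polynomial (ZMod p))
      ((fun g : PowerSeries (ZMod p) => g ^ p ^ m) '' S) := by
    intro m
    induction m with
    | zero =>
      intro h hh
      exact Submodule.subset_span ⟨h, hh, by simp⟩
    | succ m ih =>
      intro h hh
      refine Submodule.span_le.2 ?_ (ih h hh)
      rintro _ ⟨g, hg, rfl⟩
      simp only [SetLike.mem_coe]
      have h2 : g ^ p ^ m = ∑ r ∈ range p, ((Polynomial.X ^ (r * p ^ m) : Polynomial (ZMod p)) •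
          (cart p r g) ^ p ^ (m + 1)) := by
        conv_lhs => rw [eq_sum_cart g]
        rw [sum_pow_char_pow]
        apply Finset.sum_congr rfl
        intro r _
        rw [mul_pow, ← pow_mul, ← pow_mul, pow_succ', Algebra.smul_def]
        congr 1
        rw [← Polynomial.coe_X, ← Polynomial.coe_pow]
        rfl
      rw [h2]
      refine Submodule.sum_mem _ fun r hr => Submodule.smul_mem _ _ ?_
      exact Submodule.subset_span ⟨cart p r g, hcl g hg r (Finset.mem_range.1 hr), rfl⟩
  set d := hS.toFinset.card with hd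
  have h2 : ∀ i ∈ range (d + 1), f ^ p ^ i ∈ Submodule.span (Polynomial (ZMod p))
      ((fun g : PowerSeries (ZMod p) => g ^ p ^ d) '' S) := by
    intro i hi
    rw [Finset.mem_range] at hi
    have h3 := h1 (d - i) f hf
    have h4 : ∀ x ∈ Submodule.span (Polynomial (ZMod p))
        ((fun g : PowerSeries (ZMod p) => g ^ p ^ (d - i)) '' S),
        x ^ p ^ i ∈ Submodule.span (Polynomial (ZMod p))
        ((fun g : PowerSeries (ZMod p) => g ^ p ^ d) '' S) := by
      intro x hx
      induction hx using Submodule.span_induction with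
      | mem x hx =>
        obtain ⟨g, hg, rfl⟩ := hx
        simp only
        rw [← pow_mul, ← pow_add, Nat.sub_add_cancel (by omega)]
        exact Submodule.subset_span ⟨g, hg, rfl⟩
      | zero =>
        rw [zero_pow (pow_ne_zero _ hp.out.ne_zero)]
        exact Submodule.zero_mem _
      | add x y _ _ hx hy =>
        rw [add_pow_char_pow]
        exact Submodule.add_mem _ hx hy
      | smul a x _ hx =>
        rw [smul_pow]
        exact Submodule.smul_mem _ _ hx
    exact h4 f h3
  -- hence the first `d + 1` of them are linearly dependent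
  have h3 : ¬ LinearIndependent (Polynomial (ZMod p)) (fun i : Fin (d + 1) => f ^ p ^ (i : ℕ)) := by
    intro hli
    have hfin : ((fun g : PowerSeries (ZMod p) => g ^ p ^ d) '' S).Finite := hS.image _
    have := hfin.fintype
    have h4 := linearIndependent_le_span_aux' _ hli
      ((fun g : PowerSeries (ZMod p) => g ^ p ^ d) '' S) (by
        rintro _ ⟨i, rfl⟩
        exact h2 i (Finset.mem_range.2 i.2))
    rw [Fintype.card_fin, ← Set.toFinset_card] at h4
    have h5 : ((fun g : PowerSeries (ZMod p) => g ^ p ^ d) '' S).toFinset.card ≤ d := by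
      have h6 : ((fun g : PowerSeries (ZMod p) => g ^ p ^ d) '' S).toFinset =
          hS.toFinset.image (fun g : PowerSeries (ZMod p) => g ^ p ^ d) := by
        ext x
        simp
      rw [h6]
      exact Finset.card_image_le
    omega
  rw [Fintype.not_linearIndependent_iff] at h3
  obtain ⟨c, hc, i, hi⟩ := h3
  refine ⟨∑ j : Fin (d + 1), Polynomial.monomial (p ^ (j : ℕ)) (c j), ?_, ?_⟩
  · intro h0
    apply hi
    have h4 := congrArg (fun P : Polynomial (Polynomial (ZMod p)) => P.coeff (p ^ (i : ℕ))) h0
    simp only [Polynomial.finsetSum_coeff, Polynomial.coeff_monomial, Polynomial.coeff_zero] at h4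
    rw [Finset.sum_eq_single i] at h4
    · simpa using h4
    · intro j _ hj
      rw [if_neg]
      intro h5
      exact hj (Fin.ext (Nat.pow_right_injective hp.out.two_le h5))
    · intro h5
      exact absurd (Finset.mem_univ i) h5
  · rw [map_sum, ← hc]
    apply Finset.sum_congr rfl
    intro j _
    rw [Polynomial.aeval_monomial, Algebra.smul_def]

end Pool.Agent.V8H23.Christol
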