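import Mathlib
import Pool.Agent.V8H23.Christol
import Pool.Agent.Results.MP_12a1af_nt.AffineSystems

/-!
# Representation functions which are algebraic, automatic, periodic, regular or P-recursive

Tools for `MP_12a1af_nt`: if the representation function of a set `A` is simple (in one of several
senses), the characteristic function of `A` has a finite kernel.
-/

set_option autoImplicit false

namespace Pool.Agent.V8H23.RepSimple

open Finset
open Pool.Agent.V8H23.Christol

/-- the `k`-kernel of a sequence -/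
def kernel {α : Type} (k : ℕ) (u : ℕ → α) : Set (ℕ → α) :=
  {v | ∃ e j : ℕ, j < k ^ e ∧ v = fun n => u (k ^ e * n + j)}

/-- the number of `h`-tuples of elements of `A` with sum `n` -/
noncomputable def repH (A : Set ℕ) (h n : ℕ) : ℕ :=
  {v : Fin h → ℕ | (∀ i, v i ∈ A) ∧ ∑ i, v i = n}.ncard

/-- the generating function of `A`, modulo `p` -/
noncomputable def gf (p : ℕ) (A : Set ℕ) : PowerSeries (ZMod p) :=
  open Classical in PowerSeries.mk fun n => if n ∈ A then 1 else 0

lemma mem_kernel_self {α : Type} (k : ℕ) (u : ℕ → α) : u ∈ kernel k u :=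
  ⟨0, 0, by simp, by funext n; simp⟩

lemma kernel_step {α : Type} {k : ℕ} {u v : ℕ → α} (hv : v ∈ kernel k u) {r : ℕ} (hr : r < k) :
    (fun n => v (k * n + r)) ∈ kernel k u := by
  obtain ⟨e, j, hj, rfl⟩ := hv
  refine ⟨e + 1, k ^ e * r + j, ?_, ?_⟩
  · calc k ^ e * r + j < k ^ e * r + k ^ e := by omega
      _ = k ^ e * (r + 1) := by ring
      _ ≤ k ^ e * k := Nat.mul_le_mul_left _ hr
      _ = k ^ (e + 1) := by rw [pow_succ]
  · funext n
    have h1 : k ^ e * (k * n + r) + j = k ^ (e + 1) * n + (k ^ e * r + j) := by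
      rw [pow_succ]; ring
    show u (k ^ e * (k * n + r) + j) = u (k ^ (e + 1) * n + (k ^ e * r + j))
    rw [h1]

/-- the representation function is given by the powers of the generating function -/
lemma gf_pow (p : ℕ) (A : Set ℕ) (h : ℕ) :
    gf p A ^ h = PowerSeries.mk fun n => (repH A h n : ZMod p) := by
  classical
  ext n
  rw [PowerSeries.coeff_mk]
  have h1 : gf p A ^ h = ∏ _i : Fin h, gf p A := by
    rw [Finset.prod_const, Finset.card_univ, Fintype.card_fin]
  rw [h1, PowerSeries.coeff_prod]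
  have h2 : ∀ l : Fin h →₀ ℕ, (∏ i ∈ (univ : Finset (Fin h)), PowerSeries.coeff (l i) (gf p A)) =
      if (∀ i, l i ∈ A) then (1 : ZMod p) else 0 := by
    intro l
    simp only [gf, PowerSeries.coeff_mk]
    rw [Finset.prod_ite_zero]
    simp
  simp only [h2]
  rw [Finset.sum_boole]
  congr 1
  rw [repH]
  have h3 : {v : Fin h → ℕ | (∀ i, v i ∈ A) ∧ ∑ i, v i = n} =
      (fun l : Fin h →₀ ℕ => (l : Fin h → ℕ)) ''
        (((finsuppAntidiag (univ : Finset (Fin h)) n).filter (fun l => ∀ i, l i ∈ A) :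
          Finset (Fin h →₀ ℕ)) : Set (Fin h →₀ ℕ)) := by
    ext v
    simp only [Set.mem_ofPred_eq, Set.mem_image, Finset.coe_filter, Finset.mem_finsuppAntidiag]
    constructor
    · rintro ⟨hv, hs⟩
      exact ⟨Finsupp.equivFunOnFinite.symm v, ⟨⟨by simpa using hs, by simp⟩, by simpa using hv⟩,
        by simp⟩
    · rintro ⟨l, ⟨⟨hl, _⟩, hA⟩, rfl⟩
      exact ⟨hA, hl⟩
  rw [h3, Set.ncard_image_of_injective _ DFunLike.coe_injective, Set.ncard_coe_finset]

lemma repH_two (A : Set ℕ) (n : ℕ) :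
    repH A 2 n = Pool.Agent.Results.MP_12a1af_nt.AffineSystems.rep A n := by
  rw [repH, Pool.Agent.Results.MP_12a1af_nt.AffineSystems.rep]
  have h1 : {v : Fin 2 → ℕ | (∀ i, v i ∈ A) ∧ ∑ i, v i = n} =
      (finTwoArrowEquiv ℕ).symm '' {q : ℕ × ℕ | q.1 ∈ A ∧ q.2 ∈ A ∧ q.1 + q.2 = n} := by
    ext v
    simp only [Set.mem_ofPred_eq, Set.mem_image, Fin.forall_fin_two, Fin.sum_univ_two]
    constructor
    · rintro ⟨⟨h0, h1⟩, h2⟩
      exact ⟨(v 0, v 1), ⟨h0, h1, h2⟩, by ext i; fin_cases i <;> rfl⟩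
    · rintro ⟨q, ⟨h0, h1, h2⟩, rfl⟩
      exact ⟨⟨h0, h1⟩, h2⟩
  rw [h1, Set.ncard_image_of_injective _ (Equiv.injective _)]

/-- the conclusion: a small set, or many representations for all supersets -/
def Dich (A : Set ℕ) : Prop :=
  (∃ (C : ℝ) (k : ℕ), ∀ N : ℕ, ((A ∩ Set.Iic N).ncard : ℝ) ≤ C * Real.log (N + 2) ^ k) ∨
  ∀ B : Set ℕ, A ⊆ B → ∃ c : ℝ, 0 < c ∧ ∀ N₀ : ℕ, ∃ n : ℕ, N₀ ≤ n ∧
    (n : ℝ) ^ c ≤ (Pool.Agent.Results.MP_12a1af_nt.AffineSystems.rep B n : ℝ)

/-- the values of a sequence with a finite `k`-kernel: the dichotomy -/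
lemma dich_of_kernel {α : Type} {k : ℕ} (hk : 2 ≤ k) {u : ℕ → α} (hu : (kernel k u).Finite)
    (a : α) : Dich {n | u n = a} := by
  classical
  have := hu.fintype
  let E : Finset (kernel k u × kernel k u × ℕ × ℤ) :=
    (univ ×ˢ range k).image fun x => (x.1, if hx : x.2 < k then
      (⟨_, kernel_step x.1.2 hx⟩ : kernel k u) else x.1, k, (x.2 : ℤ))
  have hE : ∀ i j q d, (i, j, q, d) ∈ E → 2 ≤ q := by
    intro i j q d h
    simp only [E, Finset.mem_image, Prod.mk.injEq] at h
    obtain ⟨x, _, _, _, h3, _⟩ := h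
    omega
  have hsol : Pool.Agent.Results.MP_12a1af_nt.AffineSystems.IsSolution E (fun _ => ∅)
      (fun v : kernel k u => {n : ℕ | (v : ℕ → α) n = a}) := by
    refine ⟨fun i x hx => absurd hx (Finset.notMem_empty x), ?_, ?_⟩
    · intro i j q d h y hy
      simp only [E, Finset.mem_image, Finset.mem_product, Finset.mem_univ, true_and,
        Finset.mem_range, Prod.mk.injEq] at h
      obtain ⟨⟨x, r⟩, hr, h1, h2, h3, h4⟩ := h
      simp only at hr h1 h2 h3 h4
      rw [dif_pos hr] at h2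
      subst h1 h2 h3 h4
      exact ⟨k * y + r, hy, by push_cast; ring⟩
    · intro i x hx
      right
      have hr : x % k < k := Nat.mod_lt _ (by omega)
      refine ⟨⟨_, kernel_step i.2 hr⟩, k, (x % k : ℕ), ?_, x / k, ?_, ?_⟩
      · refine Finset.mem_image.2 ⟨(i, x % k), ?_, ?_⟩
        · exact Finset.mem_product.2 ⟨Finset.mem_univ _, Finset.mem_range.2 hr⟩
        · simp only
          rw [dif_pos hr]
      · show (i : ℕ → α) (k * (x / k) + x % k) = a
        rw [Nat.div_add_mod]; exact hx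
      · have := Nat.div_add_mod x k
        exact_mod_cast this.symm
  exact (Pool.Agent.Results.MP_12a1af_nt.AffineSystems.result E _ _ hE hsol).1
    ⟨u, mem_kernel_self k u⟩

lemma gf_eq_one_iff {p : ℕ} [hp : Fact p.Prime] (A : Set ℕ) (n : ℕ) :
    PowerSeries.coeff n (gf p A) = 1 ↔ n ∈ A := by
  classical
  rw [gf, PowerSeries.coeff_mk]
  split_ifs with h
  · simp [h]
  · simp [h]

/-- the characteristic function of `A`, modulo `p`, has a finite kernel -/
lemma dich_of_char {p k : ℕ} [hp : Fact p.Prime] (hk : 2 ≤ k) {A : Set ℕ}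
    (hu : (kernel k (fun n => PowerSeries.coeff n (gf p A))).Finite) : Dich A := by
  have h1 := dich_of_kernel hk hu 1
  have h2 : {n | PowerSeries.coeff n (gf p A) = 1} = A := by
    ext n
    exact gf_eq_one_iff A n
  rwa [h2] at h1

/-- the generating function of `A` is algebraic modulo `p` -/
lemma dich_of_algebraic {p h : ℕ} [hp : Fact p.Prime] (hh : 1 ≤ h) {A : Set ℕ}
    (hA : IsAlgebraic (Polynomial (ZMod p)) (PowerSeries.mk fun n => (repH A h n : ZMod p))) :
    Dich A := by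
  rw [← gf_pow] at hA
  obtain ⟨S, hS, hf, hcl⟩ := exists_kernel (hA.of_pow (by omega))
  apply dich_of_char (p := p) hp.out.two_le
  refine (hS.image (fun g : PowerSeries (ZMod p) => fun n => PowerSeries.coeff n g)).subset ?_
  rintro v ⟨e, j, hj, rfl⟩
  -- the elements of the kernel are iterated sections
  have h1 : ∀ e j : ℕ, j < p ^ e → ∃ g ∈ S, ∀ n, PowerSeries.coeff n g =
      PowerSeries.coeff (p ^ e * n + j) (gf p A) := by
    intro e
    induction e with
    | zero =>
      intro j hj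
      exact ⟨gf p A, hf, fun n => by rw [pow_zero] at hj ⊢; congr 2; omega⟩
    | succ e ih =>
      intro j hj
      obtain ⟨g, hg, hgn⟩ := ih (j % p ^ e) (Nat.mod_lt _ (pow_pos hp.out.pos _))
      have h2 : j / p ^ e < p := by
        rw [Nat.div_lt_iff_lt_mul (pow_pos hp.out.pos _), mul_comm, ← pow_succ]
        exact hj
      refine ⟨cart p (j / p ^ e) g, hcl g hg _ h2, fun n => ?_⟩
      rw [coeff_cart, hgn]
      congr 2
      have h3 := Nat.div_add_mod j (p ^ e)
      calc p ^ e * (p * n + j / p ^ e) + j % p ^ e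
          = p ^ (e + 1) * n + (p ^ e * (j / p ^ e) + j % p ^ e) := by rw [pow_succ]; ring
        _ = _ := by rw [h3]
  obtain ⟨g, hg, hgn⟩ := h1 e j hj
  exact ⟨g, hg, by funext n; exact hgn n⟩

/-- the representation function is `p`-automatic modulo `p` -/
lemma dich_of_automatic {p h : ℕ} [hp : Fact p.Prime] (hh : 1 ≤ h) {A : Set ℕ}
    (hA : (kernel p (fun n => (repH A h n : ZMod p))).Finite) : Dich A := by
  apply dich_of_algebraic (p := p) hh
  refine algebraic_of_kernel (S := (fun v : ℕ → ZMod p => PowerSeries.mk v) ''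
    kernel p (fun n => (repH A h n : ZMod p))) (hA.image _) ?_ ⟨_, mem_kernel_self _ _, rfl⟩
  rintro _ ⟨v, hv, rfl⟩ r hr
  refine ⟨_, kernel_step hv hr, ?_⟩
  ext n
  simp [coeff_cart]

/-- a subsequence along the multiples of `P` -/
lemma kernel_mul {α : Type} {k : ℕ} (hk : 1 ≤ k) {u : ℕ → α} (hu : (kernel k u).Finite) (P : ℕ) :
    (kernel k (fun n => u (P * n))).Finite := by
  refine ((Set.finite_Iio P).prod hu |>.image
    (fun x : ℕ × (ℕ → α) => fun n => x.2 (P * n + x.1)) |>.union (Set.finite_singleton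
      (fun _ => u 0))).subset ?_
  rintro v ⟨e, j, hj, rfl⟩
  rcases Nat.eq_zero_or_pos P with hP | hP
  · right
    subst hP
    simp
  left
  have hk0 : 0 < k ^ e := pow_pos hk _
  refine ⟨(P * j / k ^ e, fun n => u (k ^ e * n + P * j % k ^ e)), ⟨?_, ?_⟩, ?_⟩
  · rw [Set.mem_Iio, Nat.div_lt_iff_lt_mul hk0]
    exact Nat.mul_lt_mul_of_pos_left hj hP
  · exact ⟨e, P * j % k ^ e, Nat.mod_lt _ hk0, rfl⟩
  · funext n
    simp only
    congr 1
    have h3 := Nat.div_add_mod (P * j) (k ^ e)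
    calc k ^ e * (P * n + P * j / k ^ e) + P * j % k ^ e
        = P * (k ^ e * n) + (k ^ e * (P * j / k ^ e) + P * j % k ^ e) := by ring
      _ = _ := by rw [h3]; ring

lemma coeff_pow_p_pow {p : ℕ} [hp : Fact p.Prime] (g : PowerSeries (ZMod p)) (j n : ℕ) :
    PowerSeries.coeff (p ^ j * n) (g ^ p ^ j) = PowerSeries.coeff n g := by
  induction j generalizing n with
  | zero => simp
  | succ j ih =>
    rw [pow_succ, pow_mul, coeff_pow_p, if_pos, mul_comm (p ^ j) p, mul_assoc,
      Nat.mul_div_cancel_left _ hp.out.pos, ih]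
    rw [mul_comm (p ^ j) p, mul_assoc]
    exact dvd_mul_right _ _

/-- the `p ^ j`-fold representation function is `k`-automatic modulo `p` -/
lemma dich_of_automatic' {p j k : ℕ} [hp : Fact p.Prime] (hk : 2 ≤ k) {A : Set ℕ}
    (hA : (kernel k (fun n => (repH A (p ^ j) n : ZMod p))).Finite) : Dich A := by
  apply dich_of_char (p := p) hk
  have h1 := kernel_mul (by omega : 1 ≤ k) hA (p ^ j)
  have h2 : (fun n => (fun n => (repH A (p ^ j) n : ZMod p)) (p ^ j * n)) =
      fun n => PowerSeries.coeff n (gf p A) := by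
    funext n
    have h3 := congrArg (PowerSeries.coeff (p ^ j * n)) (gf_pow p A (p ^ j))
    rw [PowerSeries.coeff_mk, coeff_pow_p_pow] at h3
    exact h3.symm
  rwa [h2] at h1

/-- a power series a multiple of which is a polynomial -/
lemma algebraic_of_mul {p : ℕ} [hp : Fact p.Prime] (C : Polynomial (ZMod p)) (hC : C ≠ 0)
    (g : PowerSeries (ZMod p)) (N : ℕ)
    (h : ∀ n, N ≤ n → PowerSeries.coeff n ((C : PowerSeries (ZMod p)) * g) = 0) :
    IsAlgebraic (Polynomial (ZMod p)) g := by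
  classical
  set Q : Polynomial (ZMod p) := PowerSeries.trunc N ((C : PowerSeries (ZMod p)) * g) with hQ
  have h1 : (C : PowerSeries (ZMod p)) * g = Q := by
    ext n
    rw [Polynomial.coeff_coe, hQ, PowerSeries.coeff_trunc]
    split_ifs with hn
    · rfl
    · exact h n (by omega)
  refine ⟨Polynomial.C C * Polynomial.X - Polynomial.C Q, ?_, ?_⟩
  · intro h0
    have h2 := congrArg (fun P : Polynomial (Polynomial (ZMod p)) => P.coeff 1) h0
    simp [Polynomial.coeff_C] at h2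
    exact hC h2
  · rw [map_sub, map_mul, Polynomial.aeval_C, Polynomial.aeval_X, Polynomial.aeval_C]
    exact sub_eq_zero.2 h1

/-- the representation function satisfies a linear recurrence modulo `p` -/
lemma dich_of_recurrence {p h : ℕ} [hp : Fact p.Prime] (hh : 1 ≤ h) {A : Set ℕ} (d N : ℕ)
    (c : ℕ → ZMod p) (hc : ∃ i ≤ d, c i ≠ 0)
    (hA : ∀ n, N ≤ n → ∑ i ∈ range (d + 1), c i * (repH A h (n + i) : ZMod p) = 0) : Dich A := by
  classical
  apply dich_of_algebraic (p := p) hh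
  refine algebraic_of_mul (∑ i ∈ range (d + 1), Polynomial.C (c i) * Polynomial.X ^ (d - i)) ?_ _
    (N + d) ?_
  · obtain ⟨i, hi, hci⟩ := hc
    intro h0
    apply hci
    have h1 := congrArg (fun P : Polynomial (ZMod p) => P.coeff (d - i)) h0
    simp only [Polynomial.finsetSum_coeff, Polynomial.coeff_C_mul_X_pow,
      Polynomial.coeff_zero] at h1
    rw [Finset.sum_eq_single i] at h1
    · simpa using h1
    · intro j hj hji
      rw [Finset.mem_range] at hj
      rw [if_neg]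
      omega
    · intro h5
      exact absurd (Finset.mem_range.2 (by omega)) h5
  · intro n hn
    have h1 : ((∑ i ∈ range (d + 1), Polynomial.C (c i) * Polynomial.X ^ (d - i) :
        Polynomial (ZMod p)) : PowerSeries (ZMod p)) =
        ∑ i ∈ range (d + 1), PowerSeries.C (c i) * PowerSeries.X ^ (d - i) := by
      rw [← Polynomial.coeToPowerSeries.ringHom_apply, map_sum]
      apply Finset.sum_congr rfl
      intro i _
      rw [Polynomial.coeToPowerSeries.ringHom_apply, Polynomial.coe_mul, Polynomial.coe_C,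
        Polynomial.coe_pow, Polynomial.coe_X]
    rw [h1, Finset.sum_mul, map_sum]
    have h2 := hA (n - d) (by omega)
    rw [← h2]
    apply Finset.sum_congr rfl
    intro i hi
    rw [Finset.mem_range] at hi
    rw [mul_assoc, PowerSeries.coeff_C_mul, PowerSeries.coeff_X_pow_mul', if_pos (by omega),
      PowerSeries.coeff_mk]
    congr 3
    omega

/-- the representation function is eventually periodic modulo `m` -/
lemma dich_of_periodic {m h t N : ℕ} (hm : 2 ≤ m) (hh : 1 ≤ h) (ht : 1 ≤ t) {A : Set ℕ}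
    (hA : ∀ n, N ≤ n → repH A h (n + t) ≡ repH A h n [MOD m]) : Dich A := by
  obtain ⟨p, hp, hpm⟩ := Nat.exists_prime_and_dvd (by omega : m ≠ 1)
  have := Fact.mk hp
  refine dich_of_recurrence (p := p) hh t N (fun i => if i = t then 1 else if i = 0 then -1 else 0)
    ⟨t, le_rfl, by simp⟩ ?_
  intro n hn
  have h1 : ((repH A h (n + t) : ℕ) : ZMod p) = (repH A h n : ℕ) :=
    (ZMod.natCast_eq_natCast_iff _ _ _).2 ((hA n hn).of_dvd hpm)
  rw [Finset.sum_range_succ, Finset.sum_eq_single 0]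
  · rw [if_neg (by omega), if_pos rfl, if_pos rfl, h1, add_zero]
    ring
  · intro i hi hi0
    rw [Finset.mem_range] at hi
    rw [if_neg (by omega), if_neg hi0, zero_mul]
  · intro h0
    exact absurd (Finset.mem_range.2 (by omega)) h0

/-- a regular sequence is automatic modulo `p` -/
lemma kernel_finite_of_regular {p k : ℕ} [hp : Fact p.Prime] {u : ℕ → ℕ}
    (hu : (Submodule.span ℤ (kernel k (fun n => (u n : ℤ)))).FG) :
    (kernel k (fun n => (u n : ZMod p))).Finite := by
  classical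
  obtain ⟨t, ht⟩ := hu
  let ρ : (ℕ → ℤ) → (ℕ → ZMod p) := fun v n => (v n : ZMod p)
  have h1 : ∀ v ∈ Submodule.span ℤ (t : Set (ℕ → ℤ)),
      ρ v ∈ Submodule.span (ZMod p) ((t.image ρ : Finset (ℕ → ZMod p)) : Set (ℕ → ZMod p)) := by
    intro v hv
    induction hv using Submodule.span_induction with
    | mem x hx => exact Submodule.subset_span (Finset.mem_coe.2 (Finset.mem_image_of_mem ρ hx))
    | zero =>
      have : ρ 0 = 0 := by funext n; simp [ρ]
      rw [this]; exact Submodule.zero_mem _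
    | add x y _ _ hx hy =>
      have : ρ (x + y) = ρ x + ρ y := by funext n; simp [ρ]
      rw [this]; exact Submodule.add_mem _ hx hy
    | smul a x _ hx =>
      have : ρ (a • x) = (a : ZMod p) • ρ x := by funext n; simp [ρ]
      rw [this]; exact Submodule.smul_mem _ _ hx
  have h2 : Finite (Submodule.span (ZMod p)
      ((t.image ρ : Finset (ℕ → ZMod p)) : Set (ℕ → ZMod p))) :=
    Module.finite_of_finite (ZMod p)
  refine (Set.toFinite ((Submodule.span (ZMod p)
      ((t.image ρ : Finset (ℕ → ZMod p)) : Set (ℕ → ZMod p)) : Submodule (ZMod p) (ℕ → ZMod p)) :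
      Set (ℕ → ZMod p))).subset ?_
  rintro v ⟨e, j, hj, rfl⟩
  have h3 := h1 (fun n => (u (k ^ e * n + j) : ℤ)) (by
    rw [ht]
    exact Submodule.subset_span ⟨e, j, hj, rfl⟩)
  have h4 : ρ (fun n => (u (k ^ e * n + j) : ℤ)) = fun n => (u (k ^ e * n + j) : ZMod p) := by
    funext n; simp [ρ]
  rw [h4] at h3
  exact h3

/-- a relation with complex coefficients implies one with integral coefficients -/
lemma integral_relation (u : ℕ → ℕ) (d N : ℕ) (P : ℕ → Polynomial ℂ) (hP : ∃ i ≤ d, P i ≠ 0)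
    (hA : ∀ n, N ≤ n → ∑ i ∈ range (d + 1), (P i).eval (n : ℂ) * (u (n + i) : ℂ) = 0) :
    ∃ (D : ℕ) (a : ℕ → ℕ → ℤ), (∃ i ≤ d, a i D ≠ 0) ∧
      ∀ n, N ≤ n → ∑ i ∈ range (d + 1), ∑ j ∈ range (D + 1), a i j * n ^ j * u (n + i) = 0 := by
  classical
  obtain ⟨i₀, hi₀, hPi⟩ := hP
  obtain ⟨j₀, hj₀⟩ : ∃ j, (P i₀).coeff j ≠ 0 := by
    by_contra hcon
    push Not at hcon
    exact hPi (Polynomial.ext (by simpa using hcon))
  obtain ⟨φ, hφ⟩ : ∃ φ : Module.Dual ℚ ℂ, φ ((P i₀).coeff j₀) ≠ 0 := by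
    by_contra hcon
    push Not at hcon
    exact hj₀ ((Module.forall_dual_apply_eq_zero_iff ℚ _).1 hcon)
  set D' := (range (d + 1)).sup (fun i => (P i).natDegree) with hD'
  have hdeg : ∀ i ≤ d, (P i).natDegree ≤ D' := fun i hi =>
    Finset.le_sup (f := fun i => (P i).natDegree) (Finset.mem_range.2 (by omega))
  -- the rational relation
  have h1 : ∀ n, N ≤ n → ∑ i ∈ range (d + 1), ∑ j ∈ range (D' + 1),
      φ ((P i).coeff j) * (n : ℚ) ^ j * (u (n + i) : ℚ) = 0 := by
    intro n hn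
    have h2 := congrArg φ (hA n hn)
    rw [map_sum, map_zero] at h2
    rw [← h2]
    apply Finset.sum_congr rfl
    intro i hi
    rw [Finset.mem_range] at hi
    rw [Polynomial.eval_eq_sum_range' (Nat.lt_succ_of_le (hdeg i (by omega))), Finset.sum_mul,
      map_sum]
    apply Finset.sum_congr rfl
    intro j _
    have h3 : (P i).coeff j * (n : ℂ) ^ j * (u (n + i) : ℂ) =
        (((n : ℚ) ^ j * (u (n + i) : ℚ)) : ℚ) • (P i).coeff j := by
      rw [Algebra.smul_def]
      push_cast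
      ring
    rw [h3, map_smul, smul_eq_mul]
    ring
  -- the largest exponent with a nonzero coefficient
  set p : ℕ → Prop := fun j => ∃ i ≤ d, φ ((P i).coeff j) ≠ 0 with hp
  have hj₀D : j₀ ≤ D' := by
    refine (Polynomial.le_natDegree_of_ne_zero hj₀).trans (hdeg i₀ hi₀)
  set D := Nat.findGreatest p D' with hD
  have hpD : p D := Nat.findGreatest_spec (P := p) hj₀D ⟨i₀, hi₀, hφ⟩
  have hDD' : D ≤ D' := Nat.findGreatest_le D'
  have hgt : ∀ j, D < j → j ≤ D' → ∀ i ≤ d, φ ((P i).coeff j) = 0 := by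
    intro j hj1 hj2 i hi
    by_contra hne
    exact Nat.findGreatest_is_greatest hj1 hj2 ⟨i, hi, hne⟩
  -- clear denominators
  set M : ℕ := ∏ i ∈ range (d + 1), ∏ j ∈ range (D' + 1), (φ ((P i).coeff j)).den with hM
  have hM0 : (M : ℚ) ≠ 0 := by
    rw [hM]
    push_cast
    apply Finset.prod_ne_zero_iff.2
    intro i _
    apply Finset.prod_ne_zero_iff.2
    intro j _
    exact_mod_cast (φ ((P i).coeff j)).den_ne_zero
  have hint : ∀ i ≤ d, ∀ j ≤ D', ((φ ((P i).coeff j) * M).num : ℚ) = φ ((P i).coeff j) * M := by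
    intro i hi j hj
    have h2 : (φ ((P i).coeff j)).den ∣ M := by
      rw [hM]
      refine dvd_trans ?_ (Finset.dvd_prod_of_mem _ (Finset.mem_range.2 (by omega : i < d + 1)))
      exact Finset.dvd_prod_of_mem (fun j => (φ ((P i).coeff j)).den)
        (Finset.mem_range.2 (by omega : j < D' + 1))
    obtain ⟨w, hw⟩ := h2
    have h3 : φ ((P i).coeff j) * M = (((φ ((P i).coeff j)).num * w : ℤ) : ℚ) := by
      rw [hw]
      push_cast
      rw [← mul_assoc, Rat.mul_den_eq_num]
    rw [h3, Rat.num_intCast]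
  refine ⟨D, fun i j => (φ ((P i).coeff j) * M).num, ?_, ?_⟩
  · obtain ⟨i, hi, hne⟩ := hpD
    refine ⟨i, hi, ?_⟩
    intro h0
    beta_reduce at h0
    have h2 := hint i hi D hDD'
    rw [h0, Int.cast_zero] at h2
    exact (mul_ne_zero hne hM0) h2.symm
  · intro n hn
    have h2 : ((∑ i ∈ range (d + 1), ∑ j ∈ range (D + 1),
        (φ ((P i).coeff j) * M).num * (n : ℤ) ^ j * (u (n + i) : ℤ) : ℤ) : ℚ) = 0 := by
      push_cast
      have h3 := congrArg (fun x : ℚ => (M : ℚ) * x) (h1 n hn)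
      simp only [mul_zero] at h3
      rw [← h3, Finset.mul_sum]
      apply Finset.sum_congr rfl
      intro i hi
      rw [Finset.mem_range] at hi
      rw [Finset.mul_sum]
      have h4 : ∑ j ∈ range (D' + 1), (M : ℚ) * (φ ((P i).coeff j) * (n : ℚ) ^ j *
          (u (n + i) : ℚ)) = ∑ j ∈ range (D + 1), (M : ℚ) * (φ ((P i).coeff j) * (n : ℚ) ^ j *
          (u (n + i) : ℚ)) := by
        symm
        apply Finset.sum_subset
        · intro j hj
          rw [Finset.mem_range] at hj ⊢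
          omega
        · intro j hj1 hj2
          rw [Finset.mem_range] at hj1 hj2
          rw [hgt j (by omega) (by omega) i (by omega)]
          ring
      rw [h4]
      apply Finset.sum_congr rfl
      intro j hj
      rw [Finset.mem_range] at hj
      rw [hint i (by omega) j (by omega)]
      ring
    exact_mod_cast h2

/-- a slowly growing sequence which satisfies a relation with polynomial coefficients satisfies a
relation with constant coefficients -/
lemma constant_relation (u : ℕ → ℕ) (d N D : ℕ) (a : ℕ → ℕ → ℤ)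
    (hA : ∀ n, N ≤ n → ∑ i ∈ range (d + 1), ∑ j ∈ range (D + 1), a i j * n ^ j * u (n + i) = 0)
    (hu : ∀ n, N ≤ n → u n * u n < n) :
    ∃ N', ∀ n, N' ≤ n → ∑ i ∈ range (d + 1), a i D * u (n + i) = 0 := by
  classical
  set K : ℕ := ∑ i ∈ range (d + 1), ∑ j ∈ range D, (a i j).natAbs with hK
  refine ⟨N + K ^ 2 * (d + 1) ^ 2 * (d + 1) + 1, fun n hn => ?_⟩
  have hnN : N ≤ n := by omega
  have hn1 : 1 ≤ n := by omega
  set g : ℤ := ∑ i ∈ range (d + 1), a i D * u (n + i) with hg
  by_contra hne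
  -- the rest of the relation
  have h1 : g * (n : ℤ) ^ D = - ∑ i ∈ range (d + 1), ∑ j ∈ range D, a i j * n ^ j * u (n + i) := by
    have h2 := hA n hnN
    simp only [Finset.sum_range_succ _ D, Finset.sum_add_distrib] at h2
    rw [hg, Finset.sum_mul]
    have h3 : ∑ i ∈ range (d + 1), a i D * (u (n + i) : ℤ) * (n : ℤ) ^ D =
        ∑ i ∈ range (d + 1), a i D * (n : ℤ) ^ D * u (n + i) := by
      apply Finset.sum_congr rfl
      intro i _
      ring
    rw [h3]
    linarith
  set s := Nat.sqrt (n + d) with hs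
  have hus : ∀ i ∈ range (d + 1), u (n + i) ≤ s := by
    intro i hi
    rw [Finset.mem_range] at hi
    rw [hs, Nat.le_sqrt]
    have := hu (n + i) (by omega)
    omega
  have h2 : (n : ℤ) * (|g| * (n : ℤ) ^ D) ≤ (n : ℤ) ^ D * (K * s : ℕ) := by
    have h3 : |g| * (n : ℤ) ^ D = |g * (n : ℤ) ^ D| := by
      rw [abs_mul, abs_of_nonneg (by positivity : (0 : ℤ) ≤ (n : ℤ) ^ D)]
    rw [h3, h1, abs_neg]
    have h4 : |∑ i ∈ range (d + 1), ∑ j ∈ range D, a i j * (n : ℤ) ^ j * u (n + i)| ≤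
        ∑ i ∈ range (d + 1), ∑ j ∈ range D, |a i j| * (n : ℤ) ^ j * s := by
      refine (Finset.abs_sum_le_sum_abs _ _).trans (Finset.sum_le_sum fun i hi => ?_)
      refine (Finset.abs_sum_le_sum_abs _ _).trans (Finset.sum_le_sum fun j hj => ?_)
      rw [abs_mul, abs_mul, abs_of_nonneg (by positivity : (0 : ℤ) ≤ (n : ℤ) ^ j),
        abs_of_nonneg (by positivity : (0 : ℤ) ≤ (u (n + i) : ℤ))]
      have := hus i hi
      have h5 : (u (n + i) : ℤ) ≤ s := by exact_mod_cast this
      exact mul_le_mul_of_nonneg_left h5 (by positivity)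
    calc (n : ℤ) * |∑ i ∈ range (d + 1), ∑ j ∈ range D, a i j * (n : ℤ) ^ j * u (n + i)|
        ≤ (n : ℤ) * ∑ i ∈ range (d + 1), ∑ j ∈ range D, |a i j| * (n : ℤ) ^ j * s :=
          mul_le_mul_of_nonneg_left h4 (by positivity)
      _ ≤ ∑ i ∈ range (d + 1), ∑ j ∈ range D, |a i j| * (n : ℤ) ^ D * s := by
          rw [Finset.mul_sum]
          refine Finset.sum_le_sum fun i hi => ?_
          rw [Finset.mul_sum]
          refine Finset.sum_le_sum fun j hj => ?_
          rw [Finset.mem_range] at hj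
          have h6 : (n : ℤ) ^ (j + 1) ≤ (n : ℤ) ^ D :=
            pow_le_pow_right₀ (by exact_mod_cast hn1) (by omega)
          calc (n : ℤ) * (|a i j| * (n : ℤ) ^ j * s) = |a i j| * (n : ℤ) ^ (j + 1) * s := by ring
            _ ≤ |a i j| * (n : ℤ) ^ D * s :=
              mul_le_mul_of_nonneg_right (mul_le_mul_of_nonneg_left h6 (abs_nonneg _))
                (by positivity)
      _ = (n : ℤ) ^ D * (K * s : ℕ) := by
          rw [hK]
          push_cast
          rw [Finset.sum_mul, Finset.mul_sum]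
          refine Finset.sum_congr rfl fun i _ => ?_
          rw [Finset.sum_mul, Finset.mul_sum]
          refine Finset.sum_congr rfl fun j _ => ?_
          ring
  have h3 : (n : ℤ) ≤ (K * s : ℕ) := by
    have hgpos : 1 ≤ |g| := Int.one_le_abs hne
    have hpos : (0 : ℤ) < (n : ℤ) ^ D := by positivity
    have h4 : (n : ℤ) ^ D * (n : ℤ) ≤ (n : ℤ) ^ D * (K * s : ℕ) := by
      refine le_trans ?_ h2
      have h5 : (n : ℤ) * (1 * (n : ℤ) ^ D) ≤ (n : ℤ) * (|g| * (n : ℤ) ^ D) :=
        mul_le_mul_of_nonneg_left (mul_le_mul_of_nonneg_right hgpos hpos.le) (by positivity)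
      calc (n : ℤ) ^ D * (n : ℤ) = (n : ℤ) * (1 * (n : ℤ) ^ D) := by ring
        _ ≤ _ := h5
    exact le_of_mul_le_mul_left h4 hpos
  have h4 : n ≤ K * s := by exact_mod_cast h3
  have h5 : s * s ≤ n + d := Nat.sqrt_le (n + d)
  have h6 : n * n ≤ K ^ 2 * (n + d) := by
    calc n * n ≤ (K * s) * (K * s) := Nat.mul_le_mul h4 h4
      _ = K ^ 2 * (s * s) := by ring
      _ ≤ K ^ 2 * (n + d) := Nat.mul_le_mul_left _ h5
  have h7 : K ^ 2 * (n + d) ≤ K ^ 2 * (n * (d + 1)) := by
    apply Nat.mul_le_mul_left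
    nlinarith
  have h8 : n * n ≤ n * (K ^ 2 * (d + 1)) := by
    calc n * n ≤ K ^ 2 * (n * (d + 1)) := h6.trans h7
      _ = n * (K ^ 2 * (d + 1)) := by ring
  have h9 : n ≤ K ^ 2 * (d + 1) := Nat.le_of_mul_le_mul_left h8 hn1
  have h10 : K ^ 2 * (d + 1) ≤ K ^ 2 * (d + 1) ^ 2 * (d + 1) := by
    have : 1 ≤ (d + 1) ^ 2 := Nat.one_le_pow _ _ (by omega)
    calc K ^ 2 * (d + 1) = K ^ 2 * 1 * (d + 1) := by ring
      _ ≤ K ^ 2 * (d + 1) ^ 2 * (d + 1) :=
        Nat.mul_le_mul_right _ (Nat.mul_le_mul_left _ this)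
  omega

lemma rep_mono {A B : Set ℕ} (h : A ⊆ B) (n : ℕ) :
    Pool.Agent.Results.MP_12a1af_nt.AffineSystems.rep A n ≤
      Pool.Agent.Results.MP_12a1af_nt.AffineSystems.rep B n := by
  rw [Pool.Agent.Results.MP_12a1af_nt.AffineSystems.rep,
    Pool.Agent.Results.MP_12a1af_nt.AffineSystems.rep]
  apply Set.ncard_le_ncard
  · rintro ⟨x, y⟩ ⟨h1, h2, h3⟩
    exact ⟨h h1, h h2, h3⟩
  · refine Set.Finite.subset ((Set.finite_Iic n).prod (Set.finite_Iic n)) ?_
    rintro ⟨x, y⟩ ⟨_, _, h3⟩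
    simp only at h3
    exact ⟨by rw [Set.mem_Iic]; omega, by rw [Set.mem_Iic]; omega⟩

/-- the representation function is P-recursive -/
lemma dich_of_precursive {A : Set ℕ} (d N : ℕ) (P : ℕ → Polynomial ℂ) (hP : ∃ i ≤ d, P i ≠ 0)
    (hA : ∀ n, N ≤ n → ∑ i ∈ range (d + 1), (P i).eval (n : ℂ) *
      (Pool.Agent.Results.MP_12a1af_nt.AffineSystems.rep A (n + i) : ℂ) = 0) : Dich A := by
  classical
  obtain ⟨D, a, ⟨i₀, hi₀, hai⟩, ha⟩ := integral_relation _ d N P hP hA
  by_cases hgr : ∀ N₀ : ℕ, ∃ n : ℕ, N₀ ≤ n ∧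
      n ≤ Pool.Agent.Results.MP_12a1af_nt.AffineSystems.rep A n *
        Pool.Agent.Results.MP_12a1af_nt.AffineSystems.rep A n
  · right
    intro B hB
    refine ⟨1 / 2, by norm_num, fun N₀ => ?_⟩
    obtain ⟨n, hn, hle⟩ := hgr N₀
    refine ⟨n, hn, ?_⟩
    have h1 : (n : ℝ) ≤ (Pool.Agent.Results.MP_12a1af_nt.AffineSystems.rep A n : ℝ) ^ 2 := by
      rw [pow_two]; exact_mod_cast hle
    have h2 : (n : ℝ) ^ (1 / 2 : ℝ) ≤ Pool.Agent.Results.MP_12a1af_nt.AffineSystems.rep A n := by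
      rw [← Real.sqrt_eq_rpow]
      exact Real.sqrt_le_iff.2 ⟨by positivity, h1⟩
    have h3 := rep_mono hB n
    exact h2.trans (by exact_mod_cast h3)
  · push Not at hgr
    obtain ⟨N₁, hN₁⟩ := hgr
    obtain ⟨N', hN'⟩ := constant_relation
      (Pool.Agent.Results.MP_12a1af_nt.AffineSystems.rep A) d (max N N₁) D a
      (fun n hn => ha n (le_of_max_le_left hn)) (fun n hn => hN₁ n (le_of_max_le_right hn))
    obtain ⟨p, hp1, hp⟩ := Nat.exists_infinite_primes ((a i₀ D).natAbs + 1)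
    have := Fact.mk hp
    refine dich_of_recurrence (p := p) (h := 2) (by norm_num) d N' (fun i => (a i D : ZMod p))
      ⟨i₀, hi₀, ?_⟩ ?_
    · intro h0
      rw [ZMod.intCast_zmod_eq_zero_iff_dvd] at h0
      have h1 := Int.natAbs_dvd_natAbs.2 h0
      rw [Int.natAbs_natCast] at h1
      have h2 := Nat.le_of_dvd (Int.natAbs_pos.2 hai) h1
      omega
    · intro n hn
      have h1 := congrArg (fun z : ℤ => (z : ZMod p)) (hN' n hn)
      push_cast at h1
      rw [← h1]
      apply Finset.sum_congr rfl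
      intro i _
      rw [repH_two]

/-- a set with `N ^ ε` elements up to `N` infinitely often is not small -/
lemma many_of_dich {A : Set ℕ} (hD : Dich A)
    (hN : ∃ ε : ℝ, 0 < ε ∧ ∀ N₀ : ℕ, ∃ N : ℕ, N₀ ≤ N ∧
      (N : ℝ) ^ ε ≤ ((A ∩ Set.Iic N).ncard : ℝ)) :
    ∃ c : ℝ, 0 < c ∧ ∀ N₀ : ℕ, ∃ n : ℕ, N₀ ≤ n ∧
      (n : ℝ) ^ c ≤ (Pool.Agent.Results.MP_12a1af_nt.AffineSystems.rep A n : ℝ) := by
  rcases hD with ⟨C, k, hC⟩ | hD
  swap
  · exact hD A subset_rfl
  exfalso
  obtain ⟨ε, hε, hN⟩ := hN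
  have h3 : Filter.Tendsto (fun x : ℝ => Real.log x ^ k / x ^ ε) Filter.atTop (nhds 0) := by
    have := isLittleO_log_rpow_rpow_atTop (k : ℝ) hε
    have h4 := this.tendsto_div_nhds_zero
    refine h4.congr' ?_
    filter_upwards with x
    rw [Real.rpow_natCast]
  have h5 : Filter.Tendsto (fun N : ℕ => (N : ℝ) + 2) Filter.atTop Filter.atTop :=
    Filter.tendsto_atTop_add_const_right _ _ tendsto_natCast_atTop_atTop
  have h6 := (h3.comp h5).const_mul |C|
  rw [mul_zero] at h6
  have h4 : (0 : ℝ) < 1 / 3 ^ ε := by positivity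
  obtain ⟨N₁, hN₁⟩ := Filter.eventually_atTop.1 (h6.eventually_lt_const h4)
  obtain ⟨N, hNN, hNc⟩ := hN (max N₁ 1)
  have hN1 : (1 : ℝ) ≤ N := by exact_mod_cast (le_trans (le_max_right _ _) hNN)
  have h7 := hN₁ N (le_trans (le_max_left _ _) hNN)
  simp only [Function.comp] at h7
  have h8 : ((A ∩ Set.Iic N).ncard : ℝ) ≤ |C| * Real.log (N + 2) ^ k := by
    refine (hC N).trans (mul_le_mul_of_nonneg_right (le_abs_self C) ?_)
    have : 0 ≤ Real.log ((N : ℝ) + 2) := Real.log_nonneg (by linarith)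
    positivity
  have h9 : |C| * Real.log (N + 2) ^ k < ((N : ℝ) + 2) ^ ε / 3 ^ ε := by
    have h10 : (0 : ℝ) < ((N : ℝ) + 2) ^ ε := by positivity
    have h11 : |C| * Real.log (N + 2) ^ k =
        |C| * (Real.log (N + 2) ^ k / ((N : ℝ) + 2) ^ ε) * ((N : ℝ) + 2) ^ ε := by
      field_simp
    rw [h11]
    calc |C| * (Real.log (N + 2) ^ k / ((N : ℝ) + 2) ^ ε) * ((N : ℝ) + 2) ^ ε
        < 1 / 3 ^ ε * ((N : ℝ) + 2) ^ ε := mul_lt_mul_of_pos_right h7 h10
      _ = _ := by ring
  have h12 : ((N : ℝ) + 2) ^ ε / 3 ^ ε ≤ (N : ℝ) ^ ε := by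
    rw [← Real.div_rpow (by positivity) (by norm_num)]
    exact Real.rpow_le_rpow (by positivity) (by linarith) hε.le
  linarith

end Pool.Agent.V8H23.RepSimple
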