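import Mathlib
import Pool.Agent.V8H23.Holo2
import Pool.Agent.V8H23.RepSimple

/-!
# P-recursive sequences of natural numbers with polynomial growth

They are finite unions of strictly increasing polynomial sequences, up to a finite set.
-/

set_option autoImplicit false

namespace Pool.Agent.V8H23.Holo

open Finset Polynomial Filter

/-- a P-recursive sequence with complex coefficients is P-recursive with integral coefficients -/
lemma prec_of_complex {u : ℕ → ℕ} (d N : ℕ) (P : ℕ → ℂ[X]) (hP : ∃ i ≤ d, P i ≠ 0)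
    (h : ∀ n, N ≤ n → ∑ i ∈ range (d + 1), (P i).eval (n : ℂ) * (u (n + i) : ℂ) = 0) :
    PRec (fun n => (u n : ℤ)) := by
  classical
  obtain ⟨D, a, ⟨i₀, hi₀, hai⟩, ha⟩ :=
    Pool.Agent.V8H23.RepSimple.integral_relation u d N P hP h
  refine ⟨d, N, fun i => ∑ j ∈ range (D + 1), C (a i j) * X ^ j, ⟨i₀, hi₀, ?_⟩, fun n hn => ?_⟩
  · intro h0
    apply hai
    have h1 := congrArg (fun p : ℤ[X] => p.coeff D) h0
    simp only [finsetSum_coeff, coeff_C_mul_X_pow, coeff_zero] at h1
    rw [Finset.sum_ite_eq (range (D + 1)) D, if_pos (Finset.mem_range.2 (by omega))] at h1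
    exact h1
  · rw [← ha n hn]
    refine Finset.sum_congr rfl fun i _ => ?_
    rw [eval_finsetSum, Finset.sum_mul]
    refine Finset.sum_congr rfl fun j _ => ?_
    rw [eval_mul, eval_C, eval_pow, eval_X]

/-- a nonzero real polynomial has a constant sign at infinity -/
lemma sign_eventually (q : ℝ[X]) (hq : q ≠ 0) :
    (∀ᶠ x : ℝ in atTop, 0 < q.eval x) ∨ (∀ᶠ x : ℝ in atTop, q.eval x < 0) := by
  rcases lt_or_ge 0 q.degree with hd | hd
  · rcases le_total 0 q.leadingCoeff with h | h
    · left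
      exact (q.tendsto_atTop_of_leadingCoeff_nonneg hd h).eventually_gt_atTop 0
    · right
      exact (q.tendsto_atBot_of_leadingCoeff_nonpos hd h).eventually_lt_atBot 0
  · have h1 := eq_C_of_degree_le_zero hd
    have h2 : q.coeff 0 ≠ 0 := by
      intro h0
      rw [h0, C_0] at h1
      exact hq h1
    rcases lt_or_gt_of_ne h2 with h | h
    · right
      refine Eventually.of_forall fun x => ?_
      rw [h1, eval_C]; exact h
    · left
      refine Eventually.of_forall fun x => ?_
      rw [h1, eval_C]; exact h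

/-- a polynomial sequence of natural numbers is constant or eventually strictly increasing -/
lemma mono_or_const (p : ℝ[X]) (b : ℕ → ℕ) (hb : ∀ t : ℕ, (b t : ℝ) = p.eval (t : ℝ)) :
    (∃ t₀, StrictMono (fun t => b (t + t₀))) ∨ ∀ t, b t = b 0 := by
  have hq : ∀ t : ℕ, (p.comp (X + 1) - p).eval (t : ℝ) = (b (t + 1) : ℝ) - b t := by
    intro t
    rw [eval_sub, eval_comp, hb, hb]
    simp
  by_cases h0 : p.comp (X + 1) - p = 0
  · right
    intro t
    induction t with
    | zero => rfl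
    | succ t ih =>
      have h1 := hq t
      rw [h0, eval_zero] at h1
      have h2 : (b (t + 1) : ℝ) = b t := by linarith
      have h3 : b (t + 1) = b t := by exact_mod_cast h2
      rw [h3, ih]
  · left
    rcases sign_eventually _ h0 with h | h
    · obtain ⟨t₀, ht₀⟩ := eventually_atTop.1 (tendsto_natCast_atTop_atTop.eventually h)
      refine ⟨t₀, strictMono_nat_of_lt_succ fun t => ?_⟩
      have h1 := ht₀ (t + t₀) (by omega)
      rw [hq] at h1
      have h2 : (b (t + t₀) : ℝ) < b (t + t₀ + 1) := by linarith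
      have h3 : t + 1 + t₀ = t + t₀ + 1 := by omega
      rw [h3]
      exact_mod_cast h2
    · exfalso
      obtain ⟨t₀, ht₀⟩ := eventually_atTop.1 (tendsto_natCast_atTop_atTop.eventually h)
      have h1 : ∀ n, b (t₀ + n) + n ≤ b t₀ := by
        intro n
        induction n with
        | zero => simp
        | succ n ih =>
          have h1 := ht₀ (t₀ + n) (by omega)
          rw [hq] at h1
          have h2 : (b (t₀ + n + 1) : ℝ) < b (t₀ + n) := by linarith
          have h3 : b (t₀ + n + 1) < b (t₀ + n) := by exact_mod_cast h2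
          have h4 : t₀ + (n + 1) = t₀ + n + 1 := by omega
          rw [h4]
          omega
      have := h1 (b t₀ + 1)
      omega

/-- a strictly increasing polynomial sequence grows at least quadratically, or it is an arithmetic
progression -/
lemma quad_or_linear (p : ℝ[X]) (b : ℕ → ℕ) (hb : ∀ t : ℕ, (b t : ℝ) = p.eval (t : ℝ))
    (hm : StrictMono b) :
    (∃ C : ℕ, ∀ t, t ^ 2 ≤ C * (b t + 1)) ∨ ∃ α β : ℕ, 1 ≤ α ∧ ∀ t, b t = α * t + β := by
  rcases le_or_gt 2 p.degree with hd | hd
  · left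
    have h1 : (fun x : ℝ => eval x (X ^ 2 : ℝ[X])) =O[atTop] fun x => eval x p := by
      apply isBigO_atTop_of_degree_le
      rw [degree_X_pow]; exact hd
    obtain ⟨c, hc⟩ := h1.bound
    obtain ⟨T, hT⟩ := eventually_atTop.1 (tendsto_natCast_atTop_atTop.eventually hc)
    refine ⟨⌈c⌉₊ + T ^ 2, fun t => ?_⟩
    rcases le_or_gt T t with ht | ht
    · have h2 := hT t ht
      rw [eval_pow, eval_X, ← hb t] at h2
      have h3 : (t : ℝ) ^ 2 ≤ (⌈c⌉₊ : ℝ) * (b t : ℝ) := by
        rw [Real.norm_of_nonneg (by positivity), Real.norm_of_nonneg (by positivity)] at h2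
        exact h2.trans (mul_le_mul_of_nonneg_right (Nat.le_ceil c) (by positivity))
      have h4 : t ^ 2 ≤ ⌈c⌉₊ * b t := by exact_mod_cast h3
      calc t ^ 2 ≤ ⌈c⌉₊ * b t := h4
        _ ≤ (⌈c⌉₊ + T ^ 2) * (b t + 1) := Nat.mul_le_mul (by omega) (by omega)
    · calc t ^ 2 ≤ T ^ 2 := Nat.pow_le_pow_left ht.le 2
        _ = T ^ 2 * 1 := (mul_one _).symm
        _ ≤ (⌈c⌉₊ + T ^ 2) * (b t + 1) := Nat.mul_le_mul (by omega) (by omega)
  · right
    have hd1 : p.degree ≤ 1 := by
      have : p.degree < ((1 + 1 : ℕ) : WithBot ℕ) := by exact_mod_cast hd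
      exact Order.le_of_lt_succ (by exact_mod_cast this)
    have h1 := eq_X_add_C_of_degree_le_one hd1
    have h2 : ∀ t : ℕ, (b t : ℝ) = p.coeff 1 * t + p.coeff 0 := by
      intro t
      rw [hb t]
      conv_lhs => rw [h1]
      simp
    have h3 : b 0 < b 1 := hm one_pos
    refine ⟨b 1 - b 0, b 0, by omega, fun t => ?_⟩
    have h4 := h2 0
    have h5 := h2 1
    have h6 := h2 t
    have h7 : (b t : ℝ) = ((b 1 : ℝ) - b 0) * t + b 0 := by
      rw [h4, h5, h6]; push_cast; ring
    have h8 : (((b 1 - b 0 : ℕ) : ℕ) : ℝ) = (b 1 : ℝ) - b 0 := by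
      push_cast [h3.le]; ring
    rw [← h8] at h7
    exact_mod_cast h7

/-- one P-recursive sequence -/
lemma single {u : ℕ → ℕ} (hu : PRec (fun n => (u n : ℤ))) {k : ℕ}
    (hg : Gr k (fun n => (u n : ℤ))) :
    ∃ (ι : Type) (_ : Fintype ι) (b : ι → ℕ → ℕ) (p : ι → ℝ[X]) (F : Finset ℕ),
      (∀ x, StrictMono (b x)) ∧ (∀ x (t : ℕ), (b x t : ℝ) = (p x).eval (t : ℝ)) ∧
      (∀ x t, ∃ n, u n = b x t) ∧ ∀ n, u n ∈ F ∨ ∃ x t, b x t = u n := by
  classical
  obtain ⟨L, N, s, p, hL, _, hp⟩ := exists_poly hu hg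
  let c : Fin L → ℕ → ℕ := fun j t => u (N + j + L * t)
  have hc : ∀ (j : Fin L) (t : ℕ), (c j t : ℝ) = (p j).eval (t : ℝ) := by
    intro j t
    rw [← hp j t]
    simp [c]
  let ι := {j : Fin L // ∃ t₀, StrictMono (fun t => c j (t + t₀))}
  choose t₀ ht₀ using fun x : ι => x.2
  have hconst : ∀ j : Fin L, (¬ ∃ t₀, StrictMono (fun t => c j (t + t₀))) → ∀ t, c j t = c j 0 := by
    intro j hj
    exact (mono_or_const (p j) (c j) (hc j)).resolve_left hj
  refine ⟨ι, inferInstance, fun x t => c x.1 (t + t₀ x),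
    fun x => (p x.1).comp (X + C ((t₀ x : ℕ) : ℝ)),
    (range N).image u ∪ univ.image (fun j : Fin L => c j 0) ∪
      (univ : Finset ι).biUnion (fun x => (range (t₀ x)).image (c x.1)), ht₀, ?_, ?_, ?_⟩
  · intro x t
    rw [hc, eval_comp]
    simp
  · intro x t
    exact ⟨_, rfl⟩
  · intro n
    rcases lt_or_ge n N with hn | hn
    · left
      exact Finset.mem_union_left _ (Finset.mem_union_left _
        (Finset.mem_image_of_mem u (Finset.mem_range.2 hn)))
    · have hjL : (n - N) % L < L := Nat.mod_lt _ hL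
      set j : Fin L := ⟨(n - N) % L, hjL⟩ with hj
      have h1 : u n = c j ((n - N) / L) := by
        simp only [c, hj]
        congr 1
        have := Nat.mod_add_div (n - N) L
        omega
      by_cases hjm : ∃ t₀, StrictMono (fun t => c j (t + t₀))
      · rcases lt_or_ge ((n - N) / L) (t₀ ⟨j, hjm⟩) with h2 | h2
        · left
          apply Finset.mem_union_right
          rw [Finset.mem_biUnion]
          exact ⟨⟨j, hjm⟩, Finset.mem_univ _, Finset.mem_image.2
            ⟨_, Finset.mem_range.2 h2, h1.symm⟩⟩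
        · right
          refine ⟨⟨j, hjm⟩, (n - N) / L - t₀ ⟨j, hjm⟩, ?_⟩
          rw [h1]
          simp only
          rw [Nat.sub_add_cancel h2]
      · left
        apply Finset.mem_union_left
        apply Finset.mem_union_right
        rw [h1, hconst j hjm]
        exact Finset.mem_image_of_mem _ (Finset.mem_univ j)

/-- finitely many P-recursive sequences -/
lemma many {m : ℕ} {a : Fin m → ℕ → ℕ} (ha : ∀ i, PRec (fun n => (a i n : ℤ)))
    (hg : ∀ i, ∃ k, Gr k (fun n => (a i n : ℤ))) :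
    ∃ (ι : Type) (_ : Fintype ι) (b : ι → ℕ → ℕ) (p : ι → ℝ[X]) (F : Finset ℕ),
      (∀ x, StrictMono (b x)) ∧ (∀ x (t : ℕ), (b x t : ℝ) = (p x).eval (t : ℝ)) ∧
      (∀ x, ∃ i, ∀ t, ∃ n, a i n = b x t) ∧ ∀ i n, a i n ∈ F ∨ ∃ x t, b x t = a i n := by
  classical
  choose k hk using hg
  choose ι hι b p F h1 h2 h3 h4 using fun i => single (ha i) (hk i)
  refine ⟨Σ i, ι i, inferInstance, fun x => b x.1 x.2, fun x => p x.1 x.2,
    univ.biUnion F, fun x => h1 x.1 x.2, fun x => h2 x.1 x.2, fun x => ⟨x.1, h3 x.1 x.2⟩, ?_⟩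
  intro i n
  rcases h4 i n with h | ⟨x, t, h⟩
  · left
    exact Finset.mem_biUnion.2 ⟨i, Finset.mem_univ i, h⟩
  · right
    exact ⟨⟨i, x⟩, t, h⟩

end Pool.Agent.V8H23.Holo
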