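import Mathlib
import Pool.Agent.V8H23.Holo3
import Pool.Agent.Results.MP_12a1af_nt.QuadraticCoverings

/-!
# The Erdős–Turán problem near P-recursive sequences
-/

set_option autoImplicit false

namespace Pool.Agent.V8H23.HoloET

open Finset Polynomial Filter
open Pool.Agent.Results.MP_12a1af_nt.QuadraticCoverings (rep E)

lemma E_tendsto : Tendsto (fun N : ℕ => E (N : ℝ)) atTop atTop := Pool.Agent.N715.QC.Er_tendsto

lemma E_one (x : ℝ) : 1 ≤ E x := Pool.Agent.N715.QC.Er_one x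

lemma E_big (C : ℝ) (k : ℕ) (hk : k ≤ 50) : ∀ᶠ N : ℕ in atTop, C * E N ^ k ≤ Real.sqrt N :=
  Pool.Agent.N715.QC.big C k hk

/-- the near version, for strictly increasing polynomial sequences -/
lemma near_poly {ι : Type} [Fintype ι] (b : ι → ℕ → ℕ) (p : ι → ℝ[X]) (F : Finset ℕ)
    (hmono : ∀ x, StrictMono (b x)) (hbp : ∀ x (t : ℕ), (b x t : ℝ) = (p x).eval (t : ℝ))
    (hquad : ∀ x, ∃ C : ℕ, ∀ t, t ^ 2 ≤ C * (b x t + 1)) (A : Set ℕ)
    (hA : ∃ᶠ N : ℕ in atTop, Real.sqrt N ≤ E N * ({a : ℕ | a ∈ A ∧ a ≤ N ∧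
      ((∃ x t, |(a : ℝ) - b x t| ≤ E N) ∨ ∃ f ∈ F, |(a : ℝ) - f| ≤ E N)}.ncard : ℝ)) :
    ∃ᶠ s : ℕ in atTop, E s ≤ rep A s := by
  classical
  choose C hC using hquad
  set C₀ : ℕ := ∑ x, C x with hC₀
  have hCle : ∀ x, C x ≤ C₀ := fun x =>
    Finset.single_le_sum (f := C) (fun _ _ => Nat.zero_le _) (Finset.mem_univ x)
  set D : ℕ := (univ : Finset ι).sup (fun x => (p x).natDegree) with hD
  refine Pool.Agent.Results.MP_12a1af_nt.QuadraticCoverings.result.1 D A ?_
  have hev : ∀ᶠ N : ℕ in atTop, (Fintype.card ι : ℝ) + F.card ≤ E N ∧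
      Real.sqrt (3 * C₀ + 3) + 1 ≤ E N ∧ E N ≤ N ∧ ((F.sup id : ℕ) : ℝ) ≤ N ∧ 1 ≤ N := by
    filter_upwards [E_tendsto.eventually_ge_atTop ((Fintype.card ι : ℝ) + F.card),
      E_tendsto.eventually_ge_atTop (Real.sqrt (3 * C₀ + 3) + 1), E_big 1 1 (by norm_num),
      eventually_ge_atTop (F.sup id), eventually_ge_atTop 1] with N h1 h2 h3 h4 h5
    refine ⟨h1, h2, ?_, by exact_mod_cast h4, h5⟩
    have h6 : (1 : ℝ) ≤ N := by exact_mod_cast h5
    have h7 : Real.sqrt N ≤ N := Real.sqrt_le_iff.2 ⟨by positivity, by nlinarith⟩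
    rw [pow_one, one_mul] at h3
    exact h3.trans h7
  refine (hA.and_eventually hev).mono ?_
  rintro N ⟨hAN, hcard, hsqrt, hEN, hF, hN1⟩
  have hN1' : (1 : ℝ) ≤ N := by exact_mod_cast hN1
  have hex : ∀ x : ι, ∃ t, 2 * N < b x t := fun x => ⟨2 * N + 1, by
    have := (hmono x).id_le (2 * N + 1)
    simp only [id] at this
    omega⟩
  let T : ι → ℕ := fun x => Nat.find (hex x)
  have hT1 : ∀ x t, t < T x → b x t ≤ 2 * N := by
    intro x t ht
    have := Nat.find_min (hex x) ht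
    omega
  have hT2 : ∀ x t, b x t ≤ 2 * N → t < T x := by
    intro x t ht
    by_contra hcon
    rw [not_lt] at hcon
    have h1 : 2 * N < b x (T x) := Nat.find_spec (hex x)
    have h2 := (hmono x).monotone hcon
    omega
  have hT3 : ∀ x, (T x : ℝ) ≤ Real.sqrt N * E N := by
    intro x
    have h0 : 1 ≤ Real.sqrt N := Real.one_le_sqrt.2 hN1'
    rcases Nat.eq_zero_or_pos (T x) with h | h
    · rw [h, Nat.cast_zero]
      have := E_one N
      positivity
    · have h1 := hC x (T x - 1)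
      have h2 := hT1 x (T x - 1) (by omega)
      have h3 : (T x - 1) ^ 2 ≤ C₀ * (3 * N) := by
        calc (T x - 1) ^ 2 ≤ C x * (b x (T x - 1) + 1) := h1
          _ ≤ C₀ * (3 * N) := Nat.mul_le_mul (hCle x) (by omega)
      have h4 : ((T x : ℝ) - 1) ^ 2 ≤ C₀ * (3 * N) := by
        have h5 : (((T x - 1 : ℕ) : ℝ)) = (T x : ℝ) - 1 := by
          push_cast [Nat.cast_sub (by omega : 1 ≤ T x)]; ring
        rw [← h5]; exact_mod_cast h3
      have h5 : (T x : ℝ) - 1 ≤ Real.sqrt (3 * C₀ + 3) * Real.sqrt N := by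
        rw [← Real.sqrt_mul (by positivity)]
        apply Real.le_sqrt_of_sq_le
        nlinarith
      calc (T x : ℝ) ≤ Real.sqrt (3 * C₀ + 3) * Real.sqrt N + 1 := by linarith
        _ ≤ Real.sqrt (3 * C₀ + 3) * Real.sqrt N + Real.sqrt N := by linarith
        _ = Real.sqrt N * (Real.sqrt (3 * C₀ + 3) + 1) := by ring
        _ ≤ Real.sqrt N * E N := mul_le_mul_of_nonneg_left hsqrt (Real.sqrt_nonneg _)
  refine ⟨∅, (univ : Finset ι).image (fun x => (p x, T x)) ∪ F.image (fun f : ℕ => ((Polynomial.C (f : ℝ), 1) : ℝ[X] × ℕ)),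
    ?_, ?_, ?_⟩
  · rw [Finset.card_empty, Nat.cast_zero, zero_add]
    refine le_trans ?_ hcard
    have h1 : ((univ : Finset ι).image (fun x => (p x, T x)) ∪
        F.image (fun f : ℕ => ((Polynomial.C (f : ℝ), 1) : ℝ[X] × ℕ))).card ≤ Fintype.card ι + F.card := by
      refine (Finset.card_union_le _ _).trans (Nat.add_le_add ?_ ?_)
      · exact Finset.card_image_le
      · exact Finset.card_image_le
    exact_mod_cast h1
  · intro q hq
    rw [Finset.mem_union, Finset.mem_image, Finset.mem_image] at hq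
    rcases hq with ⟨x, _, rfl⟩ | ⟨f, hf, rfl⟩
    · refine ⟨Finset.le_sup (f := fun x => (p x).natDegree) (Finset.mem_univ x), hT3 x, ?_⟩
      intro t ht
      simp only at ht ⊢
      rw [← hbp x t]
      refine ⟨⟨(b x t : ℤ), by push_cast; rfl⟩, ?_⟩
      rw [abs_of_nonneg (by positivity)]
      exact_mod_cast hT1 x t ht
    · refine ⟨by simp, ?_, ?_⟩
      · simp only [Nat.cast_one]
        have h0 : 1 ≤ Real.sqrt N := Real.one_le_sqrt.2 hN1'
        have := E_one N
        nlinarith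
      · intro t _
        simp only [eval_C]
        refine ⟨⟨(f : ℤ), by push_cast; rfl⟩, ?_⟩
        rw [abs_of_nonneg (by positivity)]
        have h1 : f ≤ F.sup id := Finset.le_sup (f := id) hf
        have h2 : (f : ℝ) ≤ ((F.sup id : ℕ) : ℝ) := by exact_mod_cast h1
        linarith
  · refine hAN.trans (mul_le_mul_of_nonneg_left ?_ (by linarith [E_one N]))
    have hfin : ({a : ℕ | a ∈ A ∧ a ≤ N ∧
        ((∃ p ∈ (∅ : Finset (ℝ × ℝ)), ∃ m : ℕ, (m : ℝ) ≤ Real.sqrt N * E N ∧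
          |(a : ℝ) - (p.1 * m ^ 2 + p.2)| ≤ E N) ∨
        (∃ q ∈ (univ : Finset ι).image (fun x => (p x, T x)) ∪
          F.image (fun f : ℕ => ((Polynomial.C (f : ℝ), 1) : ℝ[X] × ℕ)), ∃ t : ℕ, t < q.2 ∧
            |(a : ℝ) - q.1.eval (t : ℝ)| ≤ E N))}).Finite :=
      (Set.finite_Iic N).subset fun a ha => ha.2.1
    refine Nat.cast_le.2 (Set.ncard_le_ncard ?_ hfin)
    rintro a ⟨ha, haN, h⟩
    refine ⟨ha, haN, Or.inr ?_⟩
    rcases h with ⟨x, t, h⟩ | ⟨f, hf, h⟩
    · refine ⟨(p x, T x), Finset.mem_union_left _ (Finset.mem_image.2 ⟨x, Finset.mem_univ x, rfl⟩),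
        t, ?_, ?_⟩
      · apply hT2
        have h1 := abs_le.1 h
        have h2 : (b x t : ℝ) ≤ 2 * N := by
          have h3 : (a : ℝ) ≤ N := by exact_mod_cast haN
          linarith
        exact_mod_cast h2
      · simp only
        rw [← hbp x t]
        exact h
    · refine ⟨(Polynomial.C (f : ℝ), 1), Finset.mem_union_right _ (Finset.mem_image.2 ⟨f, hf, rfl⟩),
        0, Nat.one_pos, ?_⟩
      simp only [eval_C]
      exact h

/-- the near version for P-recursive sequences with at least quadratic growth -/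
lemma near {m : ℕ} (a : Fin m → ℕ → ℕ) (ha : ∀ i, Holo.PRec (fun n => (a i n : ℤ)))
    (hg : ∀ i, ∃ C k : ℕ, ∀ n, n ^ 2 ≤ C * (a i n + 1) ∧ a i n ≤ C * (n + 1) ^ k) (A : Set ℕ)
    (hA : ∃ᶠ N : ℕ in atTop, Real.sqrt N ≤ E N * ({x : ℕ | x ∈ A ∧ x ≤ N ∧
      ∃ i n, |(x : ℝ) - a i n| ≤ E N}.ncard : ℝ)) :
    ∃ᶠ s : ℕ in atTop, E s ≤ rep A s := by
  classical
  choose C k hCk using hg
  obtain ⟨ι, hι, b, p, F, hmono, hbp, hba, hab⟩ := Holo.many ha (fun i => ⟨k i, (C i : ℤ), fun n => by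
    show |((a i n : ℕ) : ℤ)| ≤ _
    rw [abs_of_nonneg (by positivity)]
    exact_mod_cast (hCk i n).2⟩)
  refine near_poly b p F hmono hbp ?_ A ?_
  · intro x
    rcases Holo.quad_or_linear (p x) (b x) (hbp x) (hmono x) with h | ⟨α, β, hα, h⟩
    · exact h
    · -- an arithmetic progression is not a subset of a set of quadratic growth
      exfalso
      obtain ⟨i, hi⟩ := hba x
      choose ν hν using hi
      -- `ν` is injective and `ν t ^ 2 ≤ C (α t + β + 1)`
      have hinj : Function.Injective ν := by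
        intro t t' htt
        apply (hmono x).injective
        rw [← hν t, ← hν t', htt]
      set M := C i * (α + β + 1) with hM
      have h1 : ∀ t, ν t ^ 2 ≤ M * (t + 1) := by
        intro t
        have h2 := (hCk i (ν t)).1
        rw [hν t, h t] at h2
        calc ν t ^ 2 ≤ C i * (α * t + β + 1) := h2
          _ ≤ C i * ((α + β + 1) * (t + 1)) := Nat.mul_le_mul_left _ (by nlinarith)
          _ = M * (t + 1) := by rw [hM]; ring
      -- the values at `t < T` are distinct and at most `√(M T)`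
      set T := 4 * M + 4 with hT
      set R := Nat.sqrt (M * T) with hR
      have h2 : ∀ t < T, ν t ≤ R := by
        intro t ht
        rw [hR, Nat.le_sqrt, ← sq]
        exact (h1 t).trans (Nat.mul_le_mul_left _ ht)
      have h3 : (range T).image ν ⊆ range (R + 1) := by
        intro y hy
        rw [Finset.mem_image] at hy
        obtain ⟨t, ht, rfl⟩ := hy
        rw [Finset.mem_range] at ht ⊢
        have := h2 t ht
        omega
      have h4 := Finset.card_le_card h3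
      rw [Finset.card_image_of_injective _ hinj, Finset.card_range, Finset.card_range] at h4
      have h5 : R * R ≤ M * T := Nat.sqrt_le (M * T)
      nlinarith
  · refine hA.mono fun N hN => hN.trans (mul_le_mul_of_nonneg_left ?_ (by linarith [E_one N]))
    refine Nat.cast_le.2 (Set.ncard_le_ncard ?_ ((Set.finite_Iic N).subset fun a ha => ha.2.1))
    rintro x ⟨hx, hxN, i, n, h⟩
    refine ⟨hx, hxN, ?_⟩
    rcases hab i n with h1 | ⟨y, t, h1⟩
    · right
      exact ⟨a i n, h1, h⟩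
    · left
      refine ⟨y, t, ?_⟩
      rw [h1]; exact h

/-- arithmetic progressions -/
lemma progression {A : Set ℕ} {α β t₀ : ℕ} (hα : 1 ≤ α) (h : ∀ t, t₀ ≤ t → α * t + β ∈ A) :
    ∃ᶠ s : ℕ in atTop, E s ≤ rep A s := by
  classical
  rw [frequently_atTop]
  intro M₀
  have hev : ∀ᶠ N : ℕ in atTop, (4 * α + 4) * E N ^ 1 ≤ Real.sqrt N := E_big _ 1 (by norm_num)
  obtain ⟨M₁, hM₁⟩ := eventually_atTop.1 hev
  set n := M₀ + M₁ + 2 * t₀ + 2 * β + 4 with hn
  set s := 2 * β + α * (2 * n) with hs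
  have hns : 2 * n ≤ s := by
    have : 2 * n ≤ α * (2 * n) := Nat.le_mul_of_pos_left _ hα
    omega
  refine ⟨s, by omega, ?_⟩
  have h1 := hM₁ s (by omega)
  have h2 : n ≤ rep A s := by
    rw [rep]
    have h3 : ((range n).image (fun t => (α * (t₀ + t) + β, α * (2 * n - (t₀ + t)) + β)) :
        Set (ℕ × ℕ)) ⊆ {p : ℕ × ℕ | p.1 ∈ A ∧ p.2 ∈ A ∧ p.1 + p.2 = s} := by
      intro q hq
      rw [Finset.mem_coe, Finset.mem_image] at hq
      obtain ⟨t, ht, rfl⟩ := hq
      rw [Finset.mem_range] at ht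
      refine ⟨h _ (by omega), h _ (by omega), ?_⟩
      simp only
      have h4 : α * (t₀ + t) + α * (2 * n - (t₀ + t)) = α * (2 * n) := by
        rw [← mul_add]
        congr 1
        omega
      omega
    have hfin : {p : ℕ × ℕ | p.1 ∈ A ∧ p.2 ∈ A ∧ p.1 + p.2 = s}.Finite := by
      refine Set.Finite.subset ((Set.finite_Iic s).prod (Set.finite_Iic s)) ?_
      rintro ⟨x, y⟩ ⟨_, _, h3⟩
      simp only at h3
      exact ⟨by rw [Set.mem_Iic]; omega, by rw [Set.mem_Iic]; omega⟩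
    have h5 := Set.ncard_le_ncard h3 hfin
    rw [Set.ncard_coe_finset, Finset.card_image_of_injective, Finset.card_range] at h5
    · exact h5
    · intro t t' htt
      simp only [Prod.mk.injEq, add_left_inj] at htt
      have := Nat.eq_of_mul_eq_mul_left hα htt.1
      omega
  have hE := E_one (s : ℝ)
  have h6 : (s : ℝ) ≤ (4 * α + 4) * n := by
    have h7 : s ≤ (4 * α + 4) * n := by
      rw [hs]
      nlinarith
    exact_mod_cast h7
  have h7 : E s ≤ Real.sqrt s / (4 * α + 4) := by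
    rw [le_div_iff₀ (by positivity)]
    rw [pow_one] at h1
    linarith
  have h8 : Real.sqrt s ≤ s := by
    have : (1 : ℝ) ≤ s := by
      have : 1 ≤ s := by omega
      exact_mod_cast this
    exact Real.sqrt_le_iff.2 ⟨by positivity, by nlinarith⟩
  calc E s ≤ Real.sqrt s / (4 * α + 4) := h7
    _ ≤ s / (4 * α + 4) := div_le_div_of_nonneg_right h8 (by positivity)
    _ ≤ ((4 * α + 4) * n) / (4 * α + 4) := div_le_div_of_nonneg_right h6 (by positivity)
    _ = n := by field_simp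
    _ ≤ rep A s := by exact_mod_cast h2

/-- the growth of an asymptotic basis, and of the sets of the second question -/
lemma dense {A : Set ℕ} (h : (∃ n₀ : ℕ, ∀ n, n₀ ≤ n → 1 ≤ rep A n) ∨
    (A.Infinite ∧ ∃ C : ℕ, ∀ n, 1 ≤ n → Nat.nth (· ∈ A) (n - 1) ≤ C * n ^ 2)) :
    ∃ K : ℕ, 1 ≤ K ∧ ∀ N, K ≤ N → N ≤ K * (A ∩ Set.Iic N).ncard ^ 2 := by
  classical
  rcases h with ⟨n₀, hn₀⟩ | ⟨hinf, C, hC⟩
  · refine ⟨2 * n₀ + 2, by omega, fun N hN => ?_⟩
    have hfin : (A ∩ Set.Iic N).Finite := (Set.finite_Iic N).subset Set.inter_subset_right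
    have h1 : Finset.Icc n₀ N ⊆ (hfin.toFinset ×ˢ hfin.toFinset).image (fun p => p.1 + p.2) := by
      intro n hn
      rw [Finset.mem_Icc] at hn
      have h2 : 0 < rep A n := hn₀ n hn.1
      rw [rep] at h2
      obtain ⟨⟨a, b⟩, ha, hb, hab⟩ := Set.nonempty_of_ncard_ne_zero h2.ne'
      simp only at ha hb hab
      rw [Finset.mem_image]
      refine ⟨(a, b), Finset.mem_product.2 ⟨?_, ?_⟩, hab⟩
      · rw [Set.Finite.mem_toFinset]
        exact ⟨ha, by rw [Set.mem_Iic]; omega⟩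
      · rw [Set.Finite.mem_toFinset]
        exact ⟨hb, by rw [Set.mem_Iic]; omega⟩
    have h2 := (Finset.card_le_card h1).trans Finset.card_image_le
    rw [Finset.card_product, Nat.card_Icc, ← Set.ncard_eq_toFinset_card _ hfin, ← sq] at h2
    calc N ≤ 2 * (N + 1 - n₀) := by omega
      _ ≤ 2 * (A ∩ Set.Iic N).ncard ^ 2 := by omega
      _ ≤ (2 * n₀ + 2) * (A ∩ Set.Iic N).ncard ^ 2 := Nat.mul_le_mul_right _ (by omega)
  · have hinf' : {x | x ∈ A}.Infinite := hinf
    refine ⟨4 * C + 4, by omega, fun N hN => ?_⟩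
    -- the largest `n` with `C n ^ 2 ≤ N`
    set n := Nat.sqrt (N / (C + 1)) with hn
    have h1 : n * n ≤ N / (C + 1) := Nat.sqrt_le _
    have h2 : N / (C + 1) < (n + 1) * (n + 1) := Nat.lt_succ_sqrt _
    have h3 : N < (n + 1) * (n + 1) * (C + 1) := by
      rwa [Nat.div_lt_iff_lt_mul (by omega)] at h2
    have h4 : n * n * (C + 1) ≤ N := by
      calc n * n * (C + 1) ≤ N / (C + 1) * (C + 1) := Nat.mul_le_mul_right _ h1
        _ ≤ N := Nat.div_mul_le_self _ _
    have hn1 : 1 ≤ n := by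
      rw [hn, Nat.le_sqrt, Nat.le_div_iff_mul_le (by omega)]
      omega
    have hfin : (A ∩ Set.Iic N).Finite := (Set.finite_Iic N).subset Set.inter_subset_right
    have h5 : n ≤ (A ∩ Set.Iic N).ncard := by
      have h6 : (((range n).image (Nat.nth (· ∈ A)) : Finset ℕ) : Set ℕ) ⊆ A ∩ Set.Iic N := by
        intro x hx
        rw [Finset.mem_coe, Finset.mem_image] at hx
        obtain ⟨i, hi, rfl⟩ := hx
        rw [Finset.mem_range] at hi
        refine ⟨Nat.nth_mem_of_infinite hinf' i, ?_⟩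
        have h7 : Nat.nth (· ∈ A) i ≤ Nat.nth (· ∈ A) (n - 1) :=
          (Nat.nth_strictMono hinf').monotone (by omega)
        have h8 := hC n hn1
        rw [Set.mem_Iic]
        calc Nat.nth (· ∈ A) i ≤ C * n ^ 2 := h7.trans h8
          _ ≤ n * n * (C + 1) := by nlinarith
          _ ≤ N := h4
      have h7 := Set.ncard_le_ncard h6 hfin
      rwa [Set.ncard_coe_finset, Finset.card_image_of_injective _ (Nat.nth_injective hinf'),
        Finset.card_range] at h7
    calc N ≤ (n + 1) * (n + 1) * (C + 1) := h3.le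
      _ ≤ (2 * n) * (2 * n) * (C + 1) :=
        Nat.mul_le_mul_right _ (Nat.mul_le_mul (by omega) (by omega))
      _ = (4 * C + 4) * n ^ 2 := by ring
      _ ≤ (4 * C + 4) * (A ∩ Set.Iic N).ncard ^ 2 :=
        Nat.mul_le_mul_left _ (Nat.pow_le_pow_left h5 2)

/-- unions of P-recursive sequences of polynomial growth -/
lemma union {m : ℕ} (a : Fin m → ℕ → ℕ) (ha : ∀ i, Holo.PRec (fun n => (a i n : ℤ)))
    (hg : ∀ i, ∃ C k : ℕ, ∀ n, a i n ≤ C * (n + 1) ^ k) (A : Set ℕ)
    (hA1 : (A \ ⋃ i, Set.range (a i)).Finite) (hA2 : ((⋃ i, Set.range (a i)) \ A).Finite)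
    (h : (∃ n₀ : ℕ, ∀ n, n₀ ≤ n → 1 ≤ rep A n) ∨
      (A.Infinite ∧ ∃ C : ℕ, ∀ n, 1 ≤ n → Nat.nth (· ∈ A) (n - 1) ≤ C * n ^ 2)) :
    ∃ᶠ s : ℕ in atTop, E s ≤ rep A s := by
  classical
  choose C k hCk using hg
  obtain ⟨ι, hι, b, p, F, hmono, hbp, hba, hab⟩ := Holo.many ha (fun i => ⟨k i, (C i : ℤ), fun n => by
    show |((a i n : ℕ) : ℤ)| ≤ _
    rw [abs_of_nonneg (by positivity)]
    exact_mod_cast hCk i n⟩)
  by_cases hlin : ∃ x, ∃ α β : ℕ, 1 ≤ α ∧ ∀ t, b x t = α * t + β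
  · obtain ⟨x, α, β, hα, hx⟩ := hlin
    obtain ⟨i, hi⟩ := hba x
    obtain ⟨M, hM⟩ := hA2.bddAbove
    refine progression (A := A) (α := α) (β := β) (t₀ := M + 1) hα fun t ht => ?_
    by_contra hcon
    have h1 : α * t + β ∈ (⋃ i, Set.range (a i)) \ A := by
      refine ⟨Set.mem_iUnion.2 ⟨i, ?_⟩, hcon⟩
      obtain ⟨n, hn⟩ := hi t
      exact ⟨n, by rw [hn, hx]⟩
    have h2 := hM h1
    have h3 : t ≤ α * t := Nat.le_mul_of_pos_left _ hα
    omega
  · push Not at hlin
    refine near_poly b p (F ∪ hA1.toFinset) hmono hbp ?_ A ?_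
    · intro x
      rcases Holo.quad_or_linear (p x) (b x) (hbp x) (hmono x) with h | ⟨α, β, hα, h⟩
      · exact h
      · obtain ⟨t, ht⟩ := hlin x α β hα
        exact absurd (h t) ht
    · obtain ⟨K, hK1, hK⟩ := dense h
      refine Eventually.frequently ?_
      filter_upwards [eventually_ge_atTop K, E_tendsto.eventually_ge_atTop (Real.sqrt K)]
        with N hN hEN
      have h1 := hK N hN
      have h2 : (A ∩ Set.Iic N) ⊆ {x : ℕ | x ∈ A ∧ x ≤ N ∧
          ((∃ y t, |(x : ℝ) - b y t| ≤ E N) ∨ ∃ f ∈ F ∪ hA1.toFinset, |(x : ℝ) - f| ≤ E N)} := by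
        rintro x ⟨hx, hxN⟩
        refine ⟨hx, hxN, ?_⟩
        have hE0 : 0 ≤ E N := by linarith [E_one N]
        by_cases hxU : x ∈ ⋃ i, Set.range (a i)
        · obtain ⟨i, n, rfl⟩ := Set.mem_iUnion.1 hxU
          rcases hab i n with h3 | ⟨y, t, h3⟩
          · right
            exact ⟨_, Finset.mem_union_left _ h3, by rw [sub_self, abs_zero]; exact hE0⟩
          · left
            exact ⟨y, t, by rw [h3, sub_self, abs_zero]; exact hE0⟩
        · right
          exact ⟨x, Finset.mem_union_right _ (hA1.mem_toFinset.2 ⟨hx, hxU⟩),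
            by rw [sub_self, abs_zero]; exact hE0⟩
      have h3 := Set.ncard_le_ncard h2 ((Set.finite_Iic N).subset fun a ha => ha.2.1)
      have h4 : (N : ℝ) ≤ K * ((A ∩ Set.Iic N).ncard : ℝ) ^ 2 := by exact_mod_cast h1
      have h5 : Real.sqrt N ≤ Real.sqrt K * ((A ∩ Set.Iic N).ncard : ℝ) := by
        have h6 : Real.sqrt K * ((A ∩ Set.Iic N).ncard : ℝ) =
            Real.sqrt (K * ((A ∩ Set.Iic N).ncard : ℝ) ^ 2) := by
          rw [Real.sqrt_mul (by positivity), Real.sqrt_sq (by positivity)]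
        rw [h6]
        exact Real.sqrt_le_sqrt h4
      refine h5.trans ?_
      refine mul_le_mul hEN (Nat.cast_le.2 h3) (by positivity) (by linarith [E_one N])

/-- strictly increasing P-recursive sequences -/
lemma increasing (a : ℕ → ℕ) (hmono : StrictMono a) (ha : Holo.PRec (fun n => (a n : ℤ)))
    (h : (∃ n₀ : ℕ, ∀ n, n₀ ≤ n → 1 ≤ rep (Set.range a) n) ∨
      ((Set.range a).Infinite ∧ ∃ C : ℕ, ∀ n, 1 ≤ n →
        Nat.nth (· ∈ Set.range a) (n - 1) ≤ C * n ^ 2)) :
    ∃ᶠ s : ℕ in atTop, E s ≤ rep (Set.range a) s := by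
  classical
  obtain ⟨K, hK1, hK⟩ := dense h
  have hgr : ∀ n, a n ≤ K * (n + 1) ^ 2 := by
    intro n
    rcases lt_or_ge (a n) K with h1 | h1
    · calc a n ≤ K * 1 := by omega
        _ ≤ K * (n + 1) ^ 2 := Nat.mul_le_mul_left _ (Nat.one_le_pow _ _ (by omega))
    · refine (hK (a n) h1).trans (Nat.mul_le_mul_left _ (Nat.pow_le_pow_left ?_ 2))
      have h2 : Set.range a ∩ Set.Iic (a n) ⊆
          (((range (n + 1)).image a : Finset ℕ) : Set ℕ) := by
        rintro _ ⟨⟨i, rfl⟩, hi⟩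
        rw [Set.mem_Iic] at hi
        have := hmono.le_iff_le.1 hi
        exact Finset.mem_coe.2 (Finset.mem_image_of_mem a (Finset.mem_range.2 (by omega)))
      have h3 := Set.ncard_le_ncard h2 (Finset.finite_toSet _)
      rw [Set.ncard_coe_finset] at h3
      exact h3.trans (Finset.card_image_le.trans (by rw [Finset.card_range]))
  have h1 : (Set.range a \ ⋃ i : Fin 1, Set.range ((fun _ : Fin 1 => a) i)).Finite := by
    refine Set.finite_empty.subset ?_
    rintro x ⟨hx, hx2⟩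
    exact absurd (Set.mem_iUnion.2 ⟨0, hx⟩) hx2
  have h2 : ((⋃ i : Fin 1, Set.range ((fun _ : Fin 1 => a) i)) \ Set.range a).Finite := by
    refine Set.finite_empty.subset ?_
    rintro x ⟨hx, hx2⟩
    obtain ⟨_, hx⟩ := Set.mem_iUnion.1 hx
    exact absurd hx hx2
  exact union (m := 1) (fun _ => a) (fun _ => ha) (fun _ => ⟨K, 2, hgr⟩) (Set.range a) h1 h2 h

end Pool.Agent.V8H23.HoloET
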