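import Mathlib
import Pool.Agent.V8H23.CloseET

/-!
# Boxes in dense subsets of products, and multifold sumsets
-/

set_option autoImplicit false

namespace Pool.Agent.V8H23.Box

open Finset Filter

/-- `E` contains a nondegenerate combinatorial box -/
def HasBox {α : Type} {d : ℕ} (E : Finset (Fin d → α)) : Prop :=
  ∃ x y : Fin d → α, (∀ i, x i ≠ y i) ∧ ∀ s : Fin d → Bool, (fun i => if s i then y i else x i) ∈ E

section

variable {α : Type} [DecidableEq α] {d : ℕ}

/-- the fibre over `x` -/
def fib (E : Finset (Fin (d + 1) → α)) (x : α) : Finset (Fin d → α) :=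
  (E.filter (fun e => e 0 = x)).image (fun e => Fin.tail e)

lemma mem_fib {E : Finset (Fin (d + 1) → α)} {x : α} {y : Fin d → α} :
    y ∈ fib E x ↔ Fin.cons x y ∈ E := by
  unfold fib
  simp only [mem_image, mem_filter]
  constructor
  · rintro ⟨e, ⟨he, hx⟩, rfl⟩
    rw [← hx, Fin.cons_self_tail]
    exact he
  · intro h
    exact ⟨Fin.cons x y, ⟨h, by simp⟩, by simp⟩

lemma box_of_inter {E : Finset (Fin (d + 1) → α)} {x x' : α} (hx : x ≠ x')
    (h : HasBox (fib E x ∩ fib E x')) : HasBox E := by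
  obtain ⟨u, v, huv, h⟩ := h
  refine ⟨Fin.cons x u, Fin.cons x' v, ?_, ?_⟩
  · intro i
    refine Fin.cases ?_ (fun j => ?_) i
    · simpa using hx
    · simpa using huv j
  · intro s
    have h1 := h (fun i => s i.succ)
    rw [mem_inter, mem_fib, mem_fib] at h1
    by_cases hs : s 0
    · convert h1.2 using 1
      ext i
      refine Fin.cases ?_ (fun j => ?_) i
      · simp [hs]
      · simp
    · convert h1.1 using 1
      ext i
      refine Fin.cases ?_ (fun j => ?_) i
      · simp [hs]
      · simp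

lemma card_eq_sum_fib {E : Finset (Fin (d + 1) → α)} {X : Finset α} (hE : ∀ e ∈ E, e 0 ∈ X) :
    E.card = ∑ x ∈ X, (fib E x).card := by
  rw [Finset.card_eq_sum_card_fiberwise (f := fun e : Fin (d + 1) → α => e 0) (t := X)
    (fun e he => hE e he)]
  refine Finset.sum_congr rfl fun x _ => ?_
  unfold fib
  rw [Finset.card_image_of_injOn]
  intro e he e' he' h
  simp only [coe_filter, Set.mem_ofPred_eq] at he he'
  rw [← Fin.cons_self_tail e, ← Fin.cons_self_tail e', he.2, he'.2]
  simp only at h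
  rw [h]

lemma pairs {E : Finset (Fin (d + 1) → α)} {X : Finset α} {Y : Finset (Fin d → α)}
    (hX : ∀ e ∈ E, e 0 ∈ X) (hY : ∀ e ∈ E, Fin.tail e ∈ Y) :
    E.card ^ 2 ≤ Y.card * ∑ x ∈ X, ∑ x' ∈ X, (fib E x ∩ fib E x').card := by
  have h1 : E.card = ∑ y ∈ Y, (X.filter (fun x => y ∈ fib E x)).card := by
    rw [card_eq_sum_fib hX]
    have h2 : ∀ x ∈ X, (fib E x).card = ∑ y ∈ Y, if y ∈ fib E x then 1 else 0 := by
      intro x _
      rw [← Finset.card_filter]
      congr 1
      ext y
      simp only [mem_filter]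
      constructor
      · intro h
        refine ⟨?_, h⟩
        have := hY _ (mem_fib.1 h)
        simpa using this
      · exact fun h => h.2
    rw [Finset.sum_congr rfl h2, Finset.sum_comm]
    refine Finset.sum_congr rfl fun y _ => ?_
    rw [← Finset.card_filter]
  have h3 : ∑ x ∈ X, ∑ x' ∈ X, (fib E x ∩ fib E x').card =
      ∑ y ∈ Y, (X.filter (fun x => y ∈ fib E x)).card ^ 2 := by
    have h4 : ∀ x ∈ X, ∀ x' ∈ X, (fib E x ∩ fib E x').card =
        ∑ y ∈ Y, (if y ∈ fib E x then 1 else 0) * (if y ∈ fib E x' then 1 else 0) := by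
      intro x _ x' _
      have : ∀ y ∈ Y, (if y ∈ fib E x then 1 else 0) * (if y ∈ fib E x' then 1 else 0) =
          if (y ∈ fib E x ∩ fib E x') then 1 else 0 := by
        intro y _
        by_cases h5 : y ∈ fib E x <;> by_cases h6 : y ∈ fib E x' <;> simp [h5, h6]
      rw [Finset.sum_congr rfl this, ← Finset.card_filter]
      congr 1
      ext y
      simp only [mem_filter]
      constructor
      · intro h
        refine ⟨?_, h⟩
        have := hY _ (mem_fib.1 (mem_inter.1 h).1)
        simpa using this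
      · exact fun h => h.2
    rw [Finset.sum_congr rfl (fun x hx => Finset.sum_congr rfl (fun x' hx' => h4 x hx x' hx'))]
    have h5 : ∀ x ∈ X, ∑ x' ∈ X, ∑ y ∈ Y,
        (if y ∈ fib E x then 1 else 0) * (if y ∈ fib E x' then 1 else 0) =
        ∑ y ∈ Y, ∑ x' ∈ X, (if y ∈ fib E x then 1 else 0) * (if y ∈ fib E x' then 1 else 0) :=
      fun x _ => Finset.sum_comm
    rw [Finset.sum_congr rfl h5, Finset.sum_comm]
    refine Finset.sum_congr rfl fun y _ => ?_
    rw [sq, Finset.card_filter, Finset.sum_mul_sum]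
  rw [h3, h1]
  exact sq_sum_le_card_mul_sum_sq

/-- **The box theorem** with an explicit bound -/
theorem box_bound (d : ℕ) : ∀ (X : Fin (d + 1) → Finset α) (E : Finset (Fin (d + 1) → α)) (m : ℕ),
    (∀ i, m ≤ (X i).card) → (∀ e ∈ E, ∀ i, e i ∈ X i) → ¬ HasBox E →
    m * E.card ^ (2 ^ d) ≤ (2 * ∏ i, (X i).card) ^ (2 ^ d) := by
  induction d with
  | zero =>
    intro X E m hm hE hbox
    have h1 : E.card ≤ 1 := by
      rw [Finset.card_le_one]
      intro e he e' he'
      by_contra hne
      apply hbox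
      refine ⟨e, e', ?_, ?_⟩
      · intro i
        fin_cases i
        intro h
        apply hne
        ext i
        fin_cases i
        exact h
      · intro s
        by_cases hs : s 0
        · convert he' using 1
          ext i
          fin_cases i
          simp [hs]
        · convert he using 1
          ext i
          fin_cases i
          simp [hs]
    have h2 := hm 0
    have h3 : ∏ i, (X i).card = (X 0).card := by rw [Fin.prod_univ_succ]; simp
    rw [h3, pow_zero, pow_one, pow_one]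
    calc m * E.card ≤ m * 1 := Nat.mul_le_mul_left _ h1
      _ ≤ 2 * (X 0).card := by omega
  | succ d ih =>
    intro X E m hm hE hbox
    set a := (X 0).card with ha
    set b := ∏ i : Fin (d + 1), (X i.succ).card with hb
    have hprod : ∏ i, (X i).card = a * b := by rw [Fin.prod_univ_succ]
    rw [hprod]
    have hpairs := pairs (E := E) (X := X 0) (Y := Fintype.piFinset (fun i : Fin (d + 1) => X i.succ))
      (fun e he => hE e he 0) (fun e he => by
        rw [Fintype.mem_piFinset]
        intro i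
        exact hE e he i.succ)
    rw [Fintype.card_piFinset, ← hb] at hpairs
    rcases lt_or_ge E.card (2 * b) with hlt | hge
    · calc m * E.card ^ 2 ^ (d + 1) ≤ a * (2 * b) ^ 2 ^ (d + 1) :=
            Nat.mul_le_mul (hm 0) (Nat.pow_le_pow_left hlt.le _)
        _ ≤ a ^ 2 ^ (d + 1) * (2 * b) ^ 2 ^ (d + 1) :=
            Nat.mul_le_mul_right _ (Nat.le_self_pow (by positivity) a)
        _ = (2 * (a * b)) ^ 2 ^ (d + 1) := by rw [← mul_pow]; congr 1; ring
    · -- the maximal intersection
      set M := (m * 0 + ((X 0) ×ˢ (X 0)).sup (fun p => if p.1 ≠ p.2 then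
        (fib E p.1 ∩ fib E p.2).card else 0)) with hM
      have hMle : ∀ x ∈ X 0, ∀ x' ∈ X 0, x ≠ x' → (fib E x ∩ fib E x').card ≤ M := by
        intro x hx x' hx' hne
        have := Finset.le_sup (f := fun p : α × α => if p.1 ≠ p.2 then
          (fib E p.1 ∩ fib E p.2).card else 0) (Finset.mk_mem_product hx hx')
        simp only [ne_eq, hne, not_false_eq_true, if_true] at this
        rw [hM, mul_zero, zero_add]
        exact this
      have hsum : ∑ x ∈ X 0, ∑ x' ∈ X 0, (fib E x ∩ fib E x').card ≤ E.card + a * (a * M) := by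
        rw [card_eq_sum_fib (fun e he => hE e he 0)]
        calc ∑ x ∈ X 0, ∑ x' ∈ X 0, (fib E x ∩ fib E x').card
            ≤ ∑ x ∈ X 0, ((fib E x).card + a * M) := by
              refine Finset.sum_le_sum fun x hx => ?_
              rw [← Finset.add_sum_erase _ _ hx, Finset.inter_self]
              refine Nat.add_le_add_left ?_ _
              calc ∑ x' ∈ (X 0).erase x, (fib E x ∩ fib E x').card
                  ≤ ∑ x' ∈ (X 0).erase x, M := by
                    refine Finset.sum_le_sum fun x' hx' => ?_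
                    rw [Finset.mem_erase] at hx'
                    exact hMle x hx x' hx'.2 (Ne.symm hx'.1)
                _ = ((X 0).erase x).card * M := by rw [Finset.sum_const, smul_eq_mul]
                _ ≤ a * M := Nat.mul_le_mul_right _ (Finset.card_erase_le)
          _ = _ := by rw [Finset.sum_add_distrib, Finset.sum_const, smul_eq_mul]
      have hkey : E.card ^ 2 ≤ 2 * b * a ^ 2 * M := by
        have h1 : E.card ^ 2 ≤ b * (E.card + a * (a * M)) :=
          hpairs.trans (Nat.mul_le_mul_left _ hsum)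
        have h2 : 2 * (b * E.card) ≤ E.card ^ 2 := by nlinarith
        nlinarith
      -- the bound for M
      have hMbound : m * M ^ 2 ^ d ≤ (2 * b) ^ 2 ^ d := by
        rcases Nat.eq_zero_or_pos M with h0 | h0
        · rw [h0, zero_pow (by positivity), mul_zero]
          exact Nat.zero_le _
        · have h0' : 0 < ((X 0) ×ˢ (X 0)).sup (fun p => if p.1 ≠ p.2 then
            (fib E p.1 ∩ fib E p.2).card else 0) := by
            rw [hM, mul_zero, zero_add] at h0
            exact h0
          have hne : ((X 0) ×ˢ (X 0)).Nonempty := by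
            by_contra hcon
            rw [Finset.not_nonempty_iff_eq_empty] at hcon
            rw [hcon] at h0'
            simp at h0'
          obtain ⟨p, hp, hpM⟩ := Finset.exists_mem_eq_sup _ hne (fun p : α × α => if p.1 ≠ p.2 then
            (fib E p.1 ∩ fib E p.2).card else 0)
          rw [mem_product] at hp
          have hMp : M = if p.1 ≠ p.2 then (fib E p.1 ∩ fib E p.2).card else 0 := by
            rw [hM, mul_zero, zero_add]; exact hpM
          have hpne : p.1 ≠ p.2 := by
            by_contra hcon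
            rw [if_neg (by simpa using hcon)] at hMp
            omega
          rw [if_pos hpne] at hMp
          rw [hMp]
          exact ih (fun i => X i.succ) (fib E p.1 ∩ fib E p.2) m (fun i => hm i.succ) (by
            intro y hy i
            have h1 := hE _ (mem_fib.1 (mem_inter.1 hy).1) i.succ
            simpa using h1) (fun h => hbox (box_of_inter hpne h))
      calc m * E.card ^ 2 ^ (d + 1) = m * (E.card ^ 2) ^ 2 ^ d := by
            rw [← pow_mul, pow_succ]; ring_nf
        _ ≤ m * (2 * b * a ^ 2 * M) ^ 2 ^ d :=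
            Nat.mul_le_mul_left _ (Nat.pow_le_pow_left hkey _)
        _ = (2 * b * a ^ 2) ^ 2 ^ d * (m * M ^ 2 ^ d) := by rw [mul_pow]; ring
        _ ≤ (2 * b * a ^ 2) ^ 2 ^ d * (2 * b) ^ 2 ^ d := Nat.mul_le_mul_left _ hMbound
        _ = (2 * (a * b)) ^ 2 ^ (d + 1) := by
            rw [← mul_pow, pow_succ 2 d, mul_comm (2 ^ d) 2, pow_mul]
            congr 1
            ring

end

open Pool.Agent.V8H23.CloseET (rep cnt tr Grow rep_finite card_tr mem_tr Hyp grow_of_hyp)

/-- the sumset `B_0 + ... + B_d` -/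
def sumset {d : ℕ} (B : Fin d → Finset ℤ) : Finset ℤ :=
  (Fintype.piFinset B).image (fun v => ∑ i, v i)

open Classical in
/-- the elements of `A` in the sumset -/
noncomputable def part {d : ℕ} (A : Set ℕ) (B : Fin d → Finset ℤ) : Finset ℤ :=
  (sumset B).filter (fun z => ∃ a ∈ A, (a : ℤ) = z)

/-- a box whose vertices have different sums, all in `A`, gives many representations -/
lemma rep_of_box {A : Set ℕ} {d : ℕ} {E : Finset (Fin d → ℤ)}
    (hA : ∀ v ∈ E, ∃ a ∈ A, (a : ℤ) = ∑ i, v i)
    (hinj : Set.InjOn (fun v : Fin d → ℤ => ∑ i, v i) (E : Set (Fin d → ℤ))) (h : HasBox E) :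
    ∃ n, 2 ^ d ≤ rep A n := by
  classical
  obtain ⟨x, y, hxy, hE⟩ := h
  set p : (Fin d → Bool) → (Fin d → ℤ) := fun s i => if s i then y i else x i with hp
  choose a haA ha using fun s : Fin d → Bool => hA (p s) (hE s)
  have hcompl : ∀ s, (a s : ℤ) + a (fun i => !(s i)) = ∑ i, (x i + y i) := by
    intro s
    rw [ha, ha, ← Finset.sum_add_distrib]
    refine Finset.sum_congr rfl fun i _ => ?_
    by_cases h : s i <;> simp [hp, h, add_comm]
  have hinj' : Function.Injective a := by
    intro s t hst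
    have h1 : ∑ i, p s i = ∑ i, p t i := by rw [← ha, ← ha, hst]
    have h2 := hinj (hE s) (hE t) h1
    ext i
    have h3 : (if s i then y i else x i) = (if t i then y i else x i) := congrFun h2 i
    by_cases hs : s i <;> by_cases ht : t i
    · simp [hs, ht]
    · simp only [hs, ht, if_true] at h3
      exact absurd h3.symm (hxy i)
    · simp only [hs, ht, if_true] at h3
      exact absurd h3 (hxy i)
    · simp [hs, ht]
  refine ⟨a (fun _ => false) + a (fun _ => !false), ?_⟩
  have hn : ∀ s, a s + a (fun i => !(s i)) = a (fun _ => false) + a (fun _ => !false) := by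
    intro s
    have h1 := hcompl s
    have h2 := hcompl (fun _ => false)
    have h3 : (a s : ℤ) + a (fun i => !(s i)) = a (fun _ => false) + a (fun _ => !false) := by
      rw [h1, h2]
    exact_mod_cast h3
  unfold rep
  have h1 : ((Finset.univ : Finset (Fin d → Bool)).image
      (fun s => (a s, a (fun i => !(s i)))) : Set (ℕ × ℕ)) ⊆
      {q : ℕ × ℕ | q.1 ∈ A ∧ q.2 ∈ A ∧ q.1 + q.2 = a (fun _ => false) + a (fun _ => !false)} := by
    intro q hq
    simp only [coe_image, coe_univ, Set.image_univ, Set.mem_range] at hq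
    obtain ⟨s, rfl⟩ := hq
    exact ⟨haA _, haA _, hn s⟩
  have h2 := Set.ncard_le_ncard h1 (rep_finite A _)
  rw [Set.ncard_coe_finset, Finset.card_image_of_injective] at h2
  · rw [Finset.card_univ, Fintype.card_fun, Fintype.card_bool, Fintype.card_fin] at h2
    exact h2
  · intro s t hst
    simp only [Prod.mk.injEq] at hst
    exact hinj' hst.1

/-- few elements of `A` in a multifold sumset -/
theorem part_bound {A : Set ℕ} {K d : ℕ} (hK : ∀ n, rep A n ≤ K) (hd : K < 2 ^ (d + 1))
    (B : Fin (d + 1) → Finset ℤ) (m : ℕ) (hm : ∀ i, m ≤ (B i).card) :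
    m * (part A B).card ^ (2 ^ d) ≤ (2 * ∏ i, (B i).card) ^ (2 ^ d) := by
  classical
  have hex : ∀ z ∈ part A B, ∃ v ∈ Fintype.piFinset B, ∑ i, v i = z := by
    intro z hz
    unfold part sumset at hz
    rw [mem_filter, mem_image] at hz
    exact hz.1
  choose! g hg1 hg2 using hex
  set E : Finset (Fin (d + 1) → ℤ) := (part A B).image g with hE
  have hinjg : Set.InjOn g (part A B) := by
    intro z hz w hw h
    rw [← hg2 z hz, ← hg2 w hw, h]
  have hcard : E.card = (part A B).card := Finset.card_image_of_injOn hinjg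
  rw [← hcard]
  apply box_bound d B E m hm
  · intro e he i
    rw [hE, mem_image] at he
    obtain ⟨z, hz, rfl⟩ := he
    exact Fintype.mem_piFinset.1 (hg1 z hz) i
  · intro hbox
    have h1 : ∀ v ∈ E, ∃ a ∈ A, (a : ℤ) = ∑ i, v i := by
      intro v hv
      rw [hE, mem_image] at hv
      obtain ⟨z, hz, rfl⟩ := hv
      have h2 := hz
      unfold part at h2
      rw [mem_filter] at h2
      rw [hg2 z hz]
      exact h2.2
    have h2 : Set.InjOn (fun v : Fin (d + 1) → ℤ => ∑ i, v i) (E : Set (Fin (d + 1) → ℤ)) := by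
      intro v hv w hw h
      rw [hE, coe_image, Set.mem_image] at hv hw
      obtain ⟨z, hz, rfl⟩ := hv
      obtain ⟨z', hz', rfl⟩ := hw
      simp only at h
      rw [hg2 z hz, hg2 z' hz'] at h
      rw [h]
    obtain ⟨n, hn⟩ := rep_of_box h1 h2 hbox
    have := hK n
    omega

/-- the same with roots -/
theorem part_bound_real {A : Set ℕ} {K d : ℕ} (hK : ∀ n, rep A n ≤ K) (hd : K < 2 ^ (d + 1))
    (B : Fin (d + 1) → Finset ℤ) (m : ℕ) (hm : ∀ i, m ≤ (B i).card) :
    (m : ℝ) ^ ((1 : ℝ) / 2 ^ d) * ((part A B).card : ℝ) ≤ 2 * ∏ i, ((B i).card : ℝ) := by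
  have h1 := part_bound hK hd B m hm
  have h2 : (m : ℝ) * ((part A B).card : ℝ) ^ (2 ^ d) ≤ (2 * ∏ i, ((B i).card : ℝ)) ^ (2 ^ d) := by
    exact_mod_cast h1
  have h3 : ((m : ℝ) ^ ((1 : ℝ) / 2 ^ d) * ((part A B).card : ℝ)) ^ (2 ^ d) =
      (m : ℝ) * ((part A B).card : ℝ) ^ (2 ^ d) := by
    rw [mul_pow]
    congr 1
    rw [← Real.rpow_natCast, ← Real.rpow_mul (Nat.cast_nonneg _)]
    push_cast
    rw [one_div, inv_mul_cancel₀ (by positivity), Real.rpow_one]
  rw [← h3] at h2
  have hne : 2 ^ d ≠ 0 := pow_ne_zero _ (by norm_num)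
  have hb : 0 ≤ 2 * ∏ i, ((B i).card : ℝ) :=
    mul_nonneg zero_le_two (Finset.prod_nonneg fun i _ => Nat.cast_nonneg _)
  exact le_of_pow_le_pow_left₀ hne hb h2

/-- coverings by multifold sumsets -/
theorem covering_bound {A : Set ℕ} {K d : ℕ} (hK : ∀ n, rep A n ≤ K) (hd : K < 2 ^ (d + 1))
    (x J m : ℕ) (B : Fin J → Fin (d + 1) → Finset ℤ) (hm : ∀ j i, m ≤ (B j i).card)
    (hcov : ∀ a ∈ A, a < x → ∃ j, (a : ℤ) ∈ sumset (B j)) :
    (m : ℝ) ^ ((1 : ℝ) / 2 ^ d) * (cnt A x : ℝ) ≤ 2 * ∑ j, ∏ i, ((B j i).card : ℝ) := by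
  classical
  have h1 : cnt A x ≤ ∑ j, (part A (B j)).card := by
    rw [← card_tr]
    calc (tr A x).card = ((tr A x).image (fun a : ℕ => (a : ℤ))).card :=
          (Finset.card_image_of_injective _ Nat.cast_injective).symm
      _ ≤ (Finset.univ.biUnion (fun j => part A (B j))).card := by
          apply Finset.card_le_card
          intro z hz
          rw [mem_image] at hz
          obtain ⟨a, ha, rfl⟩ := hz
          rw [mem_tr] at ha
          obtain ⟨j, hj⟩ := hcov a ha.2 ha.1
          rw [mem_biUnion]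
          refine ⟨j, mem_univ _, ?_⟩
          unfold part
          rw [mem_filter]
          exact ⟨hj, a, ha.2, rfl⟩
      _ ≤ _ := Finset.card_biUnion_le
  have h2 : (cnt A x : ℝ) ≤ ∑ j, ((part A (B j)).card : ℝ) := by exact_mod_cast h1
  calc (m : ℝ) ^ ((1 : ℝ) / 2 ^ d) * (cnt A x : ℝ)
      ≤ (m : ℝ) ^ ((1 : ℝ) / 2 ^ d) * ∑ j, ((part A (B j)).card : ℝ) :=
        mul_le_mul_of_nonneg_left h2 (by positivity)
    _ = ∑ j, (m : ℝ) ^ ((1 : ℝ) / 2 ^ d) * ((part A (B j)).card : ℝ) := by rw [Finset.mul_sum]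
    _ ≤ ∑ j, 2 * ∏ i, ((B j i).card : ℝ) :=
        Finset.sum_le_sum fun j _ => part_bound_real hK hd (B j) m (hm j)
    _ = _ := by rw [Finset.mul_sum]

/-- Erdős–Turán for sets with economical coverings by multifold sumsets -/
theorem unbounded {A : Set ℕ} (hA : Hyp A)
    (h : ∀ (d : ℕ) (T : ℝ), ∃ᶠ x : ℕ in atTop, ∃ (J m : ℕ) (B : Fin J → Fin (d + 1) → Finset ℤ),
      (∀ j i, m ≤ (B j i).card) ∧ (∀ a ∈ A, a < x → ∃ j, (a : ℤ) ∈ sumset (B j)) ∧
      T * ∑ j, ∏ i, ((B j i).card : ℝ) ≤ (m : ℝ) ^ ((1 : ℝ) / 2 ^ d) * Real.sqrt x) :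
    ∀ K : ℕ, ∃ n, K < rep A n := by
  by_contra hcon
  push Not at hcon
  obtain ⟨K, hK⟩ := hcon
  obtain ⟨c, hc, hg⟩ := grow_of_hyp hA
  have hd : K < 2 ^ (K + 1) := lt_trans (Nat.lt_two_pow_self) (Nat.pow_lt_pow_right (by norm_num)
    (Nat.lt_succ_self K))
  obtain ⟨x, ⟨J, m, B, hm, hcov, hT⟩, hx, hx0⟩ := ((h K (2 / Real.sqrt c + 1)).and_eventually
    (hg.and (eventually_gt_atTop 0))).exists
  have h1 := covering_bound hK hd x J m B hm hcov
  have hsc : 0 < Real.sqrt c := Real.sqrt_pos.2 hc
  have hsx : 0 < Real.sqrt x := Real.sqrt_pos.2 (by exact_mod_cast hx0)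
  have h2 : Real.sqrt c * Real.sqrt x ≤ cnt A x := by
    rw [← Real.sqrt_mul hc.le]
    exact (Real.sqrt_le_sqrt hx).trans (le_of_eq (Real.sqrt_sq (Nat.cast_nonneg _)))
  set S : ℝ := ∑ j, ∏ i, ((B j i).card : ℝ) with hS
  set μ : ℝ := (m : ℝ) ^ ((1 : ℝ) / 2 ^ K) with hμ
  have hμ0 : 0 ≤ μ := by positivity
  have hS0 : 0 ≤ S := Finset.sum_nonneg fun j _ => Finset.prod_nonneg fun i _ => Nat.cast_nonneg _
  have h3 : μ * (Real.sqrt c * Real.sqrt x) ≤ 2 * S := (mul_le_mul_of_nonneg_left h2 hμ0).trans h1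
  have h4 : (2 / Real.sqrt c + 1) * S * Real.sqrt c ≤ μ * Real.sqrt x * Real.sqrt c :=
    mul_le_mul_of_nonneg_right hT hsc.le
  have h5 : (2 / Real.sqrt c + 1) * S * Real.sqrt c = 2 * S + Real.sqrt c * S := by
    field_simp
  have hSpos : 0 < S := by
    have hcnt : 0 < (cnt A x : ℝ) := lt_of_lt_of_le (mul_pos hsc hsx) h2
    by_contra hneg
    have hS00 : S = 0 := le_antisymm (not_lt.1 hneg) hS0
    -- no element can be covered
    have h6 : 0 < cnt A x := by exact_mod_cast hcnt
    rw [← card_tr, Finset.card_pos] at h6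
    obtain ⟨a, ha⟩ := h6
    rw [mem_tr] at ha
    obtain ⟨j, hj⟩ := hcov a ha.2 ha.1
    have h7 : 0 < ∏ i, ((B j i).card : ℝ) := by
      apply Finset.prod_pos
      intro i _
      unfold sumset at hj
      rw [mem_image] at hj
      obtain ⟨v, hv, _⟩ := hj
      have := Fintype.mem_piFinset.1 hv i
      exact_mod_cast Finset.card_pos.2 ⟨_, this⟩
    have h8 : ∏ i, ((B j i).card : ℝ) ≤ S :=
      Finset.single_le_sum (f := fun j => ∏ i, ((B j i).card : ℝ))
        (fun j _ => Finset.prod_nonneg fun i _ => Nat.cast_nonneg _) (Finset.mem_univ j)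
    linarith
  have h6 : 0 < Real.sqrt c * S := mul_pos hsc hSpos
  nlinarith

end Pool.Agent.V8H23.Box
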