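import Mathlib
import Pool.Agent.V8H23.Box

/-!
# Multifold sumsets with few representations
-/

set_option autoImplicit false

namespace Pool.Agent.V8H23.BoxSharp

open Finset
open Pool.Agent.V8H23.CloseET (rep rep_finite)

lemma pow_sidon_aux {i j k l : ℕ} (hij : i ≤ j) (hkl : k ≤ l) (h : 2 ^ i + 2 ^ j = 2 ^ k + 2 ^ l) :
    i = k ∧ j = l := by
  have key : ∀ {i j k l : ℕ}, i ≤ j → 2 ^ i + 2 ^ j = 2 ^ k + 2 ^ l → ¬ j < l := by
    intro i j k l hij h hlt
    have h1 : 2 ^ i ≤ 2 ^ j := Nat.pow_le_pow_right (by norm_num) hij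
    have h2 : 2 ^ (j + 1) ≤ 2 ^ l := Nat.pow_le_pow_right (by norm_num) hlt
    have h3 : 2 ^ (j + 1) = 2 * 2 ^ j := by ring
    have h4 : 0 < 2 ^ k := by positivity
    omega
  have h1 : j = l := by
    have h2 := key hij h
    have h3 := key hkl h.symm
    omega
  subst h1
  have h2 : 2 ^ i = 2 ^ k := by omega
  exact ⟨Nat.pow_right_injective (le_refl 2) h2, rfl⟩

lemma rep_pow_le (m n : ℕ) : rep {x | ∃ j < m, x = 2 ^ j} n ≤ 2 := by
  classical
  unfold rep
  rcases Set.eq_empty_or_nonempty {p : ℕ × ℕ | p.1 ∈ {x | ∃ j < m, x = 2 ^ j} ∧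
    p.2 ∈ {x | ∃ j < m, x = 2 ^ j} ∧ p.1 + p.2 = n} with h | h
  · rw [h]; simp
  · obtain ⟨⟨a, b⟩, ⟨i, _, hi⟩, ⟨j, _, hj⟩, hab⟩ := h
    simp only at hi hj hab
    have hsub : {p : ℕ × ℕ | p.1 ∈ {x | ∃ j < m, x = 2 ^ j} ∧
        p.2 ∈ {x | ∃ j < m, x = 2 ^ j} ∧ p.1 + p.2 = n} ⊆
        (({(a, b), (b, a)} : Finset (ℕ × ℕ)) : Set (ℕ × ℕ)) := by
      rintro ⟨c, d⟩ ⟨⟨k, _, hk⟩, ⟨l, _, hl⟩, hcd⟩
      simp only at hk hl hcd
      simp only [coe_insert, coe_singleton, Set.mem_insert_iff, Set.mem_singleton_iff, Prod.mk.injEq]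
      have h1 : 2 ^ i + 2 ^ j = 2 ^ k + 2 ^ l := by rw [← hi, ← hj, ← hk, ← hl]; omega
      rcases le_total i j with hij | hij <;> rcases le_total k l with hkl | hkl
      · obtain ⟨rfl, rfl⟩ := pow_sidon_aux hij hkl h1
        left; omega
      · obtain ⟨rfl, rfl⟩ := pow_sidon_aux hij hkl (by omega)
        right; omega
      · obtain ⟨rfl, rfl⟩ := pow_sidon_aux (i := j) (j := i) (k := k) (l := l) hij hkl (by omega)
        right; omega
      · obtain ⟨rfl, rfl⟩ := pow_sidon_aux (i := j) (j := i) (k := l) (l := k) hij hkl (by omega)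
        left; omega
    refine (Set.ncard_le_ncard hsub (Finset.finite_toSet _)).trans ?_
    rw [Set.ncard_coe_finset]
    exact Finset.card_le_two

/-- the sumset of sets of natural numbers -/
def sums {k : ℕ} (B : Fin k → Finset ℕ) : Set ℕ := {z | ∃ v : Fin k → ℕ, (∀ i, v i ∈ B i) ∧ ∑ i, v i = z}

theorem sharp (m : ℕ) : ∀ k : ℕ, ∃ B : Fin k → Finset ℕ, (∀ i, (B i).card = m) ∧
    (sums B).ncard = m ^ k ∧ ∀ n, rep (sums B) n ≤ 2 ^ k := by
  intro k
  suffices h : ∃ B : Fin k → Finset ℕ, (∀ i, (B i).card = m) ∧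
      (∀ v w : Fin k → ℕ, (∀ i, v i ∈ B i) → (∀ i, w i ∈ B i) → ∑ i, v i = ∑ i, w i → v = w) ∧
      ∀ n, rep (sums B) n ≤ 2 ^ k by
    obtain ⟨B, h1, h2, h3⟩ := h
    refine ⟨B, h1, ?_, h3⟩
    have h4 : sums B = (((Fintype.piFinset B).image (fun v => ∑ i, v i) : Finset ℕ) : Set ℕ) := by
      ext z
      simp only [sums, Set.mem_ofPred_eq, coe_image, Set.mem_image, mem_coe, Fintype.mem_piFinset]
    rw [h4, Set.ncard_coe_finset, Finset.card_image_of_injOn, Fintype.card_piFinset]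
    · simp [h1]
    · intro v hv w hw h
      exact h2 v w (Fintype.mem_piFinset.1 (mem_coe.1 hv)) (Fintype.mem_piFinset.1 (mem_coe.1 hw)) h
  induction k with
  | zero =>
    refine ⟨fun _ => ∅, fun i => i.elim0, fun v w _ _ _ => funext fun i => i.elim0, fun n => ?_⟩
    rw [pow_zero]
    have h1 : {p : ℕ × ℕ | p.1 ∈ sums (fun _ : Fin 0 => (∅ : Finset ℕ)) ∧
        p.2 ∈ sums (fun _ : Fin 0 => (∅ : Finset ℕ)) ∧ p.1 + p.2 = n} ⊆
        (({(0, 0)} : Finset (ℕ × ℕ)) : Set (ℕ × ℕ)) := by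
      rintro ⟨a, b⟩ ⟨⟨v, _, hv⟩, ⟨w, _, hw⟩, _⟩
      simp only [Finset.univ_eq_empty, Finset.sum_empty] at hv hw
      simp [← hv, ← hw]
    unfold rep
    refine (Set.ncard_le_ncard h1 (Finset.finite_toSet _)).trans ?_
    rw [Set.ncard_coe_finset]
    simp
  | succ k ih =>
    obtain ⟨B, hB1, hB2, hB3⟩ := ih
    set M : ℕ := 2 ^ (m + 1) with hM
    have hM0 : 0 < M := by positivity
    set P : Finset ℕ := (range m).image (fun j => 2 ^ j) with hP
    have hPmem : ∀ s, s ∈ P ↔ ∃ j < m, s = 2 ^ j := by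
      intro s
      rw [hP, mem_image]
      constructor
      · rintro ⟨j, hj, rfl⟩; exact ⟨j, mem_range.1 hj, rfl⟩
      · rintro ⟨j, hj, rfl⟩; exact ⟨j, mem_range.2 hj, rfl⟩
    have hPlt : ∀ s ∈ P, 2 * s < M := by
      intro s hs
      obtain ⟨j, hj, rfl⟩ := (hPmem s).1 hs
      have : 2 ^ (j + 1) < 2 ^ (m + 1) := Nat.pow_lt_pow_right (by norm_num) (by omega)
      rw [hM]
      calc 2 * 2 ^ j = 2 ^ (j + 1) := by ring
        _ < _ := this
    set B' : Fin (k + 1) → Finset ℕ := Fin.cons P (fun i => (B i).image (fun t => M * t)) with hB'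
    have hB'0 : B' 0 = P := by simp [hB']
    have hB's : ∀ i : Fin k, B' i.succ = (B i).image (fun t => M * t) := by simp [hB']
    -- decomposition of the sums
    have hdec : ∀ v : Fin (k + 1) → ℕ, (∀ i, v i ∈ B' i) → ∃ (s : ℕ) (u : Fin k → ℕ), s ∈ P ∧
        (∀ i, u i ∈ B i) ∧ v = Fin.cons s (fun i => M * u i) ∧ ∑ i, v i = s + M * ∑ i, u i := by
      intro v hv
      have h1 : ∀ i : Fin k, ∃ t ∈ B i, M * t = v i.succ := by
        intro i
        have := hv i.succ
        rw [hB's, mem_image] at this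
        exact this
      choose u hu1 hu2 using h1
      refine ⟨v 0, u, by rw [← hB'0]; exact hv 0, hu1, ?_, ?_⟩
      · ext i
        refine Fin.cases ?_ (fun j => ?_) i
        · simp
        · simp [hu2]
      · rw [Fin.sum_univ_succ, Finset.mul_sum]
        congr 1
        exact Finset.sum_congr rfl fun i _ => (hu2 i).symm
    refine ⟨B', ?_, ?_, ?_⟩
    · intro i
      refine Fin.cases ?_ (fun j => ?_) i
      · rw [hB'0, hP, Finset.card_image_of_injective _ (Nat.pow_right_injective (le_refl 2)),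
          card_range]
      · rw [hB's, Finset.card_image_of_injective _ (fun a b h => Nat.eq_of_mul_eq_mul_left hM0 h),
          hB1]
    · intro v w hv hw h
      obtain ⟨s, u, hs, hu, rfl, h1⟩ := hdec v hv
      obtain ⟨s', u', hs', hu', rfl, h2⟩ := hdec w hw
      rw [h1, h2] at h
      have h3 := hPlt s hs
      have h4 := hPlt s' hs'
      have h5 : s = s' := by
        have := congrArg (· % M) h
        simp only [Nat.add_mul_mod_self_left] at this
        rwa [Nat.mod_eq_of_lt (by omega), Nat.mod_eq_of_lt (by omega)] at this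
      subst h5
      have h6 : ∑ i, u i = ∑ i, u' i := Nat.eq_of_mul_eq_mul_left hM0 (by omega)
      rw [hB2 u u' hu hu' h6]
    · intro n
      have hsums : ∀ z ∈ sums B', z % M ∈ {x | ∃ j < m, x = 2 ^ j} ∧ z / M ∈ sums B ∧
          2 * (z % M) < M := by
        rintro z ⟨v, hv, rfl⟩
        obtain ⟨s, u, hs, hu, _, h1⟩ := hdec v hv
        have h3 := hPlt s hs
        have h4 : (s + M * ∑ i, u i) % M = s := by
          rw [Nat.add_mul_mod_self_left, Nat.mod_eq_of_lt (by omega)]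
        have h5 : (s + M * ∑ i, u i) / M = ∑ i, u i := by
          rw [Nat.add_mul_div_left _ _ hM0, Nat.div_eq_of_lt (by omega), zero_add]
        rw [h1, h4, h5]
        exact ⟨(hPmem s).1 hs, ⟨u, hu, rfl⟩, h3⟩
      have h1 : rep (sums B') n ≤ rep {x | ∃ j < m, x = 2 ^ j} (n % M) * rep (sums B) (n / M) := by
        unfold rep
        rw [← Set.ncard_prod]
        refine Set.ncard_le_ncard_of_injOn (fun p : ℕ × ℕ => ((p.1 % M, p.2 % M), (p.1 / M, p.2 / M)))
          ?_ ?_ ((rep_finite _ _).prod (rep_finite _ _))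
        · rintro ⟨a, b⟩ ⟨ha, hb, hab⟩
          simp only at ha hb hab
          obtain ⟨ha1, ha2, ha3⟩ := hsums a ha
          obtain ⟨hb1, hb2, hb3⟩ := hsums b hb
          have e1 := Nat.div_add_mod a M
          have e2 := Nat.div_add_mod b M
          have e3 : n = (a % M + b % M) + M * (a / M + b / M) := by
            rw [← hab]
            have : M * (a / M + b / M) = M * (a / M) + M * (b / M) := by ring
            omega
          have e4 : n % M = a % M + b % M := by
            rw [e3, Nat.add_mul_mod_self_left, Nat.mod_eq_of_lt (by omega)]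
          have e5 : n / M = a / M + b / M := by
            rw [e3, Nat.add_mul_div_left _ _ hM0, Nat.div_eq_of_lt (by omega), zero_add]
          exact ⟨⟨ha1, hb1, e4.symm⟩, ha2, hb2, e5.symm⟩
        · rintro ⟨a, b⟩ _ ⟨a', b'⟩ _ h
          simp only [Prod.mk.injEq] at h
          obtain ⟨⟨h1, h2⟩, h3, h4⟩ := h
          ext
          · simp only
            rw [← Nat.div_add_mod a M, ← Nat.div_add_mod a' M, h1, h3]
          · simp only
            rw [← Nat.div_add_mod b M, ← Nat.div_add_mod b' M, h2, h4]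
      calc rep (sums B') n ≤ _ := h1
        _ ≤ 2 * 2 ^ k := Nat.mul_le_mul (rep_pow_le m _) (hB3 _)
        _ = 2 ^ (k + 1) := by ring

end Pool.Agent.V8H23.BoxSharp
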